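import Pool.Agent.Lib.MP_706ff3_lc.Complete

/-!
From models of the theories to good families.
-/

set_option autoImplicit false
set_option linter.unusedSectionVars false

namespace Pool.Agent.Lib.MP_706ff3_lc

open Classical

theorem D0.subst {φ : Fm} (h : D0 φ) : ∀ σ τ, D0 (φ.subst σ τ) := by
  induction h with
  | eq s t => intro σ τ; exact .eq _ _
  | lt s t => intro σ τ; exact .lt _ _
  | mem t j => intro σ τ; exact .mem _ _
  | bot => intro σ τ; exact .bot
  | imp _ _ ih1 ih2 => intro σ τ; exact .imp (ih1 σ τ) (ih2 σ τ)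
  | ball t _ ih =>
    intro σ τ
    have := D0.ball (t.subst σ) (ih (cons (.var 0) fun i => (σ i).up) τ)
    simpa only [Fm.subst, Tm.subst, cons_zero, Tm.up_subst_cons, Tm.subst_up] using this
  | bex t _ ih =>
    intro σ τ
    have := D0.bex (t.subst σ) (ih (cons (.var 0) fun i => (σ i).up) τ)
    simpa only [Fm.exN, Fm.and, Fm.neg, Fm.subst, Tm.subst, cons_zero, Tm.up_subst_cons,
      Tm.subst_up] using this

theorem eval_indAx (A : Str) (φ : Fm) (v : ℕ → A.M) (ρ : ℕ → Set A.M) :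
    (indAx φ).eval A v ρ ↔ (φ.eval A (cons A.zero v) ρ →
      (∀ x, φ.eval A (cons x v) ρ → φ.eval A (cons (A.add x A.one) v) ρ) →
        ∀ x, φ.eval A (cons x v) ρ) := by
  have e : ∀ x, (fun i => Tm.eval A (cons x v)
      (cons (.add (.var 0) .one) (fun i => Tm.var (i + 1)) i)) = cons (A.add x A.one) v := by
    intro x; funext i; cases i <;> rfl
  simp only [indAx, Fm.eval, Fm.eval_and, Fm.eval_instN, Fm.eval_subst, e, and_imp]
  rfl

theorem eval_caAx (A : Str) (φ ψ : Fm) (v : ℕ → A.M) (ρ : ℕ → Set A.M) :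
    (caAx φ ψ).eval A v ρ ↔ ((∀ x, φ.eval A (cons x v) ρ ↔ ψ.eval A (cons x v) ρ) →
      ∃ X ∈ A.S, ∀ x, x ∈ X ↔ φ.eval A (cons x v) ρ) := by
  simp only [caAx, Fm.eval, Fm.eval_iff, Fm.eval_exS, Fm.eval_upS, Tm.eval, cons_zero]

/-- Predicates defined by bounded formulas with set parameters. -/
def SD (A : Str) (P : (ℕ → A.M) → Prop) : Prop :=
  ∃ φ ρ, D0 φ ∧ (∀ j, ρ j ∈ A.S) ∧ ∀ v, P v ↔ φ.eval A v ρ

section SD

variable {A : Str} {P Q : (ℕ → A.M) → Prop}

theorem SD.merge (h : SD A P) (h' : SD A Q) : ∃ φ ψ ρ, D0 φ ∧ D0 ψ ∧ (∀ j, ρ j ∈ A.S) ∧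
    (∀ v, P v ↔ φ.eval A v ρ) ∧ ∀ v, Q v ↔ ψ.eval A v ρ := by
  obtain ⟨φ, ρ, h1, h2, h3⟩ := h
  obtain ⟨ψ, ρ', h4, h5, h6⟩ := h'
  refine ⟨φ.subst .var fun j => 2 * j, ψ.subst .var fun j => 2 * j + 1,
    fun j => if j % 2 = 0 then ρ (j / 2) else ρ' (j / 2), h1.subst _ _, h4.subst _ _,
    fun j => by dsimp only; split_ifs <;> simp [h2, h5], fun v => ?_, fun v => ?_⟩
  · rw [Fm.eval_subst, h3]
    refine iff_of_eq ?_
    congr 1
    funext j
    rw [if_pos (by omega), show 2 * j / 2 = j by omega]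
  · rw [Fm.eval_subst, h6]
    refine iff_of_eq ?_
    congr 1
    funext j
    rw [if_neg (by omega), show (2 * j + 1) / 2 = j by omega]

theorem SD.of_iff (h : SD A P) (e : ∀ v, P v ↔ Q v) : SD A Q := by
  have : P = Q := funext fun a => propext (e a)
  exact this ▸ h

theorem SD.eq (hS : A.S.Nonempty) (s t : Tm) : SD A fun v => s.eval A v = t.eval A v :=
  ⟨.eq s t, fun _ => hS.some, .eq s t, fun _ => hS.some_mem, fun _ => Iff.rfl⟩

theorem SD.lt (hS : A.S.Nonempty) (s t : Tm) : SD A fun v => A.lt (s.eval A v) (t.eval A v) :=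
  ⟨.lt s t, fun _ => hS.some, .lt s t, fun _ => hS.some_mem, fun _ => Iff.rfl⟩

theorem SD.mem (t : Tm) {X : Set A.M} (hX : X ∈ A.S) : SD A fun v => t.eval A v ∈ X :=
  ⟨.mem t 0, fun _ => X, .mem t 0, fun _ => hX, fun _ => Iff.rfl⟩

theorem SD.imp (h : SD A P) (h' : SD A Q) : SD A fun v => P v → Q v := by
  obtain ⟨φ, ψ, ρ, h1, h2, h3, h4, h5⟩ := h.merge h'
  exact ⟨φ.imp ψ, ρ, h1.imp h2, h3, fun v => by simp only [Fm.eval, h4, h5]⟩

theorem SD.not (h : SD A P) : SD A fun v => ¬ P v := by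
  obtain ⟨φ, ρ, h1, h2, h3⟩ := h
  exact ⟨φ.neg, ρ, h1.imp .bot, h2, fun v => by simp [h3]⟩

theorem SD.and (h : SD A P) (h' : SD A Q) : SD A fun v => P v ∧ Q v :=
  (h.imp h'.not).not.of_iff (by simp)

theorem SD.or (h : SD A P) (h' : SD A Q) : SD A fun v => P v ∨ Q v :=
  (h.not.imp h').of_iff (by intro v; tauto)

theorem SD.ball (t : Tm) (h : SD A P) :
    SD A fun v => ∀ x, A.lt x (t.eval A v) → P (cons x v) := by
  obtain ⟨φ, ρ, h1, h2, h3⟩ := h
  exact ⟨_, ρ, h1.ball t, h2, fun v => by simp [Fm.eval, Tm.eval, h3]⟩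

theorem SD.bex (t : Tm) (h : SD A P) :
    SD A fun v => ∃ x, A.lt x (t.eval A v) ∧ P (cons x v) :=
  (SD.ball t h.not).not.of_iff (by simp)

theorem SD.shift (h : SD A P) : SD A fun v => P fun i => v (i + 1) := by
  obtain ⟨φ, ρ, h1, h2, h3⟩ := h
  exact ⟨φ.upN, ρ, h1.subst _ _, h2, fun v => by dsimp only; rw [h3, Fm.upN, Fm.eval_subst]; rfl⟩

end SD

/-- The semantic content of the axioms. -/
structure Ax (A : Str) : Prop where
  ne : A.S.Nonempty
  a1 : ∀ x, A.add x A.one ≠ A.zero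
  a2 : ∀ x y, A.add x A.one = A.add y A.one → x = y
  a3 : ∀ x, A.add x A.zero = x
  a4 : ∀ x y, A.add x (A.add y A.one) = A.add (A.add x y) A.one
  a5 : ∀ x, A.mul x A.zero = A.zero
  a6 : ∀ x y, A.mul x (A.add y A.one) = A.add (A.mul x y) x
  a7 : ∀ x, ¬ A.lt x A.zero
  a8 : ∀ x y, A.lt x (A.add y A.one) ↔ A.lt x y ∨ x = y
  ind2 : ∀ P, SD A P → ∀ v, (∃ y, ∀ z, P (cons z (cons y (cons A.zero v)))) →
    (∀ x, (∃ y, ∀ z, P (cons z (cons y (cons x v)))) →
      ∃ y, ∀ z, P (cons z (cons y (cons (A.add x A.one) v)))) →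
    ∀ x, ∃ y, ∀ z, P (cons z (cons y (cons x v)))
  ca : ∀ P Q, SD A P → SD A Q → ∀ v,
    (∀ x, (∃ y, P (cons y (cons x v))) ↔ ∀ y, Q (cons y (cons x v))) →
      ∃ X ∈ A.S, ∀ x, x ∈ X ↔ ∃ y, P (cons y (cons x v))

theorem ax_of_valid {A : Str} (hS : A.S.Nonempty) (h : ∀ ψ ∈ RCA0 ∪ IS2, A.Valid ψ) : Ax A := by
  have hb : ∀ ψ ∈ RCA0, ∀ x y : A.M, ψ.eval A (cons x fun _ => y) fun _ => hS.some :=
    fun ψ hψ x y => h ψ (Or.inl hψ) _ _ fun _ => hS.some_mem
  refine ⟨hS, fun x => ?_, fun x y => ?_, fun x => ?_, fun x y => ?_, fun x => ?_, fun x y => ?_,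
    fun x => ?_, fun x y => ?_, ?_, ?_⟩
  · exact hb (Fm.eq (.add (.var 0) .one) .zero).neg (by simp [RCA0]) x x
  · exact hb ((Fm.eq (.add (.var 0) .one) (.add (.var 1) .one)).imp (.eq (.var 0) (.var 1)))
      (by simp [RCA0]) x y
  · exact hb (.eq (.add (.var 0) .zero) (.var 0)) (by simp [RCA0]) x x
  · exact hb (.eq (.add (.var 0) (.add (.var 1) .one)) (.add (.add (.var 0) (.var 1)) .one))
      (by simp [RCA0]) x y
  · exact hb (.eq (.mul (.var 0) .zero) .zero) (by simp [RCA0]) x x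
  · exact hb (.eq (.mul (.var 0) (.add (.var 1) .one)) (.add (.mul (.var 0) (.var 1)) (.var 0)))
      (by simp [RCA0]) x y
  · exact hb (Fm.lt (.var 0) .zero).neg (by simp [RCA0]) x x
  · have := hb ((Fm.lt (.var 0) (.add (.var 1) .one)).iff
      ((Fm.lt (.var 0) (.var 1)).or (.eq (.var 0) (.var 1)))) (by simp [RCA0]) x y
    rw [Fm.eval_iff, Fm.eval_or] at this
    exact this
  · rintro P ⟨φ, ρ, h1, h2, h3⟩ v
    have := h (indAx φ.allN.exN) (Or.inr ⟨φ, h1, rfl⟩) v ρ h2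
    simpa only [eval_indAx, Fm.eval_exN, Fm.eval, ← h3] using this
  · intro P Q hP hQ v
    obtain ⟨φ, ψ, ρ, h1, h2, h3, h4, h5⟩ := hP.merge hQ
    have := h (caAx φ.exN ψ.allN) (Or.inl (Or.inr ⟨φ, ψ, h1, h2, rfl⟩)) v ρ h3
    simpa only [eval_caAx, Fm.eval_exN, Fm.eval, ← h4, ← h5] using this

namespace Ax

variable {A : Str} (h : Ax A)
include h

theorem ind1 {P : (ℕ → A.M) → Prop} (hP : SD A P) (v : ℕ → A.M)
    (h0 : ∃ y, P (cons y (cons A.zero v)))
    (hs : ∀ x, (∃ y, P (cons y (cons x v))) → ∃ y, P (cons y (cons (A.add x A.one) v))) :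
    ∀ x, ∃ y, P (cons y (cons x v)) := by
  have : Nonempty A.M := ⟨A.zero⟩
  have := h.ind2 _ hP.shift v
  simp only [cons_succ, forall_const] at this
  exact this h0 hs

theorem ind0 {P : (ℕ → A.M) → Prop} (hP : SD A P) (v : ℕ → A.M) (h0 : P (cons A.zero v))
    (hs : ∀ x, P (cons x v) → P (cons (A.add x A.one) v)) : ∀ x, P (cons x v) := by
  have : Nonempty A.M := ⟨A.zero⟩
  have := h.ind1 hP.shift v
  simp only [cons_succ, exists_const] at this
  exact this h0 hs

theorem ca0 {P : (ℕ → A.M) → Prop} (hP : SD A P) (v : ℕ → A.M) :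
    ∃ X ∈ A.S, ∀ x, x ∈ X ↔ P (cons x v) := by
  have : Nonempty A.M := ⟨A.zero⟩
  have := h.ca _ _ hP.shift hP.shift v
  simp only [cons_succ, exists_const, forall_const] at this
  exact this

theorem zero_add (x : A.M) : A.add A.zero x = x :=
  h.ind0 (SD.eq h.ne (.add .zero (.var 0)) (.var 0)) (fun _ => x) (h.a3 _)
    (fun y (hy : A.add A.zero y = y) => show A.add A.zero (A.add y A.one) = A.add y A.one by
      rw [h.a4, hy]) x

theorem succ_add (a x : A.M) : A.add (A.add a A.one) x = A.add (A.add a x) A.one :=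
  h.ind0 (SD.eq h.ne (.add (.add (.var 1) .one) (.var 0)) (.add (.add (.var 1) (.var 0)) .one))
    (fun _ => a) (show A.add (A.add a A.one) A.zero = A.add (A.add a A.zero) A.one by
      rw [h.a3, h.a3])
    (fun y (hy : A.add (A.add a A.one) y = A.add (A.add a y) A.one) =>
      show A.add (A.add a A.one) (A.add y A.one) = A.add (A.add a (A.add y A.one)) A.one by
        rw [h.a4, hy, h.a4]) x

theorem add_comm (a x : A.M) : A.add a x = A.add x a :=
  h.ind0 (SD.eq h.ne (.add (.var 1) (.var 0)) (.add (.var 0) (.var 1)))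
    (fun _ => a) (show A.add a A.zero = A.add A.zero a by rw [h.a3, h.zero_add])
    (fun y (hy : A.add a y = A.add y a) =>
      show A.add a (A.add y A.one) = A.add (A.add y A.one) a by rw [h.a4, hy, h.succ_add]) x

theorem add_assoc (a b x : A.M) : A.add (A.add a b) x = A.add a (A.add b x) :=
  h.ind0 (SD.eq h.ne (.add (.add (.var 1) (.var 2)) (.var 0))
    (.add (.var 1) (.add (.var 2) (.var 0))))
    (cons a fun _ => b) (show A.add (A.add a b) A.zero = A.add a (A.add b A.zero) by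
      rw [h.a3, h.a3])
    (fun y (hy : A.add (A.add a b) y = A.add a (A.add b y)) =>
      show A.add (A.add a b) (A.add y A.one) = A.add a (A.add b (A.add y A.one)) by
        rw [h.a4, hy, h.a4, h.a4]) x

theorem zero_mul (x : A.M) : A.mul A.zero x = A.zero :=
  h.ind0 (SD.eq h.ne (.mul .zero (.var 0)) .zero) (fun _ => x) (h.a5 _)
    (fun y (hy : A.mul A.zero y = A.zero) => show A.mul A.zero (A.add y A.one) = A.zero by
      rw [h.a6, hy, h.a3]) x

theorem succ_mul (a x : A.M) : A.mul (A.add a A.one) x = A.add (A.mul a x) x :=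
  h.ind0 (SD.eq h.ne (.mul (.add (.var 1) .one) (.var 0)) (.add (.mul (.var 1) (.var 0)) (.var 0)))
    (fun _ => a) (show A.mul (A.add a A.one) A.zero = A.add (A.mul a A.zero) A.zero by
      rw [h.a5, h.a5, h.a3])
    (fun y (hy : A.mul (A.add a A.one) y = A.add (A.mul a y) y) =>
      show A.mul (A.add a A.one) (A.add y A.one) = A.add (A.mul a (A.add y A.one)) (A.add y A.one) by
        rw [h.a6, hy, h.a6, h.a4, h.a4, h.add_assoc (A.mul a y) y a, h.add_comm y a,
          ← h.add_assoc]) x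

theorem mul_comm (a x : A.M) : A.mul a x = A.mul x a :=
  h.ind0 (SD.eq h.ne (.mul (.var 1) (.var 0)) (.mul (.var 0) (.var 1)))
    (fun _ => a) (show A.mul a A.zero = A.mul A.zero a by rw [h.a5, h.zero_mul])
    (fun y (hy : A.mul a y = A.mul y a) =>
      show A.mul a (A.add y A.one) = A.mul (A.add y A.one) a by rw [h.a6, hy, h.succ_mul]) x

theorem mul_add (a b x : A.M) : A.mul a (A.add b x) = A.add (A.mul a b) (A.mul a x) :=
  h.ind0 (SD.eq h.ne (.mul (.var 1) (.add (.var 2) (.var 0)))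
    (.add (.mul (.var 1) (.var 2)) (.mul (.var 1) (.var 0))))
    (cons a fun _ => b) (show A.mul a (A.add b A.zero) = A.add (A.mul a b) (A.mul a A.zero) by
      rw [h.a3, h.a5, h.a3])
    (fun y (hy : A.mul a (A.add b y) = A.add (A.mul a b) (A.mul a y)) =>
      show A.mul a (A.add b (A.add y A.one)) = A.add (A.mul a b) (A.mul a (A.add y A.one)) by
        rw [h.a4, h.a6, hy, h.a6, h.add_assoc]) x

theorem mul_assoc (a b x : A.M) : A.mul (A.mul a b) x = A.mul a (A.mul b x) :=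
  h.ind0 (SD.eq h.ne (.mul (.mul (.var 1) (.var 2)) (.var 0))
    (.mul (.var 1) (.mul (.var 2) (.var 0))))
    (cons a fun _ => b) (show A.mul (A.mul a b) A.zero = A.mul a (A.mul b A.zero) by
      rw [h.a5, h.a5, h.a5])
    (fun y (hy : A.mul (A.mul a b) y = A.mul a (A.mul b y)) =>
      show A.mul (A.mul a b) (A.add y A.one) = A.mul a (A.mul b (A.add y A.one)) by
        rw [h.a6, hy, h.a6, h.mul_add]) x

theorem mul_one (x : A.M) : A.mul x A.one = x := by
  have := h.a6 x A.zero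
  rwa [h.zero_add, h.a5, h.zero_add] at this

theorem add_cancel (a b x : A.M) : A.add a x = A.add b x → a = b :=
  h.ind0 ((SD.eq h.ne (.add (.var 1) (.var 0)) (.add (.var 2) (.var 0))).imp
    (SD.eq h.ne (.var 1) (.var 2)))
    (cons a fun _ => b) (show A.add a A.zero = A.add b A.zero → a = b by
      rw [h.a3, h.a3]; exact id)
    (fun y (hy : A.add a y = A.add b y → a = b) =>
      show A.add a (A.add y A.one) = A.add b (A.add y A.one) → a = b by
        rw [h.a4, h.a4]; exact fun e => hy (h.a2 _ _ e)) x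

theorem zero_or_succ (x : A.M) : x = A.zero ∨ ∃ y, x = A.add y A.one := by
  have := h.ind1 ((SD.eq h.ne (.var 1) .zero).or (SD.eq h.ne (.var 1) (.add (.var 0) .one)))
    (fun _ => x) ⟨x, Or.inl rfl⟩ (fun y _ => ⟨y, Or.inr rfl⟩) x
  obtain ⟨y, hy | hy⟩ := this
  · exact Or.inl hy
  · exact Or.inr ⟨y, hy⟩

theorem lt_iff (a x : A.M) : A.lt a x ↔ ∃ z, x = A.add (A.add a z) A.one := by
  constructor
  · intro h0
    have := h.ind1 ((SD.lt h.ne (.var 2) (.var 1)).imp
      (SD.eq h.ne (.var 1) (.add (.add (.var 2) (.var 0)) .one))) (fun _ => a)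
      ⟨a, fun h1 => absurd h1 (h.a7 _)⟩ (by
        rintro y ⟨z, hz⟩
        by_cases h1 : A.lt a y
        · have h2 : y = A.add (A.add a z) A.one := hz h1
          exact ⟨A.add z A.one, fun _ => show A.add y A.one = A.add (A.add a (A.add z A.one)) A.one by
            rw [h.a4, ← h2]⟩
        · exact ⟨A.zero, fun (h2 : A.lt a (A.add y A.one)) =>
            show A.add y A.one = A.add (A.add a A.zero) A.one by
              rw [h.a3, ((h.a8 _ _).1 h2).resolve_left h1]⟩) x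
    obtain ⟨z, hz⟩ := this
    exact ⟨z, hz h0⟩
  · rintro ⟨z, rfl⟩
    exact h.ind0 (SD.lt h.ne (.var 1) (.add (.add (.var 1) (.var 0)) .one)) (fun _ => a)
      (show A.lt a (A.add (A.add a A.zero) A.one) by rw [h.a3]; exact (h.a8 _ _).2 (Or.inr rfl))
      (fun y (hy : A.lt a (A.add (A.add a y) A.one)) =>
        show A.lt a (A.add (A.add a (A.add y A.one)) A.one) by
          rw [h.a4]; exact (h.a8 _ _).2 (Or.inl hy)) z

theorem le_iff (a x : A.M) : (A.lt a x ∨ a = x) ↔ ∃ z, x = A.add a z := by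
  rw [h.lt_iff]
  constructor
  · rintro (⟨z, rfl⟩ | rfl)
    · exact ⟨A.add z A.one, (h.a4 _ _).symm⟩
    · exact ⟨A.zero, (h.a3 _).symm⟩
  · rintro ⟨z, rfl⟩
    rcases h.zero_or_succ z with rfl | ⟨y, rfl⟩
    · exact Or.inr (h.a3 _).symm
    · exact Or.inl ⟨y, h.a4 _ _⟩

theorem lt_irrefl (a : A.M) : ¬ A.lt a a := by
  rw [h.lt_iff]
  rintro ⟨z, hz⟩
  refine h.a1 z (h.add_cancel _ _ a ?_)
  rw [h.zero_add, h.add_comm, h.a4]; exact hz.symm

theorem total (a x : A.M) : (A.lt a x ∨ a = x) ∨ A.lt x a := by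
  refine h.ind0 (((SD.lt h.ne (.var 1) (.var 0)).or (SD.eq h.ne (.var 1) (.var 0))).or
    (SD.lt h.ne (.var 0) (.var 1))) (fun _ => a) ?_ ?_ x
  · show (A.lt a A.zero ∨ a = A.zero) ∨ A.lt A.zero a
    rcases (h.le_iff A.zero a).2 ⟨a, (h.zero_add a).symm⟩ with h1 | h1
    · exact Or.inr h1
    · exact Or.inl (Or.inr h1.symm)
  · intro y (hy : (A.lt a y ∨ a = y) ∨ A.lt y a)
    show (A.lt a (A.add y A.one) ∨ a = A.add y A.one) ∨ A.lt (A.add y A.one) a
    rcases hy with hy | hy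
    · exact Or.inl (Or.inl ((h.a8 _ _).2 hy))
    · obtain ⟨z, hz⟩ := (h.lt_iff _ _).1 hy
      rcases (h.le_iff (A.add y A.one) a).2 ⟨z, by rw [h.succ_add]; exact hz⟩ with h1 | h1
      · exact Or.inr h1
      · exact Or.inl (Or.inr h1.symm)

/-- The semiring structure. -/
@[reducible] def semiring : CommSemiring A.M where
  zero := A.zero
  one := A.one
  add := A.add
  mul := A.mul
  add_assoc := h.add_assoc
  zero_add := h.zero_add
  add_zero := h.a3
  add_comm := h.add_comm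
  left_distrib := h.mul_add
  right_distrib := fun a b c => by
    show A.mul (A.add a b) c = A.add (A.mul a c) (A.mul b c)
    rw [h.mul_comm, h.mul_add, h.mul_comm c, h.mul_comm c]
  zero_mul := h.zero_mul
  mul_zero := h.a5
  mul_assoc := h.mul_assoc
  one_mul := fun a => (h.mul_comm _ _).trans (h.mul_one a)
  mul_one := h.mul_one
  mul_comm := h.mul_comm
  nsmul := @nsmulRec _ ⟨A.zero⟩ ⟨A.add⟩

theorem lt_of_lt_of_le {a b c : A.M} (h1 : A.lt a b) (h2 : A.lt b c ∨ b = c) : A.lt a c := by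
  obtain ⟨z, rfl⟩ := (h.lt_iff _ _).1 h1
  obtain ⟨w, rfl⟩ := (h.le_iff _ _).1 h2
  exact (h.lt_iff _ _).2 ⟨A.add z w, by rw [h.succ_add, h.add_assoc a z w]⟩

/-- The order. -/
@[reducible] noncomputable def order : LinearOrder A.M where
  lt := A.lt
  le := fun a b => A.lt a b ∨ a = b
  le_refl := fun _ => Or.inr rfl
  le_trans := by
    rintro a b c (h1 | rfl) h2
    · exact Or.inl (h.lt_of_lt_of_le h1 h2)
    · exact h2
  lt_iff_le_not_ge := by
    intro a b
    constructor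
    · intro h1
      exact ⟨Or.inl h1, fun h2 => h.lt_irrefl _ (h.lt_of_lt_of_le h1 h2)⟩
    · rintro ⟨h1 | rfl, h2⟩
      · exact h1
      · exact absurd (Or.inr rfl) h2
  le_antisymm := by
    rintro a b (h1 | rfl) h2
    · exact absurd (h.lt_of_lt_of_le h1 h2) (h.lt_irrefl _)
    · rfl
  le_total := fun a b => (h.total a b).imp_right Or.inl
  toDecidableLE := Classical.decRel _

/-- The model as a discretely ordered semiring. -/
@[reducible] noncomputable def pa : PA A.M :=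
  letI := h.semiring
  letI := h.order
  have co : CanonicallyOrderedAdd A.M :=
    { exists_add_of_le := fun {a b} h1 => (h.le_iff a b).1 h1
      le_self_add := fun a b => (h.le_iff _ _).2 ⟨b, rfl⟩
      le_add_self := fun a b => (h.le_iff _ _).2 ⟨b, h.add_comm _ _⟩ }
  have cm : IsOrderedCancelAddMonoid A.M :=
    { add_le_add_left := fun a b h1 c => by
        obtain ⟨z, rfl⟩ := exists_add_of_le h1
        exact (h.le_iff _ _).2 ⟨z, by change a + z + c = a + c + z; ring⟩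
      le_of_add_le_add_left := fun a b c h1 => by
        obtain ⟨z, hz⟩ := exists_add_of_le h1
        refine (h.le_iff _ _).2 ⟨z, h.add_cancel _ _ a ?_⟩
        change c + a = b + z + a
        rw [_root_.add_comm c a, hz]; ring }
  have pos : ∀ a c b : A.M, a < b → 0 < c → c * a < c * b := by
    intro a c b h1 h2
    obtain ⟨z, rfl⟩ := (h.lt_iff _ _).1 h1
    obtain ⟨w, rfl⟩ := (h.lt_iff _ _).1 h2
    refine (h.lt_iff _ _).2 ⟨(w + 1) * z + w, ?_⟩
    change (0 + w + 1) * (a + z + 1) = (0 + w + 1) * a + ((w + 1) * z + w) + 1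
    ring
  { h.semiring, h.order with
    co := co
    so :=
      { cm with
        zero_le_one := zero_le
        exists_pair_ne := ⟨1, 0, by have := h.a1 A.zero; rwa [h.zero_add] at this⟩
        mul_lt_mul_of_pos_left := fun {c} hc {a b} h1 => pos a c b h1 hc
        mul_lt_mul_of_pos_right := fun {c} hc {a b} h1 => by
          have := pos a c b h1 hc
          rwa [_root_.mul_comm c, _root_.mul_comm c] at this }
    lt_succ := h.a8 }

end Ax

end Pool.Agent.Lib.MP_706ff3_lc
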