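import Pool.Agent.Lib.MP_706ff3_lc.Hier

/-!
Coding of finite sets by numbers, pigeonhole principle, regularity, primitive recursion.
-/

set_option autoImplicit false
set_option linter.unusedSectionVars false

namespace Pool.Agent.Lib.MP_706ff3_lc

open Classical

variable {M : Type} [PA M]

/-- `x` belongs to the finite set coded by `c`. -/
def mem (x c : M) : Prop :=
  ∃ k m n, c = pr k (pr m n) ∧ x < k ∧ ∃ q, n = (m * (x + 1) + 1) * q

theorem mem_lt {x c : M} (h : mem x c) : x < c := by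
  obtain ⟨k, m, n, rfl, h, -⟩ := h
  exact h.trans_le (le_pr_left _ _)

theorem mem_pr {x k m n : M} : mem x (pr k (pr m n)) ↔ x < k ∧ (m * (x + 1) + 1) ∣ n := by
  constructor
  · rintro ⟨k', m', n', h, h1, h2⟩
    simp only [pr_eq_iff] at h
    obtain ⟨rfl, rfl, rfl⟩ := h
    exact ⟨h1, h2⟩
  · rintro ⟨h1, h2⟩
    exact ⟨k, m, n, rfl, h1, h2⟩

theorem dvd_iff_bdd {a n : M} : a ∣ n ↔ ∃ q, q ≤ n ∧ n = a * q := by
  constructor
  · rintro ⟨q, rfl⟩
    rcases eq_or_ne a 0 with rfl | h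
    · exact ⟨0, by simp, by simp⟩
    · exact ⟨q, le_mul_of_one_le_left zero_le (one_le_of_ne_zero h), rfl⟩
  · rintro ⟨q, -, h⟩; exact ⟨q, h⟩

theorem dvd_of_dvd_add {a x y : M} (h : a ∣ x + y) (h' : a ∣ y) : a ∣ x := by
  obtain ⟨B, hB⟩ := h
  obtain ⟨A, rfl⟩ := h'
  rcases le_total A B with h1 | h1
  · obtain ⟨C, rfl⟩ := exists_add_of_le h1
    refine ⟨C, ?_⟩
    have : x + a * A = a * C + a * A := by rw [hB]; ring
    exact add_right_cancel this
  · have h2 : x + a * A ≤ 0 + a * A := by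
      rw [hB, zero_add]; exact mul_le_mul_right h1 a
    have : x = 0 := le_antisymm (le_of_add_le_add_right h2) zero_le
    rw [this]; exact dvd_zero a

theorem mod_coprime {d t i j c : M} (hd : ∀ e < t, (e + 1) ∣ d) (hi : i < t) (hj : j < t)
    (hij : i ≠ j) (h : (d * (i + 1) + 1) ∣ c * (d * (j + 1) + 1)) : (d * (i + 1) + 1) ∣ c := by
  have key : ∃ e, (e + 1) ∣ d ∧ (d * (i + 1) + 1) ∣ c * (e + 1) := by
    rcases lt_or_gt_of_ne hij with h1 | h1
    · obtain ⟨e, rfl⟩ := exists_add_of_le (succ_le_iff'.2 h1)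
      refine ⟨e, hd e (lt_of_le_of_lt le_add_self hj), ?_⟩
      refine dvd_of_dvd_add (y := (i + 1) * (c * (d * (i + 1 + e + 1) + 1))) ?_
        (Dvd.dvd.mul_left h _)
      exact ⟨c * (i + 1 + e + 1), by ring⟩
    · obtain ⟨e, rfl⟩ := exists_add_of_le (succ_le_iff'.2 h1)
      refine ⟨e, hd e (lt_of_le_of_lt le_add_self hi), ?_⟩
      refine dvd_of_dvd_add (y := (d * (j + 1 + e + 1) + 1) * (c * (j + 1))) ?_
        (Dvd.intro _ rfl)
      have : c * (e + 1) + (d * (j + 1 + e + 1) + 1) * (c * (j + 1))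
          = (j + 1 + e + 1) * (c * (d * (j + 1) + 1)) := by ring
      rw [this]
      exact Dvd.dvd.mul_left h _
  obtain ⟨e, ⟨d', hd'⟩, h2⟩ := key
  refine dvd_of_dvd_add (y := c * (e + 1) * (d' * (i + 1))) ?_ (Dvd.dvd.mul_right h2 _)
  exact ⟨c, by rw [hd']; ring⟩

theorem not_mod_dvd_one {d i : M} (hd : 0 < d) : ¬ (d * (i + 1) + 1) ∣ 1 := by
  rintro ⟨q, hq⟩
  have hq0 : q ≠ 0 := by rintro rfl; simp at hq
  have h1 : d * (i + 1) + 1 ≤ 1 := by
    calc d * (i + 1) + 1 ≤ (d * (i + 1) + 1) * q :=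
          le_mul_of_one_le_right zero_le (one_le_of_ne_zero hq0)
      _ = 1 := hq.symm
  have h2 : 0 < d * (i + 1) := mul_pos hd (lt_of_le_of_lt zero_le (lt_succ_self' i))
  have h3 : (0 : M) + 1 < d * (i + 1) + 1 := by gcongr
  rw [zero_add] at h3
  exact absurd h1 (not_le.2 h3)

theorem code_step {d t j n : M} (hd : ∀ e < t, (e + 1) ∣ d) {Y : M → Prop}
    (h : ∀ i < t, ((d * (i + 1) + 1) ∣ n ↔ i < j ∧ Y i)) :
    ∃ n' ≤ n * (d * (j + 1) + 1), ∀ i < t, ((d * (i + 1) + 1) ∣ n' ↔ i < j + 1 ∧ Y i) := by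
  by_cases hj : j < t ∧ Y j
  · refine ⟨_, le_rfl, fun i hi => ?_⟩
    rcases eq_or_ne i j with rfl | hij
    · exact iff_of_true (Dvd.intro_left _ rfl) ⟨lt_succ_self' i, hj.2⟩
    · rw [lt_succ_iff_lt_or_eq, or_iff_left hij, ← h i hi]
      exact ⟨mod_coprime hd hi hj.1 hij, fun h1 => Dvd.dvd.mul_right h1 _⟩
  · refine ⟨n, le_mul_of_one_le_right zero_le le_add_self, fun i hi => ?_⟩
    rw [h i hi, lt_succ_iff_lt_or_eq]
    constructor
    · rintro ⟨h1, h2⟩; exact ⟨Or.inl h1, h2⟩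
    · rintro ⟨h1 | rfl, h2⟩
      · exact ⟨h1, h2⟩
      · exact absurd ⟨hi, h2⟩ hj

variable {S : Set (M → Prop)} {α β : Type} [Cd M α] [Cd M β]

section Pre

variable [Pre S]

@[fun_prop] protected theorem Rec.dvd {f g : α → M} (hf : Rec S f) (hg : Rec S g) :
    Rec S (fun a => f a ∣ g a) :=
  Rec.of_iff (P := fun a => ∃ q, q ≤ g a ∧ g a = f a * q) (by fun_prop)
    (fun _ => dvd_iff_bdd.symm)

@[fun_prop] protected theorem Rec.mem {f g : α → M} (hf : Rec S f) (hg : Rec S g) :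
    Rec S (fun a => mem (f a) (g a)) := by
  refine Rec.of_iff (P := fun a => g a = pr (p1 (g a)) (pr (p1 (p2 (g a))) (p2 (p2 (g a)))) ∧
    f a < p1 (g a) ∧ (p1 (p2 (g a)) * (f a + 1) + 1) ∣ p2 (p2 (g a))) (by fun_prop) ?_
  intro a
  constructor
  · rintro ⟨h1, h2⟩; rw [h1]; exact mem_pr.2 h2
  · rintro ⟨k, m, n, h, h1, h2⟩
    rw [h]; simp only [p1_pr, p2_pr]; exact ⟨trivial, h1, h2⟩

@[fun_prop] protected theorem Rec.ball_mem {E : α → M} {Q : α → M → Prop} (hE : Rec S E)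
    (hQ : Rec S (fun p : α × M => Q p.1 p.2)) : Rec S (fun a => ∀ x, mem x (E a) → Q a x) :=
  Rec.of_iff (P := fun a => ∀ x < E a, mem x (E a) → Q a x) (by fun_prop)
    fun _ => ⟨fun h x hx => h x (mem_lt hx) hx, fun h x _ hx => h x hx⟩

@[fun_prop] protected theorem Rec.bex_mem {E : α → M} {Q : α → M → Prop} (hE : Rec S E)
    (hQ : Rec S (fun p : α × M => Q p.1 p.2)) : Rec S (fun a => ∃ x, mem x (E a) ∧ Q a x) :=
  (Rec.ball_mem (Q := fun a x => ¬ Q a x) hE hQ.not).not.of_iff (by simp)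

end Pre

section Good

variable [Good S]

@[fun_prop] protected theorem Sig1.ball_mem {E : α → M} {Q : α → M → Prop} (hE : Rec S E)
    (hQ : Sig1 S (fun p : α × M => Q p.1 p.2)) : Sig1 S (fun a => ∀ x, mem x (E a) → Q a x) :=
  Sig1.of_iff (P := fun a => ∀ x < E a, mem x (E a) → Q a x)
    (Sig1.ball hE (Sig1.imp (Rec.pi1 (by fun_prop)) hQ))
    fun _ => ⟨fun h x hx => h x (mem_lt hx) hx, fun h x _ hx => h x hx⟩

@[fun_prop] protected theorem Sig2.ball_mem {E : α → M} {Q : α → M → Prop} (hE : Rec S E)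
    (hQ : Sig2 S (fun p : α × M => Q p.1 p.2)) : Sig2 S (fun a => ∀ x, mem x (E a) → Q a x) :=
  Sig2.of_iff (P := fun a => ∀ x < E a, mem x (E a) → Q a x)
    (Sig2.ball hE (Sig2.imp_pi1 (Rec.pi1 (by fun_prop)) hQ))
    fun _ => ⟨fun h x hx => h x (mem_lt hx) hx, fun h x _ hx => h x hx⟩

theorem exists_modulus (S : Set (M → Prop)) [Good S] (t : M) : ∃ d : M, 0 < d ∧ ∀ e < t, (e + 1) ∣ d := by
  refine Sig1.ind (S := S) (P := fun t => ∃ d : M, 0 < d ∧ ∀ e < t, (e + 1) ∣ d)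
    (Sig1.exists (Rec.sig1 (by fun_prop))) ⟨1, one_pos, by simp⟩ ?_ t
  rintro t ⟨d, hd, h⟩
  refine ⟨d * (t + 1), mul_pos hd (lt_of_le_of_lt zero_le (lt_succ_self' t)), fun e he => ?_⟩
  rcases lt_succ_iff_lt_or_eq.1 he with h1 | rfl
  · exact Dvd.dvd.mul_right (h e h1) _
  · exact Dvd.intro_left _ rfl

theorem Rec.coded {Y : M → Prop} (hY : Rec S Y) (t : M) : ∃ c, ∀ x, mem x c ↔ x < t ∧ Y x := by
  obtain ⟨d, hd0, hd⟩ := exists_modulus S t
  have := Sig1.ind (S := S)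
    (P := fun j => ∃ n, ∀ i < t, ((d * (i + 1) + 1) ∣ n ↔ i < j ∧ Y i))
    (Sig1.exists (Rec.sig1 (by fun_prop)))
    ⟨1, fun i _ => iff_of_false (not_mod_dvd_one hd0) (by simp)⟩
    (by rintro j ⟨n, hn⟩; obtain ⟨n', -, h⟩ := code_step hd hn; exact ⟨n', h⟩) t
  obtain ⟨n, hn⟩ := this
  refine ⟨pr t (pr d n), fun x => ?_⟩
  rw [mem_pr]
  constructor
  · rintro ⟨h1, h2⟩; exact (hn x h1).1 h2
  · rintro ⟨h1, h2⟩; exact ⟨h1, (hn x h1).2 ⟨h1, h2⟩⟩

theorem Rec.coded_of_bdd {Y : M → Prop} (hY : Rec S Y) {t : M} (h : ∀ x, Y x → x < t) :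
    ∃ c, ∀ x, mem x c ↔ Y x := by
  obtain ⟨c, hc⟩ := hY.coded t
  exact ⟨c, fun x => by rw [hc]; exact ⟨fun h => h.2, fun h' => ⟨h x h', h'⟩⟩⟩

theorem exists_code_bound (S : Set (M → Prop)) [Good S] (t : M) : ∃ B : M, ∀ c, ∃ c' < B, ∀ x, mem x c' ↔ x < t ∧ mem x c := by
  obtain ⟨d, hd0, hd⟩ := exists_modulus S t
  have := Sig2.ind (S := S)
    (P := fun j => ∃ B, ∀ c, ∃ n ≤ B, ∀ i < t, ((d * (i + 1) + 1) ∣ n ↔ i < j ∧ mem i c))
    (Sig2.exists (Sig2.forall_pi1 (Rec.pi1 (by fun_prop))))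
    ⟨1, fun c => ⟨1, le_rfl, fun i _ => iff_of_false (not_mod_dvd_one hd0) (by simp)⟩⟩
    (by
      rintro j ⟨B, hB⟩
      refine ⟨B * (d * (j + 1) + 1), fun c => ?_⟩
      obtain ⟨n, hn, h⟩ := hB c
      obtain ⟨n', hn', h'⟩ := code_step hd h
      exact ⟨n', hn'.trans (by gcongr), h'⟩) t
  obtain ⟨B, hB⟩ := this
  refine ⟨pr t (pr d B) + 1, fun c => ?_⟩
  obtain ⟨n, hn, h⟩ := hB c
  refine ⟨pr t (pr d n), lt_succ_iff'.2 (pr_le_pr le_rfl (pr_le_pr le_rfl hn)), fun x => ?_⟩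
  rw [mem_pr]
  constructor
  · rintro ⟨h1, h2⟩; exact (h x h1).1 h2
  · rintro ⟨h1, h2⟩; exact ⟨h1, (h x h1).2 ⟨h1, h2⟩⟩

end Good

/-- The structure carries at least one good family. -/
class IM (M : Type) [PA M] : Prop where
  ex : ∃ S : Set (M → Prop), Good S

theorem IM.of_good (S : Set (M → Prop)) [h : Good S] : IM M := ⟨S, h⟩

/-- Regular sets: all initial segments are coded. -/
def Reg (G : M → Prop) : Prop := ∀ z, ∃ c, ∀ x, mem x c ↔ x < z ∧ G x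

/-- The least code of the initial segment of `G` below `z`. -/
noncomputable def res (G : M → Prop) (z : M) : M := mu fun c => ∀ x, mem x c ↔ x < z ∧ G x

/-- A bound closed under adjoining elements below `t`. -/
def ClosedB (t b : M) : Prop :=
  (∃ c < b, ∀ x, mem x c → x < 0) ∧ ∀ c < b, (∀ x, mem x c → x < t) → ∀ i < t,
    ∃ c' < b, (∀ x, mem x c' → x < t) ∧ ∀ x < t, (mem x c' ↔ mem x c ∨ x = i)

/-- A bound for the least codes of all coded subsets of `[0, t)`. -/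
noncomputable def bnd (t : M) : M := mu (ClosedB t)

theorem res_congr {G G' : M → Prop} {z : M} (h : ∀ x < z, G x ↔ G' x) : res G z = res G' z := by
  unfold res
  congr 1
  funext c
  refine propext (forall_congr' fun x => iff_congr Iff.rfl ?_)
  exact ⟨fun h1 => ⟨h1.1, (h x h1.1).1 h1.2⟩, fun h1 => ⟨h1.1, (h x h1.1).2 h1.2⟩⟩

theorem Reg.congr {G G' : M → Prop} (h : Reg G) (e : ∀ x, G x ↔ G' x) : Reg G' := by
  have : G = G' := funext fun a => propext (e a)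
  exact this ▸ h

section Good

variable [Good S]

theorem Rec.reg {Y : M → Prop} (hY : Rec S Y) : Reg Y := hY.coded

theorem closedB_exists (S : Set (M → Prop)) [Good S] (t : M) : ∃ b, ClosedB t b := by
  obtain ⟨B, hB⟩ := exists_code_bound S t
  refine ⟨B, ?_, fun c _ _ i hi => ?_⟩
  · obtain ⟨c, hc⟩ := (Rec.const (S := S) (α := M) False).coded 0
    obtain ⟨c', h1, h2⟩ := hB c
    exact ⟨c', h1, fun x hx => absurd ((hc x).1 ((h2 x).1 hx).2).2 id⟩
  · obtain ⟨e, he⟩ := Rec.coded (S := S) (Y := fun x => mem x c ∨ x = i) (by fun_prop) t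
    obtain ⟨c', h1, h2⟩ := hB e
    refine ⟨c', h1, fun x hx => ((h2 x).1 hx).1, fun x hx => ?_⟩
    rw [h2, he]; simp [hx]

theorem closedB_complete (S : Set (M → Prop)) [Good S] {t b : M} (h : ClosedB t b) (c : M) :
    ∃ c' < b, ∀ x, mem x c' ↔ x < t ∧ mem x c := by
  have := Rec.ind (S := S) (P := fun j => ∃ c' < b, (∀ x, mem x c' → x < t) ∧
      ∀ x < t, (mem x c' ↔ x < j ∧ mem x c)) (by fun_prop) ?_ ?_ t
  · obtain ⟨c', h1, h2, h3⟩ := this
    exact ⟨c', h1, fun x => ⟨fun hx => (h3 x (h2 x hx)).1 hx, fun hx => (h3 x hx.1).2 hx⟩⟩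
  · obtain ⟨c', h1, h2⟩ := h.1
    exact ⟨c', h1, fun x hx => absurd (h2 x hx) (by simp),
      fun x _ => iff_of_false (fun hx => absurd (h2 x hx) (by simp)) (by simp)⟩
  · rintro j ⟨c', h1, h2, h3⟩
    by_cases hj : j < t ∧ mem j c
    · obtain ⟨c'', h4, h5, h6⟩ := h.2 c' h1 h2 j hj.1
      refine ⟨c'', h4, h5, fun x hx => ?_⟩
      rw [h6 x hx, h3 x hx, lt_succ_iff_lt_or_eq]
      constructor
      · rintro (⟨h7, h8⟩ | rfl)
        · exact ⟨Or.inl h7, h8⟩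
        · exact ⟨Or.inr rfl, hj.2⟩
      · rintro ⟨h7 | h7, h8⟩
        · exact Or.inl ⟨h7, h8⟩
        · exact Or.inr h7
    · refine ⟨c', h1, h2, fun x hx => ?_⟩
      rw [h3 x hx, lt_succ_iff_lt_or_eq]
      constructor
      · rintro ⟨h7, h8⟩; exact ⟨Or.inl h7, h8⟩
      · rintro ⟨h7 | rfl, h8⟩
        · exact ⟨h7, h8⟩
        · exact absurd ⟨hx, h8⟩ hj

theorem rec_closedB : Rec S (fun p : M × M => ClosedB p.1 p.2) := by
  unfold ClosedB; fun_prop

@[fun_prop] protected theorem Rec.bnd {t : α → M} (ht : Rec S t) : Rec S (fun a => bnd (t a)) :=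
  (Rec.mu (S := S) (P := fun t b : M => ClosedB t b) rec_closedB (closedB_exists S)).comp ht

@[fun_prop] protected theorem Rec.res {P : α → M → Prop} {t : α → M}
    (hP : Rec S (fun p : α × M => P p.1 p.2)) (ht : Rec S t) :
    Rec S (fun a => res (P a) (t a)) := by
  refine Rec.mu (S := S) (P := fun a c => ∀ x, mem x c ↔ x < t a ∧ P a x) ?_ ?_
  · refine Rec.of_iff (P := fun p : α × M => (∀ x, mem x p.2 → x < t p.1 ∧ P p.1 x) ∧
      ∀ x < t p.1, P p.1 x → mem x p.2) (by fun_prop) ?_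
    intro p
    exact ⟨fun h x => ⟨h.1 x, fun h' => h.2 x h'.1 h'.2⟩,
      fun h => ⟨fun x => (h x).1, fun x h1 h2 => (h x).2 ⟨h1, h2⟩⟩⟩
  · intro a
    exact Rec.coded (S := S) (Y := P a) (by fun_prop) (t a)

end Good

section IM

variable [IM M]

theorem res_spec {G : M → Prop} {z : M} (h : ∃ c, ∀ x, mem x c ↔ x < z ∧ G x) :
    (∀ x, mem x (res G z) ↔ x < z ∧ G x) ∧ ∀ c < res G z, ¬ ∀ x, mem x c ↔ x < z ∧ G x := by
  obtain ⟨S, hS⟩ := IM.ex (M := M)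
  obtain ⟨c0, hc0⟩ := h
  refine Sig2.mu_spec (S := S) (P := fun c => ∀ x, mem x c ↔ x < z ∧ G x) ?_ ⟨c0, hc0⟩
  have : Sig2 S (fun c => ∀ x, mem x c ↔ mem x c0) := Sig2.forall_pi1 (Rec.pi1 (by fun_prop))
  exact this.of_iff (by simp [hc0])

theorem Reg.mem_res {G : M → Prop} (h : Reg G) {x z : M} : mem x (res G z) ↔ x < z ∧ G x :=
  (res_spec (h z)).1 x

theorem reg_mem (c : M) : Reg (fun x => mem x c) := by
  obtain ⟨S, hS⟩ := IM.ex (M := M)
  exact Rec.reg (S := S) (by fun_prop)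

theorem mem_res_mem {x z c : M} : mem x (res (fun y => mem y c) z) ↔ x < z ∧ mem x c :=
  (reg_mem c).mem_res

theorem Reg.res_res {G : M → Prop} (h : Reg G) {z z' : M} (hz : z' ≤ z) :
    res (fun x => mem x (res G z)) z' = res G z' :=
  res_congr fun x hx => by rw [h.mem_res]; exact ⟨fun h => h.2, fun h => ⟨hx.trans_le hz, h⟩⟩

theorem bnd_spec (t c : M) : ∃ c' < bnd t, ∀ x, mem x c' ↔ x < t ∧ mem x c := by
  obtain ⟨S, hS⟩ := IM.ex (M := M)
  exact closedB_complete S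
    (Sig2.mu_spec (S := S) (Rec.sig2 (rec_closedB.comp (g := fun b : M => (t, b)) (by fun_prop)))
      (closedB_exists S t)).1 c

theorem Reg.res_lt_bnd {G : M → Prop} (h : Reg G) (z : M) : res G z < bnd z := by
  obtain ⟨c', h1, h2⟩ := bnd_spec z (res G z)
  refine lt_of_le_of_lt (not_lt.1 fun h3 => (res_spec (h z)).2 c' h3 fun x => ?_) h1
  rw [h2, h.mem_res]; tauto

theorem Reg.and {G H : M → Prop} (hG : Reg G) (hH : Reg H) : Reg (fun x => G x ∧ H x) := by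
  obtain ⟨S, hS⟩ := IM.ex (M := M)
  intro z
  obtain ⟨c, hc⟩ := Rec.coded (S := S) (Y := fun x => mem x (res G z) ∧ mem x (res H z))
    (by fun_prop) z
  exact ⟨c, fun x => by rw [hc, hG.mem_res, hH.mem_res]; tauto⟩

theorem Reg.not {G : M → Prop} (hG : Reg G) : Reg (fun x => ¬ G x) := by
  obtain ⟨S, hS⟩ := IM.ex (M := M)
  intro z
  obtain ⟨c, hc⟩ := Rec.coded (S := S) (Y := fun x => ¬ mem x (res G z)) (by fun_prop) z
  exact ⟨c, fun x => by rw [hc, hG.mem_res]; tauto⟩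

theorem Reg.or {G H : M → Prop} (hG : Reg G) (hH : Reg H) : Reg (fun x => G x ∨ H x) :=
  (hG.not.and hH.not).not.congr (by intro x; tauto)

theorem reg_lt (z : M) : Reg (fun x => x < z) := by
  obtain ⟨S, hS⟩ := IM.ex (M := M)
  exact Rec.reg (S := S) (by fun_prop)

theorem reg_le (z : M) : Reg (fun x => z ≤ x) := by
  obtain ⟨S, hS⟩ := IM.ex (M := M)
  exact Rec.reg (S := S) (by fun_prop)

theorem php_code (r : M) : ∀ q c : M, (∀ i < q, ∃ y < r, mem (pr i y) c) →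
    (∀ i < q, ∀ j < q, ∀ y < r, mem (pr i y) c → mem (pr j y) c → i = j) → q ≤ r := by
  obtain ⟨S, hS⟩ := IM.ex (M := M)
  refine Pi1.ind (S := S) (P := fun r => ∀ q c : M, (∀ i < q, ∃ y < r, mem (pr i y) c) →
    (∀ i < q, ∀ j < q, ∀ y < r, mem (pr i y) c → mem (pr j y) c → i = j) → q ≤ r)
    (Pi1.forall (Pi1.forall (Rec.pi1 (by fun_prop)))) ?_ ?_ r
  · intro q c h _
    by_contra hq
    obtain ⟨y, hy, -⟩ := h 0 (not_le.1 hq)
    simp at hy
  · intro r ih q c h1 h2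
    rcases zero_or_succ q with rfl | ⟨q, rfl⟩
    · exact zero_le
    by_cases h0 : ∃ i0 < q + 1, mem (pr i0 r) c
    · obtain ⟨i0, hi0, hr⟩ := h0
      obtain ⟨c', hc'⟩ := Rec.coded (S := S) (Y := fun u => (p1 u ≠ i0 ∧ mem u c) ∨
        (p1 u = i0 ∧ mem (pr q (p2 u)) c)) (by fun_prop) (pr q r)
      have hlt : ∀ i < q + 1, i ≠ i0 → ∃ y < r, mem (pr i y) c := by
        intro i hi hne
        obtain ⟨y, hy, h3⟩ := h1 i hi
        rcases lt_succ_iff_lt_or_eq.1 hy with h4 | rfl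
        · exact ⟨y, h4, h3⟩
        · exact absurd (h2 i hi i0 hi0 y hy h3 hr) hne
      have hq : ∀ i < q, i < q + 1 := fun i hi => hi.trans (lt_succ_self' q)
      have hr' : ∀ y < r, y < r + 1 := fun i hi => hi.trans (lt_succ_self' r)
      have := ih q c' (by
        intro i hi
        by_cases h3 : i = i0
        · obtain ⟨y, hy, h4⟩ := hlt q (lt_succ_self' q) (h3 ▸ hi.ne')
          exact ⟨y, hy, (hc' _).2 ⟨pr_lt_pr hi hy.le, Or.inr (by simpa [h3] using h4)⟩⟩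
        · obtain ⟨y, hy, h4⟩ := hlt i (hq i hi) h3
          exact ⟨y, hy, (hc' _).2 ⟨pr_lt_pr hi hy.le, Or.inl (by simpa [h3] using h4)⟩⟩) (by
        intro i hi j hj y hy h3 h4
        rw [hc'] at h3 h4
        simp only [p1_pr, p2_pr] at h3 h4
        rcases h3.2 with ⟨h5, h6⟩ | ⟨h5, h6⟩ <;> rcases h4.2 with ⟨h7, h8⟩ | ⟨h7, h8⟩
        · exact h2 i (hq i hi) j (hq j hj) y (hr' y hy) h6 h8
        · exact absurd (h2 i (hq i hi) q (lt_succ_self' q) y (hr' y hy) h6 h8) hi.ne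
        · exact absurd (h2 j (hq j hj) q (lt_succ_self' q) y (hr' y hy) h8 h6) hj.ne
        · rw [h5, h7])
      gcongr
    · refine (ih (q + 1) c ?_ ?_).trans (lt_succ_self' r).le
      · intro i hi
        obtain ⟨y, hy, h3⟩ := h1 i hi
        rcases lt_succ_iff_lt_or_eq.1 hy with h4 | rfl
        · exact ⟨y, h4, h3⟩
        · exact absurd ⟨i, hi, h3⟩ h0
      · intro i hi j hj y hy
        exact h2 i hi j hj y (hy.trans (lt_succ_self' r))

end IM

section Good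

variable [IM M] [Good S]

theorem Rec.php {R : M → M → Prop} (hR : Rec S (fun p : M × M => R p.1 p.2)) {q r : M}
    (h1 : ∀ i < q, ∃ y < r, R i y) (h2 : ∀ i < q, ∀ j < q, ∀ y < r, R i y → R j y → i = j) :
    q ≤ r := by
  obtain ⟨c, hc⟩ := Rec.coded (S := S) (Y := fun u => R (p1 u) (p2 u)) (by fun_prop) (pr q r)
  refine php_code r q c ?_ ?_
  · intro i hi
    obtain ⟨y, hy, h⟩ := h1 i hi
    exact ⟨y, hy, (hc _).2 ⟨pr_lt_pr hi hy.le, by simpa using h⟩⟩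
  · intro i hi j hj y hy h3 h4
    exact h2 i hi j hj y hy (by simpa using ((hc _).1 h3).2) (by simpa using ((hc _).1 h4).2)

theorem Sig2.reg {P : M → Prop} (hP : Sig2 S P) : Reg P := by
  intro w
  set N : M → Prop := fun j => ∃ c, ((∀ i < j, ∃ y < w, mem (pr i y) c) ∧
    (∀ i < j, ∀ i' < j, ∀ y < w, mem (pr i y) c → mem (pr i' y) c → i = i')) ∧
    ∀ u, mem u c → P (p2 u) with hN
  have hN2 : Sig2 S N := Sig2.exists (Sig2.and (Rec.sig2 (by fun_prop))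
    (Sig2.ball_mem (by fun_prop) (hP.comp (by fun_prop))))
  have h0 : N 0 := by
    obtain ⟨c, hc⟩ := (Rec.const (S := S) (α := M) False).coded 0
    exact ⟨c, ⟨by simp, by simp⟩, fun u hu => absurd ((hc u).1 hu).2 id⟩
  have h1 : ¬ N (w + 1) := by
    rintro ⟨c, ⟨h1, h2⟩, -⟩
    exact absurd (php_code w (w + 1) c h1 h2) (not_le.2 (lt_succ_self' w))
  obtain ⟨j, ⟨c, ⟨h2, h3⟩, h4⟩, h5⟩ : ∃ j, N j ∧ ¬ N (j + 1) := by
    by_contra hn
    push Not at hn
    exact h1 (hN2.ind h0 hn _)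
  obtain ⟨e, he⟩ := Rec.coded (S := S) (Y := fun y => ∃ i < j, mem (pr i y) c) (by fun_prop) w
  refine ⟨e, fun y => ?_⟩
  rw [he]
  refine and_congr_right fun hy => ⟨?_, fun hP' => ?_⟩
  · rintro ⟨i, -, hi⟩; simpa using h4 _ hi
  · by_contra hn
    obtain ⟨c', hc'⟩ := Rec.coded_of_bdd (S := S)
      (Y := fun u => (p1 u < j ∧ mem u c) ∨ u = pr j y) (by fun_prop) (t := c + pr j y + 1) (by
        rintro u (⟨-, hu⟩ | rfl)
        · exact (mem_lt hu).trans_le (le_self_add.trans le_self_add)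
        · exact lt_succ_iff'.2 le_add_self)
    refine h5 ⟨c', ⟨fun i hi => ?_, fun i hi i' hi' z hz h6 h7 => ?_⟩, fun u hu => ?_⟩
    · rcases lt_succ_iff_lt_or_eq.1 hi with h6 | rfl
      · obtain ⟨z, hz, h7⟩ := h2 i h6
        exact ⟨z, hz, (hc' _).2 (Or.inl ⟨by simpa using h6, h7⟩)⟩
      · exact ⟨y, hy, (hc' _).2 (Or.inr rfl)⟩
    · rw [hc'] at h6 h7
      simp only [p1_pr, pr_eq_iff] at h6 h7
      rcases h6 with ⟨h6, h8⟩ | ⟨rfl, rfl⟩ <;> rcases h7 with ⟨h7, h9⟩ | ⟨h7, h9⟩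
      · exact h3 i h6 i' h7 z hz h8 h9
      · exact absurd ⟨i, h6, h9 ▸ h8⟩ hn
      · exact absurd ⟨i', h7, h9⟩ hn
      · exact h7.symm
    · rcases (hc' _).1 hu with ⟨-, h6⟩ | rfl
      · exact h4 u h6
      · simpa using hP'

/-- Bounded choice for `Sig2` relations. -/
theorem Sig2.bchoice {R : M → M → Prop} (h : Sig2 S (fun p : M × M => R p.1 p.2)) {I : M}
    (tot : ∀ i, mem i I → ∃ y, R i y) : ∃ f : M → M, Rec S f ∧ ∀ i, mem i I → R i (f i) := by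
  obtain ⟨b, hb⟩ := Sig2.coll (S := S) (R := fun i y => mem i I → R i y) (a := I)
    (Sig2.imp_pi1 (Rec.pi1 (by fun_prop)) h) (by
      intro i _
      by_cases hi : mem i I
      · obtain ⟨y, hy⟩ := tot i hi; exact ⟨y, fun _ => hy⟩
      · exact ⟨0, fun h => absurd h hi⟩)
  obtain ⟨c, hc⟩ := Sig2.reg (S := S) (P := fun u => R (p1 u) (p2 u))
    (h.comp (g := fun u : M => (p1 u, p2 u)) (by fun_prop)) (pr I b)
  obtain ⟨f, hf, h1⟩ := Rec.skolem (S := S) (P := fun i y : M => mem i I → mem (pr i y) c)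
    (by fun_prop) (by
      intro i
      by_cases hi : mem i I
      · obtain ⟨y, hy, h2⟩ := hb i (mem_lt hi)
        exact ⟨y, fun _ => (hc _).2 ⟨pr_lt_pr (mem_lt hi) hy.le, by simpa using h2 hi⟩⟩
      · exact ⟨0, fun h => absurd h hi⟩)
  exact ⟨f, hf, fun i hi => by simpa using ((hc _).1 (h1 i hi)).2⟩

/-- Primitive recursion. -/
theorem Rec.iter {h : M → M} (hh : Rec S h) (a : M) :
    ∃ it : M → M, Rec S it ∧ it 0 = a ∧ ∀ n, it (n + 1) = h (it n) := by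
  set Ap : M → M → Prop := fun c n => (∀ i ≤ n, ∃ y < c, mem (pr i y) c) ∧
    (∀ y < c, mem (pr 0 y) c → y = a) ∧
    ∀ i < n, ∀ y < c, ∀ y' < c, mem (pr i y) c → mem (pr (i + 1) y') c → y' = h y with hAp
  have lt2 : ∀ {i y c : M}, mem (pr i y) c → y < c := fun h => (le_pr_right _ _).trans_lt (mem_lt h)
  have uniq : ∀ c n c' n', Ap c n → Ap c' n' → ∀ i, ∀ y < c, ∀ y' < c', i ≤ n → i ≤ n' →
      mem (pr i y) c → mem (pr i y') c' → y = y' := by
    intro c n c' n' h1 h2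
    refine Rec.ind (S := S) (by fun_prop) ?_ ?_
    · intro y hy y' hy' _ _ h3 h4
      rw [h1.2.1 y hy h3, h2.2.1 y' hy' h4]
    · intro i ih y hy y' hy' h3 h4 h5 h6
      have h7 := succ_le_iff'.1 h3
      have h8 := succ_le_iff'.1 h4
      obtain ⟨z, hz, h9⟩ := h1.1 i h7.le
      obtain ⟨z', hz', h10⟩ := h2.1 i h8.le
      rw [h1.2.2 i h7 z hz y hy h9 h5, h2.2.2 i h8 z' hz' y' hy' h10 h6,
        ih z hz z' hz' h7.le h8.le h9 h10]
  have ex : ∀ n, ∃ c, Ap c n := by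
    refine Sig1.ind (S := S) (Sig1.exists (Rec.sig1 (by simp only [hAp]; fun_prop))) ?_ ?_
    · obtain ⟨c, hc⟩ := Rec.coded_of_bdd (S := S) (Y := fun u => u = pr 0 a) (by fun_prop)
        (t := pr 0 a + 1) (by rintro u rfl; exact lt_succ_self' _)
      refine ⟨c, fun i hi => ⟨a, lt2 ((hc _).2 rfl), (hc _).2 (by simpa using hi)⟩,
        fun y _ hy => by simpa using (hc _).1 hy, by simp⟩
    · rintro n ⟨c, h1⟩
      obtain ⟨y0, hy0, h2⟩ := h1.1 n le_rfl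
      obtain ⟨c', hc'⟩ := Rec.coded_of_bdd (S := S)
        (Y := fun u => (p1 u ≤ n ∧ mem u c) ∨ u = pr (n + 1) (h y0)) (by fun_prop)
        (t := c + pr (n + 1) (h y0) + 1) (by
          rintro u (⟨-, hu⟩ | rfl)
          · exact (mem_lt hu).trans_le (le_self_add.trans le_self_add)
          · exact lt_succ_iff'.2 le_add_self)
      refine ⟨c', fun i hi => ?_, fun y _ hy => ?_, fun i hi y _ y' _ h3 h4 => ?_⟩
      · rcases hi.lt_or_eq with h3 | rfl
        · obtain ⟨y, -, h4⟩ := h1.1 i (lt_succ_iff'.1 h3)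
          have h5 := (hc' (pr i y)).2 (Or.inl ⟨by simpa using lt_succ_iff'.1 h3, h4⟩)
          exact ⟨y, lt2 h5, h5⟩
        · have h5 := (hc' _).2 (Or.inr rfl)
          exact ⟨_, lt2 h5, h5⟩
      · rcases (hc' _).1 hy with ⟨-, h3⟩ | h3
        · exact h1.2.1 y (lt2 h3) h3
        · exact absurd (pr_inj h3).1 (lt_of_le_of_lt zero_le (lt_succ_self' n)).ne
      · rw [hc'] at h3 h4
        simp only [p1_pr, pr_eq_iff] at h3 h4
        rcases h3 with ⟨h5, h6⟩ | ⟨h5, -⟩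
        · rcases h4 with ⟨h7, h8⟩ | ⟨h7, h8⟩
          · exact h1.2.2 i (succ_le_iff'.1 h7) y (lt2 h6) y' (lt2 h8) h6 h8
          · have h9 : i = n := add_right_cancel h7
            subst h9
            rw [h8, uniq c i c i h1 h1 i y (lt2 h6) y0 hy0 le_rfl le_rfl h6 h2]
        · exact absurd h5 hi.ne
  obtain ⟨it, hit, h1⟩ := Sig1.skolem (S := S)
    (P := fun n y : M => ∃ c, Ap c n ∧ mem (pr n y) c)
    (Sig1.exists (Rec.sig1 (by simp only [hAp]; fun_prop))) (by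
      intro n
      obtain ⟨c, hc⟩ := ex n
      obtain ⟨y, -, hy⟩ := hc.1 n le_rfl
      exact ⟨y, c, hc, hy⟩)
  refine ⟨it, hit, ?_, fun n => ?_⟩
  · obtain ⟨c, h2, h3⟩ := h1 0
    exact h2.2.1 _ (lt2 h3) h3
  · obtain ⟨c, h2, h3⟩ := h1 (n + 1)
    obtain ⟨c', h4, h5⟩ := h1 n
    obtain ⟨y, hy, h6⟩ := h2.1 n (lt_succ_self' n).le
    rw [h2.2.2 n (lt_succ_self' n) y hy _ (lt2 h3) h6 h3,
      uniq c (n + 1) c' n h2 h4 n y hy _ (lt2 h5) (lt_succ_self' n).le le_rfl h6 h5]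

end Good

end Pool.Agent.Lib.MP_706ff3_lc
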