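import Pool.Agent.Lib.MP_706ff3_lc.Coding

/-!
Extensions `S[G]`, unions of chains, generic sequences and closure under a problem.
-/

set_option autoImplicit false
set_option linter.unusedSectionVars false

namespace Pool.Agent.Lib.MP_706ff3_lc

open Classical

variable {M : Type} [PA M] [IM M]

/-- Normal form of predicates that are existential over `S` and `G`. -/
def NF1 (S : Set (M → Prop)) (G : M → Prop) {α : Type} [Cd M α] (P : α → Prop) : Prop :=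
  ∃ Q : α × M × M → Prop, Rec S Q ∧ ∀ a, P a ↔ ∃ z, Q (a, z, res G z)

/-- `G` can be adjoined to `S` preserving the least number principle. -/
structure GoodExt (S : Set (M → Prop)) (G : M → Prop) : Prop where
  reg : Reg G
  least : ∀ Q : M × M × M × M → Prop, Rec S Q → ∀ x, (∃ y, ∀ z, Q (x, y, z, res G z)) →
    ∃ x0, (∃ y, ∀ z, Q (x0, y, z, res G z)) ∧ ∀ x' < x0, ¬ ∃ y, ∀ z, Q (x', y, z, res G z)

/-- The sets recursive in `S` and `G`. -/
def ext (S : Set (M → Prop)) (G : M → Prop) : Set (M → Prop) :=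
  {Y | NF1 S G Y ∧ NF1 S G (fun x => ¬ Y x)}

variable {S : Set (M → Prop)} {G : M → Prop} {α β : Type} [Cd M α] [Cd M β] [Good S]

theorem NF1.of_iff {P Q : α → Prop} (h : NF1 S G P) (e : ∀ a, P a ↔ Q a) : NF1 S G Q := by
  have : P = Q := funext fun a => propext (e a)
  exact this ▸ h

theorem Rec.nf1 {P : α → Prop} (h : Rec S P) : NF1 S G P :=
  ⟨fun p => P p.1, by fun_prop, by simp⟩

theorem NF1.comp {P : β → Prop} {g : α → β} (h : NF1 S G P) (hg : Rec S g) :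
    NF1 S G (fun a => P (g a)) := by
  obtain ⟨Q, hQ, e⟩ := h
  exact ⟨fun p => Q (g p.1, p.2), by fun_prop, fun a => e _⟩

theorem NF1.mono_form (hG : Reg G) {P : α → Prop} (h : NF1 S G P) :
    ∃ Q : α × M × M → Prop, Rec S Q ∧
      (∀ a z z', z ≤ z' → Q (a, z, res G z) → Q (a, z', res G z')) ∧
      ∀ a, P a ↔ ∃ z, Q (a, z, res G z) := by
  obtain ⟨Q, hQ, e⟩ := h
  have key : ∀ a z, (∃ z' ≤ z, Q (a, z', res (fun x => mem x (res G z)) z')) ↔
      ∃ z' ≤ z, Q (a, z', res G z') := by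
    intro a z
    refine exists_congr fun z' => and_congr_right fun hz => ?_
    rw [hG.res_res hz]
  refine ⟨fun p => ∃ z' ≤ p.2.1, Q (p.1, z', res (fun x => mem x p.2.2) z'), by fun_prop, ?_, ?_⟩
  · intro a z z' hz
    simp only [key]
    rintro ⟨w, hw, h⟩
    exact ⟨w, hw.trans hz, h⟩
  · intro a
    simp only [key, e]
    exact ⟨fun ⟨z, hz⟩ => ⟨z, z, le_rfl, hz⟩, fun ⟨_, z, _, hz⟩ => ⟨z, hz⟩⟩

theorem NF1.or {P Q : α → Prop} (h : NF1 S G P) (h' : NF1 S G Q) :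
    NF1 S G (fun a => P a ∨ Q a) := by
  obtain ⟨R, hR, e⟩ := h
  obtain ⟨R', hR', e'⟩ := h'
  exact ⟨fun p => R p ∨ R' p, by fun_prop, by simp [e, e', exists_or]⟩

theorem NF1.and (hG : Reg G) {P Q : α → Prop} (h : NF1 S G P) (h' : NF1 S G Q) :
    NF1 S G (fun a => P a ∧ Q a) := by
  obtain ⟨R, hR, m, e⟩ := h.mono_form hG
  obtain ⟨R', hR', m', e'⟩ := h'.mono_form hG
  refine ⟨fun p => R p ∧ R' p, by fun_prop, fun a => ?_⟩
  dsimp only
  rw [e, e']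
  constructor
  · rintro ⟨⟨z, hz⟩, ⟨z', hz'⟩⟩
    exact ⟨max z z', m _ _ _ (le_max_left _ _) hz, m' _ _ _ (le_max_right _ _) hz'⟩
  · rintro ⟨z, h1, h2⟩; exact ⟨⟨z, h1⟩, ⟨z, h2⟩⟩

theorem NF1.exists (hG : Reg G) {Q : α → M → Prop}
    (h : NF1 S G (fun p : α × M => Q p.1 p.2)) : NF1 S G (fun a => ∃ x, Q a x) := by
  obtain ⟨R, hR, m, e⟩ := h.mono_form hG
  refine ⟨fun p => ∃ x ≤ p.2.1, R ((p.1, x), p.2), by fun_prop, fun a => ?_⟩
  constructor
  · rintro ⟨x, hx⟩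
    obtain ⟨z, hz⟩ := (e (a, x)).1 hx
    exact ⟨max x z, x, le_max_left _ _, m _ _ _ (le_max_right _ _) hz⟩
  · rintro ⟨z, x, -, h⟩
    exact ⟨x, (e (a, x)).2 ⟨z, h⟩⟩

theorem NF1.ind (hG : GoodExt S G) {P : M → Prop} (h : NF1 S G P) (h0 : P 0)
    (hs : ∀ x, P x → P (x + 1)) : ∀ x, P x := by
  obtain ⟨R, hR, e⟩ := h
  intro x
  by_contra hx
  obtain ⟨x0, h1, h2⟩ := hG.least (fun p => ¬ R (p.1, p.2.2)) (by fun_prop) x
    ⟨0, by simpa [e] using hx⟩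
  have h1' : ¬ P x0 := by simpa [e] using h1
  rcases zero_or_succ x0 with rfl | ⟨y, rfl⟩
  · exact h1' h0
  · refine h1' (hs y ?_)
    have := h2 y (lt_succ_self' y)
    simpa [e] using this

theorem NF1.ball (hG : GoodExt S G) {t : α → M} {Q : α → M → Prop} (ht : Rec S t)
    (h : NF1 S G (fun p : α × M => Q p.1 p.2)) : NF1 S G (fun a => ∀ x < t a, Q a x) := by
  obtain ⟨R, hR, m, e⟩ := h.mono_form hG.reg
  refine ⟨fun p => ∀ x < t p.1, R ((p.1, x), p.2), by fun_prop, fun a => ?_⟩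
  constructor
  · intro h
    have := NF1.ind hG (P := fun j => ∃ w, j ≤ t a → ∀ x < j, R ((a, x), w, res G w))
      ⟨fun p => p.1 ≤ t a → ∀ x < p.1, R ((a, x), p.2), by fun_prop, fun _ => Iff.rfl⟩
      ⟨0, by simp⟩ (by
        rintro j ⟨w, hw⟩
        by_cases hj : j < t a
        · obtain ⟨z, hz⟩ := (e (a, j)).1 (h j hj)
          refine ⟨max w z, fun _ x hx => ?_⟩
          rcases lt_succ_iff_lt_or_eq.1 hx with h1 | rfl
          · exact m _ _ _ (le_max_left _ _) (hw hj.le x h1)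
          · exact m _ _ _ (le_max_right _ _) hz
        · exact ⟨0, fun h1 => absurd (succ_le_iff'.1 h1) hj⟩) (t a)
    obtain ⟨w, hw⟩ := this
    exact ⟨w, hw le_rfl⟩
  · rintro ⟨z, h⟩ x hx
    exact (e (a, x)).2 ⟨z, h x hx⟩

theorem subset_ext : S ⊆ ext S G := fun _ h =>
  ⟨(rec_iff_mem.2 h).nf1, (rec_iff_mem.2 h).not.nf1⟩

theorem self_mem_ext (hG : Reg G) : G ∈ ext S G := by
  refine ⟨⟨fun p => p.1 < p.2.1 ∧ mem p.1 p.2.2, by fun_prop, fun x => ?_⟩,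
    ⟨fun p => p.1 < p.2.1 ∧ ¬ mem p.1 p.2.2, by fun_prop, fun x => ?_⟩⟩
  · simp only [hG.mem_res]
    exact ⟨fun h => ⟨x + 1, lt_succ_self' x, lt_succ_self' x, h⟩, fun ⟨_, h⟩ => h.2.2⟩
  · simp only [hG.mem_res]
    exact ⟨fun h => ⟨x + 1, lt_succ_self' x, fun h' => h h'.2⟩, fun ⟨_, h⟩ h' => h.2 ⟨h.1, h'⟩⟩

theorem GoodExt.good (hG : GoodExt S G) : Good (ext S G) where
  basic := fun hf _ hQ => ⟨hQ.1.comp (rec_basic hf), hQ.2.comp (rec_basic hf)⟩
  lt := subset_ext Pre.lt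
  nand := fun hP hQ => ⟨(hP.2.or hQ.2).of_iff (by intro a; tauto),
    (hP.1.and hG.reg hQ.1).of_iff (by intro a; tauto)⟩
  ball := by
    intro Q hQ
    refine ⟨NF1.ball hG (by fun_prop) (hQ.1.comp (by fun_prop)), ?_⟩
    have : NF1 S G (fun u : M => ∃ x, x < p2 u ∧ ¬ Q (pr (p1 u) x)) :=
      NF1.exists hG.reg (NF1.and hG.reg (Rec.nf1 (by fun_prop))
        (hQ.2.comp (g := fun p : M × M => pr (p1 p.1) p.2) (by fun_prop)))
    exact this.of_iff (by simp)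
  delta := by
    intro P Q hP hQ h
    refine ⟨NF1.exists hG.reg (hP.1.comp (by fun_prop)), ?_⟩
    have : NF1 S G (fun x : M => ∃ y, ¬ Q (pr x y)) :=
      NF1.exists hG.reg (hQ.2.comp (g := fun p : M × M => pr p.1 p.2) (by fun_prop))
    exact this.of_iff (by intro x; dsimp only; rw [h]; simp)
  least := by
    intro Q hQ x hx
    have : NF1 S G (fun p : M × M => ∃ z, ¬ Q (pr p.1 (pr p.2 z))) :=
      NF1.exists hG.reg (hQ.2.comp (g := fun p : (M × M) × M => pr p.1.1 (pr p.1.2 p.2))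
        (by fun_prop))
    obtain ⟨R, hR, e⟩ := this
    have e' : ∀ x y, (∀ z, Q (pr x (pr y z))) ↔ ∀ z, ¬ R ((x, y), z, res G z) := by
      intro x y
      have := not_congr (e (x, y))
      simpa using this
    simp only [e'] at hx ⊢
    exact hG.least (fun p => ¬ R ((p.1, p.2.1), p.2.2)) (by fun_prop) x hx

theorem countable_ext (hS : S.Countable) : (ext S G).Countable := by
  refine (hS.image (fun Q0 : M → Prop =>
    fun x : M => ∃ z, Q0 (Cd.enc (x, z, res G z)))).mono ?_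
  rintro Y ⟨⟨Q, hQ, e⟩, -⟩
  exact ⟨_, rec_iff.1 hQ, funext fun x => propext (by simp [e])⟩

theorem countable_rec (hS : S.Countable) : {Q : α → Prop | Rec S Q}.Countable := by
  refine (hS.image (fun Q0 : M → Prop => fun a : α => Q0 (Cd.enc a))).mono ?_
  intro Q hQ
  exact ⟨_, rec_iff.1 hQ, funext fun x => propext (by simp)⟩

omit [IM M] in
theorem good_iUnion (T : ℕ → Set (M → Prop)) (hT : Monotone T) (h : ∀ n, Good (T n)) :
    Good (⋃ n, T n) where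
  basic := by
    intro f hf Q hQ
    obtain ⟨n, hn⟩ := Set.mem_iUnion.1 hQ
    exact Set.mem_iUnion.2 ⟨n, (h n).basic hf hn⟩
  lt := Set.mem_iUnion.2 ⟨0, (h 0).lt⟩
  nand := by
    intro P Q hP hQ
    obtain ⟨n, hn⟩ := Set.mem_iUnion.1 hP
    obtain ⟨m, hm⟩ := Set.mem_iUnion.1 hQ
    exact Set.mem_iUnion.2 ⟨max n m, (h _).nand (hT (le_max_left _ _) hn) (hT (le_max_right _ _) hm)⟩
  ball := by
    intro Q hQ
    obtain ⟨n, hn⟩ := Set.mem_iUnion.1 hQ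
    exact Set.mem_iUnion.2 ⟨n, (h n).ball hn⟩
  delta := by
    intro P Q hP hQ e
    obtain ⟨n, hn⟩ := Set.mem_iUnion.1 hP
    obtain ⟨m, hm⟩ := Set.mem_iUnion.1 hQ
    exact Set.mem_iUnion.2
      ⟨max n m, (h _).delta (hT (le_max_left _ _) hn) (hT (le_max_right _ _) hm) e⟩
  least := by
    intro Q hQ
    obtain ⟨n, hn⟩ := Set.mem_iUnion.1 hQ
    exact (h n).least hn

/-- Generic descending sequences meeting countably many dense sets. -/
theorem exists_generic {P ι : Type} [Countable ι] (le : P → P → Prop) (hr : ∀ p, le p p)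
    (ht : ∀ p q r, le p q → le q r → le p r) (D : ι → P → Prop)
    (hD : ∀ i p, ∃ q, le q p ∧ D i q) (p0 : P) :
    ∃ s : ℕ → P, s 0 = p0 ∧ (∀ n m, n ≤ m → le (s m) (s n)) ∧ ∀ i, ∃ n, D i (s n) := by
  rcases isEmpty_or_nonempty ι with hι | hι
  · exact ⟨fun _ => p0, rfl, fun _ _ _ => hr _, fun i => hι.elim i⟩
  obtain ⟨e, he⟩ := exists_surjective_nat ι
  choose f hf using hD
  let s : ℕ → P := fun n => Nat.rec p0 (fun n p => f (e n) p) n
  refine ⟨s, rfl, ?_, fun i => ?_⟩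
  · intro n m h
    induction h with
    | refl => exact hr _
    | step _ ih => exact ht _ _ _ (hf _ _).1 ih
  · obtain ⟨n, rfl⟩ := he i
    exact ⟨n + 1, (hf _ _).2⟩

omit [IM M] in
theorem exists_closed (Inst : (M → Prop) → (M → Prop) → Prop)
    (Sol : (M → Prop) → (M → Prop) → (M → Prop) → Prop)
    (step : ∀ T : Set (M → Prop), Good T → T.Countable → ∀ X ∈ T, ∀ Y ∈ T, Inst X Y →
      ∃ T', Good T' ∧ T'.Countable ∧ T ⊆ T' ∧ ∃ Z ∈ T', Sol X Y Z)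
    (T : Set (M → Prop)) (hT : Good T) (hc : T.Countable) :
    ∃ T', Good T' ∧ T'.Countable ∧ T ⊆ T' ∧
      ∀ X ∈ T', ∀ Y ∈ T', Inst X Y → ∃ Z ∈ T', Sol X Y Z := by
  have round : ∀ T : {T : Set (M → Prop) // Good T ∧ T.Countable},
      ∃ T' : {T : Set (M → Prop) // Good T ∧ T.Countable}, T.1 ⊆ T'.1 ∧
        ∀ X ∈ T.1, ∀ Y ∈ T.1, Inst X Y → ∃ Z ∈ T'.1, Sol X Y Z := by
    rintro ⟨T, hT, hc⟩
    have : Countable T := hc.to_subtype
    obtain ⟨s, h0, h1, h2⟩ := exists_generic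
      (P := {U : Set (M → Prop) // Good U ∧ U.Countable ∧ T ⊆ U}) (ι := T × T)
      (fun U V => V.1 ⊆ U.1) (fun _ => le_rfl) (fun _ _ _ h h' => h'.trans h)
      (fun i U => Inst i.1.1 i.2.1 → ∃ Z ∈ U.1, Sol i.1.1 i.2.1 Z) (by
        rintro ⟨⟨X, hX⟩, ⟨Y, hY⟩⟩ ⟨U, h1, h2, h3⟩
        by_cases hI : Inst X Y
        · obtain ⟨U', h4, h5, h6, h7⟩ := step U h1 h2 X (h3 hX) Y (h3 hY) hI
          exact ⟨⟨U', h4, h5, h3.trans h6⟩, h6, fun _ => h7⟩
        · exact ⟨⟨U, h1, h2, h3⟩, le_rfl, fun h => absurd h hI⟩) ⟨T, hT, hc, le_rfl⟩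
    refine ⟨⟨⋃ n, (s n).1, good_iUnion _ (fun n m h => h1 n m h) (fun n => (s n).2.1),
      Set.countable_iUnion fun n => (s n).2.2.1⟩,
      (s 0).2.2.2.trans (Set.subset_iUnion (fun n => (s n).1) 0), ?_⟩
    intro X hX Y hY hI
    obtain ⟨n, hn⟩ := h2 (⟨X, hX⟩, ⟨Y, hY⟩)
    obtain ⟨Z, hZ, h⟩ := hn hI
    exact ⟨Z, Set.mem_iUnion.2 ⟨n, hZ⟩, h⟩
  choose f hf using round
  let s : ℕ → {T : Set (M → Prop) // Good T ∧ T.Countable} := fun n => f^[n] ⟨T, hT, hc⟩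
  have hs : ∀ n, s (n + 1) = f (s n) := fun n => Function.iterate_succ_apply' f n _
  have hm : Monotone fun n => (s n).1 := monotone_nat_of_le_succ fun n => by
    rw [hs]; exact (hf _).1
  refine ⟨⋃ n, (s n).1, good_iUnion _ hm (fun n => (s n).2.1),
    Set.countable_iUnion fun n => (s n).2.2, Set.subset_iUnion (fun n => (s n).1) 0, ?_⟩
  intro X hX Y hY hI
  obtain ⟨n, hn⟩ := Set.mem_iUnion.1 hX
  obtain ⟨m, hm'⟩ := Set.mem_iUnion.1 hY
  obtain ⟨Z, hZ, h⟩ := (hf (s (max n m))).2 X (hm (le_max_left _ _) hn) Y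
    (hm (le_max_right _ _) hm') hI
  exact ⟨Z, Set.mem_iUnion.2 ⟨max n m + 1, by rw [hs]; exact hZ⟩, h⟩

end Pool.Agent.Lib.MP_706ff3_lc
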