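import Pool.Agent.Lib.MP_706ff3_lc.Defs
import Pool.Agent.Lib.MP_706ff3_lc.Ext

/-!
Soundness and completeness (with countable models) of the calculus `Prf`.
-/

set_option autoImplicit false

namespace Pool.Agent.Lib.MP_706ff3_lc

open Classical

@[simp] theorem cons_zero {α : Type} (a : α) (f : ℕ → α) : cons a f 0 = a := rfl
@[simp] theorem cons_succ {α : Type} (a : α) (f : ℕ → α) (i : ℕ) : cons a f (i + 1) = f i := rfl

/-! ### Semantics of substitution and soundness -/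

theorem Tm.eval_subst (A : Str) (σ : ℕ → Tm) (v : ℕ → A.M) (t : Tm) :
    (t.subst σ).eval A v = t.eval A (fun i => (σ i).eval A v) := by
  induction t <;> simp [Tm.subst, Tm.eval, *]

@[simp] theorem Tm.eval_up (A : Str) (x : A.M) (v : ℕ → A.M) (t : Tm) :
    t.up.eval A (cons x v) = t.eval A v := by
  rw [Tm.up, Tm.eval_subst]; rfl

theorem Fm.eval_subst (A : Str) (φ : Fm) : ∀ (σ : ℕ → Tm) (τ : ℕ → ℕ) (v : ℕ → A.M)
    (ρ : ℕ → Set A.M), (φ.subst σ τ).eval A v ρ ↔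
      φ.eval A (fun i => (σ i).eval A v) (fun j => ρ (τ j)) := by
  induction φ with
  | eq s t => intro σ τ v ρ; simp [Fm.subst, Fm.eval, Tm.eval_subst]
  | lt s t => intro σ τ v ρ; simp [Fm.subst, Fm.eval, Tm.eval_subst]
  | mem t j => intro σ τ v ρ; simp [Fm.subst, Fm.eval, Tm.eval_subst]
  | bot => intro σ τ v ρ; simp [Fm.subst, Fm.eval]
  | imp φ ψ ih1 ih2 => intro σ τ v ρ; simp [Fm.subst, Fm.eval, ih1, ih2]
  | allN φ ih =>
    intro σ τ v ρ
    simp only [Fm.subst, Fm.eval, ih]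
    refine forall_congr' fun x => iff_of_eq ?_
    congr 1
    funext i
    cases i <;> simp [Tm.eval]
  | allS φ ih =>
    intro σ τ v ρ
    simp only [Fm.subst, Fm.eval, ih]
    refine forall_congr' fun X => imp_congr_right fun _ => iff_of_eq ?_
    congr 1
    funext i
    cases i <;> simp

@[simp] theorem Fm.eval_upN (A : Str) (φ : Fm) (x : A.M) (v : ℕ → A.M) (ρ : ℕ → Set A.M) :
    φ.upN.eval A (cons x v) ρ ↔ φ.eval A v ρ := by
  rw [Fm.upN, Fm.eval_subst]; rfl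

@[simp] theorem Fm.eval_upS (A : Str) (φ : Fm) (X : Set A.M) (v : ℕ → A.M) (ρ : ℕ → Set A.M) :
    φ.upS.eval A v (cons X ρ) ↔ φ.eval A v ρ := by
  rw [Fm.upS, Fm.eval_subst]; rfl

@[simp] theorem Fm.eval_instN (A : Str) (φ : Fm) (t : Tm) (v : ℕ → A.M) (ρ : ℕ → Set A.M) :
    (φ.instN t).eval A v ρ ↔ φ.eval A (cons (t.eval A v) v) ρ := by
  rw [Fm.instN, Fm.eval_subst]
  refine iff_of_eq ?_
  congr 1
  funext i
  cases i <;> rfl

@[simp] theorem Fm.eval_instS (A : Str) (φ : Fm) (j : ℕ) (v : ℕ → A.M) (ρ : ℕ → Set A.M) :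
    (φ.instS j).eval A v ρ ↔ φ.eval A v (cons (ρ j) ρ) := by
  rw [Fm.instS, Fm.eval_subst]
  refine iff_of_eq ?_
  congr 1
  funext i
  cases i <;> rfl

section
variable (A : Str) (φ ψ : Fm) (v : ℕ → A.M) (ρ : ℕ → Set A.M)

@[simp] theorem Fm.eval_neg : φ.neg.eval A v ρ ↔ ¬ φ.eval A v ρ := Iff.rfl

@[simp] theorem Fm.eval_and : (φ.and ψ).eval A v ρ ↔ φ.eval A v ρ ∧ ψ.eval A v ρ := by
  simp [Fm.and, Fm.eval]

@[simp] theorem Fm.eval_or : (φ.or ψ).eval A v ρ ↔ φ.eval A v ρ ∨ ψ.eval A v ρ := by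
  simp only [Fm.or, Fm.eval, Fm.eval_neg]; tauto

@[simp] theorem Fm.eval_iff : (φ.iff ψ).eval A v ρ ↔ (φ.eval A v ρ ↔ ψ.eval A v ρ) := by
  simp only [Fm.iff, Fm.eval_and, Fm.eval]; tauto

@[simp] theorem Fm.eval_exN : φ.exN.eval A v ρ ↔ ∃ x, φ.eval A (cons x v) ρ := by
  simp [Fm.exN, Fm.eval]

@[simp] theorem Fm.eval_exS : φ.exS.eval A v ρ ↔ ∃ X ∈ A.S, φ.eval A v (cons X ρ) := by
  simp [Fm.exS, Fm.eval]

end

theorem cons_mem {A : Str} {X : Set A.M} {ρ : ℕ → Set A.M} (hX : X ∈ A.S) (hρ : ∀ j, ρ j ∈ A.S) :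
    ∀ j, cons X ρ j ∈ A.S := by
  intro j; cases j
  · exact hX
  · exact hρ _

theorem Prf.sound {T : Set Fm} {Γ : List Fm} {φ : Fm} (h : Prf T Γ φ) (A : Str)
    (hT : ∀ ψ ∈ T, A.Valid ψ) : ∀ (v : ℕ → A.M) (ρ : ℕ → Set A.M), (∀ j, ρ j ∈ A.S) →
      (∀ ψ ∈ Γ, ψ.eval A v ρ) → φ.eval A v ρ := by
  induction h with
  | ax σ τ h => intro v ρ hρ _; rw [Fm.eval_subst]; exact hT _ h _ _ fun j => hρ _
  | hyp h => intro v ρ _ hΓ; exact hΓ _ h
  | impI _ ih =>
    intro v ρ hρ hΓ h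
    exact ih v ρ hρ (by simpa using ⟨h, hΓ⟩)
  | impE _ _ ih1 ih2 => intro v ρ hρ hΓ; exact ih1 v ρ hρ hΓ (ih2 v ρ hρ hΓ)
  | raa _ ih =>
    intro v ρ hρ hΓ
    by_contra h
    exact ih v ρ hρ (by simpa using ⟨h, hΓ⟩)
  | allNI _ ih =>
    intro v ρ hρ hΓ x
    exact ih _ ρ hρ (by simpa using hΓ)
  | allNE t _ ih => intro v ρ hρ hΓ; rw [Fm.eval_instN]; exact ih v ρ hρ hΓ _
  | allSI _ ih =>
    intro v ρ hρ hΓ X hX
    exact ih v _ (cons_mem hX hρ) (by simpa using hΓ)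
  | allSE j _ ih => intro v ρ hρ hΓ; rw [Fm.eval_instS]; exact ih v ρ hρ hΓ _ (hρ j)
  | refl t => intro v ρ _ _; rfl
  | rewr _ _ ih1 ih2 =>
    intro v ρ hρ hΓ
    have h1 := ih1 v ρ hρ hΓ
    have h2 := ih2 v ρ hρ hΓ
    simp only [Fm.eval, Fm.eval_instN] at h1 h2 ⊢
    rwa [← h1]

/-! ### Substitution lemmas -/

theorem Tm.subst_subst (σ σ' : ℕ → Tm) (t : Tm) :
    (t.subst σ).subst σ' = t.subst fun i => (σ i).subst σ' := by
  induction t <;> simp [Tm.subst, *]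

@[simp] theorem Tm.subst_var (t : Tm) : t.subst .var = t := by
  induction t <;> simp [Tm.subst, *]

@[simp] theorem Tm.up_subst_cons (t s : Tm) (σ : ℕ → Tm) : t.up.subst (cons s σ) = t.subst σ := by
  rw [Tm.up, Tm.subst_subst]; rfl

theorem Tm.subst_up (t : Tm) (σ : ℕ → Tm) : (t.subst σ).up = t.subst fun i => (σ i).up := by
  rw [Tm.up, Tm.subst_subst]; rfl

theorem Fm.subst_subst (φ : Fm) : ∀ (σ σ' : ℕ → Tm) (τ τ' : ℕ → ℕ),
    (φ.subst σ τ).subst σ' τ' = φ.subst (fun i => (σ i).subst σ') (fun j => τ' (τ j)) := by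
  induction φ with
  | allN φ ih =>
    intro σ σ' τ τ'
    simp only [Fm.subst, ih]
    congr 2
    funext i
    cases i
    · rfl
    · simp [Tm.subst_up]
  | allS φ ih =>
    intro σ σ' τ τ'
    simp only [Fm.subst, ih]
    congr 2
    funext i
    cases i <;> rfl
  | _ => intro σ σ' τ τ'; simp [Fm.subst, Tm.subst_subst, *]

theorem Fm.subst_id (φ : Fm) : φ.subst .var id = φ := by
  induction φ with
  | allN φ ih =>
    simp only [Fm.subst]
    have : (cons (.var 0) fun i => (Tm.var i).up) = Tm.var := by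
      funext i; cases i <;> rfl
    rw [this, ih]
  | allS φ ih =>
    simp only [Fm.subst]
    have : (cons 0 fun j => id j + 1) = id := by
      funext i; cases i <;> rfl
    rw [this, ih]
  | _ => simp [Fm.subst, *]

/-- A bound for the variables of a term. -/
def Tm.bd : Tm → ℕ
  | .var i => i + 1
  | .zero => 0
  | .one => 0
  | .add s t => max s.bd t.bd
  | .mul s t => max s.bd t.bd

/-- A bound for the free number variables. -/
def Fm.bdN : Fm → ℕ
  | .eq s t => max s.bd t.bd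
  | .lt s t => max s.bd t.bd
  | .mem t _ => t.bd
  | .bot => 0
  | .imp φ ψ => max φ.bdN ψ.bdN
  | .allN φ => φ.bdN - 1
  | .allS φ => φ.bdN

/-- A bound for the free set variables. -/
def Fm.bdS : Fm → ℕ
  | .eq _ _ => 0
  | .lt _ _ => 0
  | .mem _ j => j + 1
  | .bot => 0
  | .imp φ ψ => max φ.bdS ψ.bdS
  | .allN φ => φ.bdS
  | .allS φ => φ.bdS - 1

theorem Tm.subst_congr {σ σ' : ℕ → Tm} (t : Tm) (h : ∀ i < t.bd, σ i = σ' i) :
    t.subst σ = t.subst σ' := by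
  induction t with
  | var i => exact h i (Nat.lt_succ_self i)
  | zero => rfl
  | one => rfl
  | add s t ih1 ih2 =>
    simp only [Tm.subst]
    rw [ih1 fun i hi => h i (lt_max_of_lt_left hi), ih2 fun i hi => h i (lt_max_of_lt_right hi)]
  | mul s t ih1 ih2 =>
    simp only [Tm.subst]
    rw [ih1 fun i hi => h i (lt_max_of_lt_left hi), ih2 fun i hi => h i (lt_max_of_lt_right hi)]

theorem Fm.subst_congr (φ : Fm) : ∀ {σ σ' : ℕ → Tm} {τ τ' : ℕ → ℕ},
    (∀ i < φ.bdN, σ i = σ' i) → (∀ j < φ.bdS, τ j = τ' j) → φ.subst σ τ = φ.subst σ' τ' := by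
  induction φ with
  | eq s t =>
    intro σ σ' τ τ' h _
    simp only [Fm.subst]
    rw [s.subst_congr fun i hi => h i (lt_max_of_lt_left hi),
      t.subst_congr fun i hi => h i (lt_max_of_lt_right hi)]
  | lt s t =>
    intro σ σ' τ τ' h _
    simp only [Fm.subst]
    rw [s.subst_congr fun i hi => h i (lt_max_of_lt_left hi),
      t.subst_congr fun i hi => h i (lt_max_of_lt_right hi)]
  | mem t j =>
    intro σ σ' τ τ' h h'
    simp only [Fm.subst]
    rw [t.subst_congr h, h' j (Nat.lt_succ_self j)]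
  | bot => intros; rfl
  | imp φ ψ ih1 ih2 =>
    intro σ σ' τ τ' h h'
    simp only [Fm.subst]
    rw [ih1 (fun i hi => h i (lt_max_of_lt_left hi)) (fun i hi => h' i (lt_max_of_lt_left hi)),
      ih2 (fun i hi => h i (lt_max_of_lt_right hi)) (fun i hi => h' i (lt_max_of_lt_right hi))]
  | allN φ ih =>
    intro σ σ' τ τ' h h'
    simp only [Fm.subst]
    rw [ih (σ' := cons (.var 0) fun i => (σ' i).up) (τ' := τ') _ h']
    intro i hi
    cases i with
    | zero => rfl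
    | succ i => simp only [cons_succ]; rw [h i (by simp only [Fm.bdN]; omega)]
  | allS φ ih =>
    intro σ σ' τ τ' h h'
    simp only [Fm.subst]
    rw [ih (σ' := σ') (τ' := cons 0 fun j => τ' j + 1) h]
    intro i hi
    cases i with
    | zero => rfl
    | succ i => simp only [cons_succ]; rw [h' i (by simp only [Fm.bdS]; omega)]

theorem Fm.upN_subst (φ : Fm) (σ : ℕ → Tm) (τ : ℕ → ℕ) :
    φ.upN.subst (cons (.var 0) fun i => (σ i).up) τ = (φ.subst σ τ).upN := by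
  simp only [Fm.upN, Fm.subst_subst]; rfl

theorem Fm.upS_subst (φ : Fm) (σ : ℕ → Tm) (τ : ℕ → ℕ) :
    φ.upS.subst σ (cons 0 fun j => τ j + 1) = (φ.subst σ τ).upS := by
  simp only [Fm.upS, Fm.subst_subst, Tm.subst_var]; rfl

theorem Fm.instN_subst_cons (φ : Fm) (t : Tm) (σ : ℕ → Tm) (τ : ℕ → ℕ) :
    (φ.subst (cons (.var 0) fun i => (σ i).up) τ).instN t = φ.subst (cons t σ) τ := by
  simp only [Fm.instN, Fm.subst_subst]
  congr 1
  funext i
  cases i
  · rfl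
  · simp

theorem Fm.instS_subst_cons (φ : Fm) (j : ℕ) (σ : ℕ → Tm) (τ : ℕ → ℕ) :
    (φ.subst σ (cons 0 fun j => τ j + 1)).instS j = φ.subst σ (cons j τ) := by
  simp only [Fm.instS, Fm.subst_subst, Tm.subst_var]
  congr 1
  funext i
  cases i <;> rfl

theorem Fm.instN_subst (φ : Fm) (t : Tm) (σ : ℕ → Tm) (τ : ℕ → ℕ) :
    (φ.instN t).subst σ τ = φ.subst (cons (t.subst σ) σ) τ := by
  simp only [Fm.instN, Fm.subst_subst]
  congr 1
  funext i
  cases i <;> rfl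

theorem Fm.instS_subst (φ : Fm) (j : ℕ) (σ : ℕ → Tm) (τ : ℕ → ℕ) :
    (φ.instS j).subst σ τ = φ.subst σ (cons (τ j) τ) := by
  simp only [Fm.instS, Fm.subst_subst]
  congr 1
  funext i
  cases i <;> rfl

variable {T : Set Fm}

theorem Prf.weaken {Γ : List Fm} {φ : Fm} (h : Prf T Γ φ) :
    ∀ {Γ' : List Fm}, Γ ⊆ Γ' → Prf T Γ' φ := by
  induction h with
  | ax σ τ h => intro _ _; exact .ax σ τ h
  | hyp h => intro _ h'; exact .hyp (h' h)
  | impI _ ih => intro _ h'; exact .impI (ih (List.cons_subset_cons _ h'))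
  | impE _ _ ih1 ih2 => intro _ h'; exact .impE (ih1 h') (ih2 h')
  | raa _ ih => intro _ h'; exact .raa (ih (List.cons_subset_cons _ h'))
  | allNI _ ih => intro _ h'; exact .allNI (ih (List.map_subset _ h'))
  | allNE t _ ih => intro _ h'; exact .allNE t (ih h')
  | allSI _ ih => intro _ h'; exact .allSI (ih (List.map_subset _ h'))
  | allSE j _ ih => intro _ h'; exact .allSE j (ih h')
  | refl t => intro _ _; exact .refl t
  | rewr _ _ ih1 ih2 => intro _ h'; exact .rewr (ih1 h') (ih2 h')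

theorem Prf.subst {Γ : List Fm} {φ : Fm} (h : Prf T Γ φ) : ∀ (σ : ℕ → Tm) (τ : ℕ → ℕ),
    Prf T (Γ.map fun ψ => ψ.subst σ τ) (φ.subst σ τ) := by
  induction h with
  | ax σ τ h => intro σ' τ'; rw [Fm.subst_subst]; exact .ax _ _ h
  | hyp h => intro σ τ; exact .hyp (List.mem_map_of_mem h)
  | impI _ ih => intro σ τ; exact .impI (ih σ τ)
  | impE _ _ ih1 ih2 => intro σ τ; exact .impE (ih1 σ τ) (ih2 σ τ)
  | raa _ ih => intro σ τ; exact .raa (ih σ τ)
  | allNI _ ih =>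
    intro σ τ
    refine .allNI ?_
    have := ih (cons (.var 0) fun i => (σ i).up) τ
    simp only [List.map_map, Function.comp_def, Fm.upN_subst] at this ⊢
    exact this
  | allNE t _ ih =>
    intro σ τ
    rw [Fm.instN_subst, ← Fm.instN_subst_cons]
    exact .allNE _ (ih σ τ)
  | allSI _ ih =>
    intro σ τ
    refine .allSI ?_
    have := ih σ (cons 0 fun j => τ j + 1)
    simp only [List.map_map, Function.comp_def, Fm.upS_subst] at this ⊢
    exact this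
  | allSE j _ ih =>
    intro σ τ
    rw [Fm.instS_subst, ← Fm.instS_subst_cons]
    exact .allSE _ (ih σ τ)
  | refl t => intro σ τ; exact .refl _
  | rewr _ _ ih1 ih2 =>
    intro σ τ
    have h2 := ih2 σ τ
    rw [Fm.instN_subst, ← Fm.instN_subst_cons] at h2 ⊢
    exact .rewr (ih1 σ τ) h2

theorem Prf.genN {Γ : List Fm} {φ : Fm} {n : ℕ} (hΓ : ∀ ψ ∈ Γ, ψ.bdN ≤ n) (hφ : φ.bdN ≤ n)
    (h : Prf T Γ (φ.instN (.var n))) : Prf T Γ φ.allN := by
  have := h.subst (fun i => if i = n then .var 0 else .var (i + 1)) id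
  rw [Fm.instN_subst] at this
  have e1 : φ.subst (cons ((Tm.var n).subst fun i => if i = n then .var 0 else .var (i + 1))
      fun i => if i = n then .var 0 else .var (i + 1)) id = φ := by
    conv_rhs => rw [← φ.subst_id]
    refine φ.subst_congr (fun i hi => ?_) fun _ _ => rfl
    cases i with
    | zero => simp [Tm.subst]
    | succ i => simp only [cons_succ]; rw [if_neg (by omega)]
  have e2 : (Γ.map fun ψ => ψ.subst (fun i => if i = n then .var 0 else .var (i + 1)) id)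
      = Γ.map Fm.upN := by
    refine List.map_congr_left fun ψ hψ => ψ.subst_congr (fun i hi => ?_) fun _ _ => rfl
    have := hΓ ψ hψ
    rw [if_neg (by omega)]
  rw [e1, e2] at this
  exact .allNI this

theorem Prf.genS {Γ : List Fm} {φ : Fm} {n : ℕ} (hΓ : ∀ ψ ∈ Γ, ψ.bdS ≤ n) (hφ : φ.bdS ≤ n)
    (h : Prf T Γ (φ.instS n)) : Prf T Γ φ.allS := by
  have := h.subst .var (fun i => if i = n then 0 else i + 1)
  rw [Fm.instS_subst] at this
  have e1 : φ.subst .var (cons (if n = n then 0 else n + 1) fun i => if i = n then 0 else i + 1)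
      = φ := by
    conv_rhs => rw [← φ.subst_id]
    refine φ.subst_congr (fun _ _ => rfl) fun i hi => ?_
    cases i with
    | zero => simp
    | succ i => simp only [cons_succ]; rw [if_neg (by omega)]; rfl
  have e2 : (Γ.map fun ψ => ψ.subst .var (fun i => if i = n then 0 else i + 1))
      = Γ.map Fm.upS := by
    refine List.map_congr_left fun ψ hψ => ψ.subst_congr (fun _ _ => rfl) fun i hi => ?_
    have := hΓ ψ hψ
    rw [if_neg (by omega)]
  rw [e1, e2] at this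
  exact .allSI this

theorem exists_list_bound (f : Fm → ℕ) (Γ : List Fm) (m : ℕ) :
    ∃ n, m ≤ n ∧ ∀ ψ ∈ Γ, f ψ ≤ n := by
  induction Γ with
  | nil => exact ⟨m, le_rfl, by simp⟩
  | cons φ Γ ih =>
    obtain ⟨n, h1, h2⟩ := ih
    refine ⟨max n (f φ), h1.trans (le_max_left _ _), fun ψ hψ => ?_⟩
    rcases List.mem_cons.1 hψ with rfl | h
    · exact le_max_right _ _
    · exact (h2 ψ h).trans (le_max_left _ _)

theorem henkin_step (Γ : List Fm) (hΓ : ¬ Prf T Γ .bot) (φ : Fm) :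
    ∃ Γ', Γ ⊆ Γ' ∧ ¬ Prf T Γ' .bot ∧ (φ ∈ Γ' ∨ (φ.neg ∈ Γ' ∧
      (∀ ψ, φ = .allN ψ → ∃ t, (ψ.instN t).neg ∈ Γ') ∧
      (∀ ψ, φ = .allS ψ → ∃ j, (ψ.instS j).neg ∈ Γ'))) := by
  by_cases h : Prf T (φ :: Γ) .bot
  · have h1 : ¬ Prf T (φ.neg :: Γ) .bot := fun h1 => hΓ (.impE (.impI h) (.raa h1))
    by_cases h2 : ∃ ψ, φ = .allN ψ
    · obtain ⟨ψ, rfl⟩ := h2
      obtain ⟨n, h3, h4⟩ := exists_list_bound Fm.bdN (ψ.allN.neg :: Γ) ψ.bdN
      refine ⟨(ψ.instN (.var n)).neg :: ψ.allN.neg :: Γ, fun x hx => by simp [hx], fun h5 => ?_,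
        Or.inr ⟨by simp, ?_, by simp⟩⟩
      · exact h1 (.impE (.hyp List.mem_cons_self) (Prf.genN h4 h3 (.raa h5)))
      · intro ψ' h5
        cases h5
        exact ⟨_, List.mem_cons_self⟩
    · by_cases h3 : ∃ ψ, φ = .allS ψ
      · obtain ⟨ψ, rfl⟩ := h3
        obtain ⟨n, h3, h4⟩ := exists_list_bound Fm.bdS (ψ.allS.neg :: Γ) ψ.bdS
        refine ⟨(ψ.instS n).neg :: ψ.allS.neg :: Γ, fun x hx => by simp [hx], fun h5 => ?_,
          Or.inr ⟨by simp, by simp, ?_⟩⟩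
        · exact h1 (.impE (.hyp List.mem_cons_self) (Prf.genS h4 h3 (.raa h5)))
        · intro ψ' h5
          cases h5
          exact ⟨_, List.mem_cons_self⟩
      · exact ⟨φ.neg :: Γ, fun x hx => by simp [hx], h1, Or.inr ⟨by simp,
          fun ψ h4 => absurd ⟨ψ, h4⟩ h2, fun ψ h4 => absurd ⟨ψ, h4⟩ h3⟩⟩
  · exact ⟨φ :: Γ, fun x hx => by simp [hx], h, Or.inl (by simp)⟩

/-- An injection of terms into the natural numbers. -/
def Tm.code : Tm → ℕ
  | .var i => Nat.pair 0 i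
  | .zero => Nat.pair 1 0
  | .one => Nat.pair 2 0
  | .add s t => Nat.pair 3 (Nat.pair s.code t.code)
  | .mul s t => Nat.pair 4 (Nat.pair s.code t.code)

theorem Tm.code_inj : ∀ s t : Tm, s.code = t.code → s = t := by
  intro s
  induction s with
  | add s s' ih1 ih2 =>
    intro t h
    cases t <;> simp [Tm.code] at h
    rw [ih1 _ h.1, ih2 _ h.2]
  | mul s s' ih1 ih2 =>
    intro t h
    cases t <;> simp [Tm.code] at h
    rw [ih1 _ h.1, ih2 _ h.2]
  | _ => intro t h; cases t <;> simp_all [Tm.code]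

instance : Countable Tm := Function.Injective.countable (f := Tm.code) Tm.code_inj

/-- An injection of formulas into the natural numbers. -/
def Fm.code : Fm → ℕ
  | .eq s t => Nat.pair 0 (Nat.pair s.code t.code)
  | .lt s t => Nat.pair 1 (Nat.pair s.code t.code)
  | .mem t j => Nat.pair 2 (Nat.pair t.code j)
  | .bot => Nat.pair 3 0
  | .imp φ ψ => Nat.pair 4 (Nat.pair φ.code ψ.code)
  | .allN φ => Nat.pair 5 φ.code
  | .allS φ => Nat.pair 6 φ.code

theorem Fm.code_inj : ∀ φ ψ : Fm, φ.code = ψ.code → φ = ψ := by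
  intro φ
  induction φ with
  | eq s t =>
    intro ψ h
    cases ψ <;> simp [Fm.code] at h
    rw [Tm.code_inj _ _ h.1, Tm.code_inj _ _ h.2]
  | lt s t =>
    intro ψ h
    cases ψ <;> simp [Fm.code] at h
    rw [Tm.code_inj _ _ h.1, Tm.code_inj _ _ h.2]
  | mem s t =>
    intro ψ h
    cases ψ <;> simp [Fm.code] at h
    rw [Tm.code_inj _ _ h.1, h.2]
  | bot => intro ψ h; cases ψ <;> simp_all [Fm.code]
  | imp s s' ih1 ih2 =>
    intro ψ h
    cases ψ <;> simp [Fm.code] at h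
    rw [ih1 _ h.1, ih2 _ h.2]
  | allN s ih =>
    intro ψ h
    cases ψ <;> simp [Fm.code] at h
    rw [ih _ h]
  | allS s ih =>
    intro ψ h
    cases ψ <;> simp [Fm.code] at h
    rw [ih _ h]

instance : Countable Fm := Function.Injective.countable (f := Fm.code) Fm.code_inj

/-- Complete consistent Henkin sets. -/
structure Henkin (T : Set Fm) (Δ : Fm → Prop) : Prop where
  ax : ∀ φ ∈ T, ∀ σ τ, Δ (φ.subst σ τ)
  bot : ¬ Δ .bot
  imp : ∀ φ ψ : Fm, Δ (φ.imp ψ) ↔ (Δ φ → Δ ψ)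
  allN : ∀ φ : Fm, Δ φ.allN ↔ ∀ t, Δ (φ.instN t)
  allS : ∀ φ : Fm, Δ φ.allS ↔ ∀ j, Δ (φ.instS j)
  refl : ∀ t, Δ (.eq t t)
  rewr : ∀ (φ : Fm) (s t : Tm), Δ (.eq s t) → Δ (φ.instN s) → Δ (φ.instN t)

theorem exists_henkin {θ : Fm} (h : ¬ Prf T [] θ) : ∃ Δ, Henkin T Δ ∧ ¬ Δ θ := by
  obtain ⟨s, hs0, hs1, hs2⟩ := exists_generic (P := {Γ : List Fm // ¬ Prf T Γ .bot}) (ι := Fm)
    (fun Γ' Γ => Γ.1 ⊆ Γ'.1) (fun _ => List.Subset.refl _)
    (fun _ _ _ h h' => List.Subset.trans h' h)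
    (fun φ Γ' => φ ∈ Γ'.1 ∨ (φ.neg ∈ Γ'.1 ∧
      (∀ ψ, φ = .allN ψ → ∃ t, (ψ.instN t).neg ∈ Γ'.1) ∧
      (∀ ψ, φ = .allS ψ → ∃ j, (ψ.instS j).neg ∈ Γ'.1)))
    (by
      rintro φ ⟨Γ, hΓ⟩
      obtain ⟨Γ', h1, h2, h3⟩ := henkin_step Γ hΓ φ
      exact ⟨⟨Γ', h2⟩, h1, h3⟩) ⟨[θ.neg], fun h' => h (.raa h')⟩
  set Δ : Fm → Prop := fun φ => ∃ n, Prf T (s n).1 φ with hΔ
  have two : ∀ {φ ψ}, Δ φ → Δ ψ → ∃ n, Prf T (s n).1 φ ∧ Prf T (s n).1 ψ := by
    rintro φ ψ ⟨n, hn⟩ ⟨m, hm⟩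
    exact ⟨max n m, hn.weaken (hs1 _ _ (le_max_left _ _)), hm.weaken (hs1 _ _ (le_max_right _ _))⟩
  have con : ∀ φ, Δ φ → ¬ Δ φ.neg := by
    intro φ h1 h2
    obtain ⟨n, h3, h4⟩ := two h1 h2
    exact (s n).2 (.impE h4 h3)
  refine ⟨Δ, ⟨fun φ hφ σ τ => ⟨0, .ax σ τ hφ⟩, fun ⟨n, hn⟩ => (s n).2 hn, fun φ ψ => ⟨?_, ?_⟩,
    fun φ => ⟨?_, ?_⟩, fun φ => ⟨?_, ?_⟩, fun t => ⟨0, .refl t⟩, ?_⟩, ?_⟩
  · intro h1 h2
    obtain ⟨n, h3, h4⟩ := two h1 h2
    exact ⟨n, .impE h3 h4⟩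
  · intro h1
    obtain ⟨n, h2 | ⟨h2, -⟩⟩ := hs2 φ
    · obtain ⟨m, hm⟩ := h1 ⟨n, .hyp h2⟩
      exact ⟨m, .impI (hm.weaken (List.subset_cons_self _ _))⟩
    · exact ⟨n, .impI (.raa (.impE (.hyp (φ := φ.neg) (by simp [h2])) (.hyp (by simp))))⟩
  · rintro ⟨n, hn⟩ t; exact ⟨n, .allNE t hn⟩
  · intro h1
    obtain ⟨n, h2 | ⟨-, h2, -⟩⟩ := hs2 φ.allN
    · exact ⟨n, .hyp h2⟩
    · obtain ⟨t, ht⟩ := h2 φ rfl
      exact absurd ⟨n, .hyp ht⟩ (con _ (h1 t))
  · rintro ⟨n, hn⟩ t; exact ⟨n, .allSE t hn⟩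
  · intro h1
    obtain ⟨n, h2 | ⟨-, -, h2⟩⟩ := hs2 φ.allS
    · exact ⟨n, .hyp h2⟩
    · obtain ⟨t, ht⟩ := h2 φ rfl
      exact absurd ⟨n, .hyp ht⟩ (con _ (h1 t))
  · intro φ a b h1 h2
    obtain ⟨n, h3, h4⟩ := two h1 h2
    exact ⟨n, .rewr h3 h4⟩
  · intro h1
    exact con θ h1 ⟨0, .hyp (by rw [hs0]; simp)⟩

namespace Henkin

variable {Δ : Fm → Prop} (H : Henkin T Δ)
include H

theorem symm {s t : Tm} (h : Δ (.eq s t)) : Δ (.eq t s) := by
  have := H.rewr (.eq (.var 0) s.up) s t h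
  simp only [Fm.instN, Fm.subst, Tm.subst, cons_zero, Tm.up_subst_cons, Tm.subst_var] at this
  exact this (H.refl s)

theorem trans {s t u : Tm} (h : Δ (.eq s t)) (h' : Δ (.eq t u)) : Δ (.eq s u) := by
  have := H.rewr (.eq s.up (.var 0)) t u h'
  simp only [Fm.instN, Fm.subst, Tm.subst, cons_zero, Tm.up_subst_cons, Tm.subst_var] at this
  exact this h

theorem add {s t s' t' : Tm} (h : Δ (.eq s s')) (h' : Δ (.eq t t')) :
    Δ (.eq (.add s t) (.add s' t')) := by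
  have h1 := H.rewr (.eq (Tm.add s t).up (.add (.var 0) t.up)) s s' h
  have h2 := H.rewr (.eq (Tm.add s t).up (.add s'.up (.var 0))) t t' h'
  simp only [Fm.instN, Fm.subst, Tm.subst, cons_zero, Tm.up_subst_cons, Tm.subst_var] at h1 h2
  exact h2 (h1 (H.refl _))

theorem mul {s t s' t' : Tm} (h : Δ (.eq s s')) (h' : Δ (.eq t t')) :
    Δ (.eq (.mul s t) (.mul s' t')) := by
  have h1 := H.rewr (.eq (Tm.mul s t).up (.mul (.var 0) t.up)) s s' h
  have h2 := H.rewr (.eq (Tm.mul s t).up (.mul s'.up (.var 0))) t t' h'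
  simp only [Fm.instN, Fm.subst, Tm.subst, cons_zero, Tm.up_subst_cons, Tm.subst_var] at h1 h2
  exact h2 (h1 (H.refl _))

theorem lt {s t s' t' : Tm} (h : Δ (.eq s s')) (h' : Δ (.eq t t')) (h0 : Δ (.lt s t)) :
    Δ (.lt s' t') := by
  have h1 := H.rewr (.lt (.var 0) t.up) s s' h
  have h2 := H.rewr (.lt s'.up (.var 0)) t t' h'
  simp only [Fm.instN, Fm.subst, Tm.subst, cons_zero, Tm.up_subst_cons, Tm.subst_var] at h1 h2
  exact h2 (h1 h0)

theorem mem {s s' : Tm} {j : ℕ} (h : Δ (.eq s s')) (h0 : Δ (.mem s j)) : Δ (.mem s' j) := by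
  have h1 := H.rewr (.mem (.var 0) j) s s' h
  simp only [Fm.instN, Fm.subst, Tm.subst, cons_zero] at h1
  exact h1 h0

/-- Provable equality of terms. -/
def setoid : Setoid Tm :=
  ⟨fun s t => Δ (.eq s t), ⟨H.refl, H.symm, H.trans⟩⟩

/-- The set named by a set variable. -/
def setOf (j : ℕ) : Set (Quotient H.setoid) :=
  {x | Quotient.lift (fun t => Δ (.mem t j))
    (fun _ _ h => propext ⟨H.mem h, H.mem (H.symm h)⟩) x}

/-- The term model. -/
def model : Str where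
  M := Quotient H.setoid
  zero := ⟦.zero⟧
  one := ⟦.one⟧
  add := Quotient.map₂ .add fun _ _ h _ _ h' => H.add h h'
  mul := Quotient.map₂ .mul fun _ _ h _ _ h' => H.mul h h'
  lt := Quotient.lift₂ (fun s t => Δ (.lt s t))
    fun _ _ _ _ h h' => propext ⟨H.lt h h', H.lt (H.symm h) (H.symm h')⟩
  S := Set.range H.setOf

theorem eval_tm (σ : ℕ → Tm) (t : Tm) :
    t.eval H.model (fun i => (⟦σ i⟧ : Quotient H.setoid)) = (⟦t.subst σ⟧ : Quotient H.setoid) := by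
  induction t with
  | var i => rfl
  | zero => rfl
  | one => rfl
  | add s t ih1 ih2 => simp only [Tm.eval, ih1, ih2]; rfl
  | mul s t ih1 ih2 => simp only [Tm.eval, ih1, ih2]; rfl

theorem truth (φ : Fm) : ∀ (σ : ℕ → Tm) (τ : ℕ → ℕ),
    φ.eval H.model (fun i => (⟦σ i⟧ : Quotient H.setoid)) (fun j => H.setOf (τ j)) ↔
      Δ (φ.subst σ τ) := by
  induction φ with
  | eq s t => intro σ τ; simp only [Fm.eval, eval_tm]; exact Quotient.eq (r := H.setoid)
  | lt s t => intro σ τ; simp only [Fm.eval, eval_tm]; rfl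
  | mem t j => intro σ τ; simp only [Fm.eval, eval_tm]; rfl
  | bot => intro σ τ; exact iff_of_false id H.bot
  | imp φ ψ ih1 ih2 => intro σ τ; simp only [Fm.eval, Fm.subst, H.imp, ih1, ih2]
  | allN φ ih =>
    intro σ τ
    simp only [Fm.eval, Fm.subst, H.allN, Fm.instN_subst_cons, ← ih]
    have e : ∀ t : Tm, cons (⟦t⟧ : Quotient H.setoid) (fun i => (⟦σ i⟧ : Quotient H.setoid))
        = fun i => (⟦cons t σ i⟧ : Quotient H.setoid) := by
      intro t; funext i; cases i <;> rfl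
    constructor
    · intro h t; rw [← e]; exact h _
    · intro h x
      induction x using Quotient.inductionOn with
      | h t => have := h t; rw [← e] at this; exact this
  | allS φ ih =>
    intro σ τ
    simp only [Fm.eval, Fm.subst, H.allS, Fm.instS_subst_cons, ← ih]
    have e : ∀ j : ℕ, cons (H.setOf j) (fun i => H.setOf (τ i))
        = fun i => H.setOf (cons j τ i) := by
      intro t; funext i; cases i <;> rfl
    constructor
    · intro h j; rw [← e]; exact h _ ⟨j, rfl⟩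
    · rintro h X ⟨j, rfl⟩
      have := h j; rw [← e] at this; exact this

theorem valid_iff (φ : Fm) : H.model.Valid φ ↔ ∀ σ τ, Δ (φ.subst σ τ) := by
  constructor
  · intro h σ τ
    exact (H.truth φ σ τ).1 (h _ _ fun j => ⟨_, rfl⟩)
  · intro h v ρ hρ
    choose τ hτ using hρ
    have hσ : ∀ i, ∃ t : Tm, (⟦t⟧ : Quotient H.setoid) = v i := fun i => Quotient.exists_rep _
    choose σ hσ using hσ
    have := (H.truth φ σ τ).2 (h σ τ)
    simp only [hσ, hτ] at this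
    exact this

end Henkin

theorem exists_countermodel {θ : Fm} (h : ¬ Prf T [] θ) :
    ∃ A : Str, Countable A.M ∧ A.S.Countable ∧ A.S.Nonempty ∧ (∀ ψ ∈ T, A.Valid ψ) ∧
      ¬ A.Valid θ := by
  obtain ⟨Δ, H, h1⟩ := exists_henkin h
  refine ⟨H.model, inferInstanceAs (Countable (Quotient H.setoid)), Set.countable_range _,
    Set.range_nonempty _, fun ψ hψ => (H.valid_iff ψ).2 (H.ax ψ hψ), fun h2 => h1 ?_⟩
  have := (H.valid_iff θ).1 h2 .var id
  rwa [Fm.subst_id] at this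

/-- Soundness and completeness. -/
theorem prf_iff (T : Set Fm) (θ : Fm) :
    Prf T [] θ ↔ ∀ A : Str, (∀ ψ ∈ T, A.Valid ψ) → A.Valid θ := by
  constructor
  · intro h A hA v ρ hρ
    exact h.sound A hA v ρ hρ (by simp)
  · intro h
    by_contra hn
    obtain ⟨A, -, -, -, h1, h2⟩ := exists_countermodel hn
    exact h2 (h A h1)

end Pool.Agent.Lib.MP_706ff3_lc
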