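import Mathlib

/-!
The language of second order arithmetic (de Bruijn variables), a natural deduction calculus,
the theories `RCA0`, `IS2`, the sentence `PRT k`, and the two-sorted (Henkin) semantics.
-/

set_option autoImplicit false

namespace Pool.Agent.Lib.MP_706ff3_lc

/-- Number terms. -/
inductive Tm : Type
  | var : ℕ → Tm
  | zero : Tm
  | one : Tm
  | add : Tm → Tm → Tm
  | mul : Tm → Tm → Tm

/-- Formulas: `s = t`, `s < t`, `t ∈ X_j`, falsum, implication, number and set quantifier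
(each binds the variable `0` of its sort). -/
inductive Fm : Type
  | eq : Tm → Tm → Fm
  | lt : Tm → Tm → Fm
  | mem : Tm → ℕ → Fm
  | bot : Fm
  | imp : Fm → Fm → Fm
  | allN : Fm → Fm
  | allS : Fm → Fm

/-- The sequence `a, f 0, f 1, ...`. -/
def cons {α : Type} (a : α) (f : ℕ → α) : ℕ → α
  | 0 => a
  | i + 1 => f i

/-- Simultaneous substitution in terms. -/
def Tm.subst (σ : ℕ → Tm) : Tm → Tm
  | .var i => σ i
  | .zero => .zero
  | .one => .one
  | .add s t => .add (s.subst σ) (t.subst σ)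
  | .mul s t => .mul (s.subst σ) (t.subst σ)

/-- Shift of all variables of a term. -/
def Tm.up (t : Tm) : Tm := t.subst fun i => .var (i + 1)

/-- Simultaneous capture-avoiding substitution of terms for number variables and of set variables
for set variables. -/
def Fm.subst : Fm → (ℕ → Tm) → (ℕ → ℕ) → Fm
  | .eq s t, σ, _ => .eq (s.subst σ) (t.subst σ)
  | .lt s t, σ, _ => .lt (s.subst σ) (t.subst σ)
  | .mem t j, σ, τ => .mem (t.subst σ) (τ j)
  | .bot, _, _ => .bot
  | .imp φ ψ, σ, τ => .imp (φ.subst σ τ) (ψ.subst σ τ)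
  | .allN φ, σ, τ => .allN (φ.subst (cons (.var 0) fun i => (σ i).up) τ)
  | .allS φ, σ, τ => .allS (φ.subst σ (cons 0 fun j => τ j + 1))

/-- Shift of the free number variables. -/
def Fm.upN (φ : Fm) : Fm := φ.subst (fun i => .var (i + 1)) id

/-- Shift of the free set variables. -/
def Fm.upS (φ : Fm) : Fm := φ.subst .var fun j => j + 1

/-- Instantiation of the number variable `0`. -/
def Fm.instN (φ : Fm) (t : Tm) : Fm := φ.subst (cons t .var) id

/-- Instantiation of the set variable `0`. -/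
def Fm.instS (φ : Fm) (j : ℕ) : Fm := φ.subst .var (cons j id)

def Fm.neg (φ : Fm) : Fm := .imp φ .bot
def Fm.and (φ ψ : Fm) : Fm := (φ.imp ψ.neg).neg
def Fm.or (φ ψ : Fm) : Fm := φ.neg.imp ψ
def Fm.iff (φ ψ : Fm) : Fm := (φ.imp ψ).and (ψ.imp φ)
def Fm.exN (φ : Fm) : Fm := φ.neg.allN.neg
def Fm.exS (φ : Fm) : Fm := φ.neg.allS.neg

/-- Classical natural deduction for the two-sorted language, from the theory `T` (whose members
stand for their universal closures) and the open hypotheses `Γ`. -/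
inductive Prf (T : Set Fm) : List Fm → Fm → Prop
  | ax {Γ : List Fm} {φ : Fm} (σ : ℕ → Tm) (τ : ℕ → ℕ) : φ ∈ T → Prf T Γ (φ.subst σ τ)
  | hyp {Γ : List Fm} {φ : Fm} : φ ∈ Γ → Prf T Γ φ
  | impI {Γ : List Fm} {φ ψ : Fm} : Prf T (φ :: Γ) ψ → Prf T Γ (φ.imp ψ)
  | impE {Γ : List Fm} {φ ψ : Fm} : Prf T Γ (φ.imp ψ) → Prf T Γ φ → Prf T Γ ψ
  | raa {Γ : List Fm} {φ : Fm} : Prf T (φ.neg :: Γ) .bot → Prf T Γ φ
  | allNI {Γ : List Fm} {φ : Fm} : Prf T (Γ.map Fm.upN) φ → Prf T Γ φ.allN
  | allNE {Γ : List Fm} {φ : Fm} (t : Tm) : Prf T Γ φ.allN → Prf T Γ (φ.instN t)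
  | allSI {Γ : List Fm} {φ : Fm} : Prf T (Γ.map Fm.upS) φ → Prf T Γ φ.allS
  | allSE {Γ : List Fm} {φ : Fm} (j : ℕ) : Prf T Γ φ.allS → Prf T Γ (φ.instS j)
  | refl {Γ : List Fm} (t : Tm) : Prf T Γ (.eq t t)
  | rewr {Γ : List Fm} {φ : Fm} {s t : Tm} :
      Prf T Γ (.eq s t) → Prf T Γ (φ.instN s) → Prf T Γ (φ.instN t)

/-- Bounded quantifier formulas. -/
inductive D0 : Fm → Prop
  | eq (s t : Tm) : D0 (.eq s t)
  | lt (s t : Tm) : D0 (.lt s t)
  | mem (t : Tm) (j : ℕ) : D0 (.mem t j)
  | bot : D0 .bot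
  | imp {φ ψ : Fm} : D0 φ → D0 ψ → D0 (φ.imp ψ)
  | ball (t : Tm) {φ : Fm} : D0 φ → D0 ((Fm.lt (.var 0) t.up).imp φ).allN
  | bex (t : Tm) {φ : Fm} : D0 φ → D0 ((Fm.lt (.var 0) t.up).and φ).exN

/-- Arithmetical formulas: no set quantifiers. -/
inductive Arith : Fm → Prop
  | eq (s t : Tm) : Arith (.eq s t)
  | lt (s t : Tm) : Arith (.lt s t)
  | mem (t : Tm) (j : ℕ) : Arith (.mem t j)
  | bot : Arith .bot
  | imp {φ ψ : Fm} : Arith φ → Arith ψ → Arith (φ.imp ψ)
  | allN {φ : Fm} : Arith φ → Arith φ.allN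

/-- Universal set quantifiers in front of an arithmetical formula. -/
inductive Pi11 : Fm → Prop
  | arith {φ : Fm} : Arith φ → Pi11 φ
  | allS {φ : Fm} : Pi11 φ → Pi11 φ.allS

/-- The induction statement for `φ` in the number variable `0`. -/
def indAx (φ : Fm) : Fm :=
  ((φ.instN .zero).and
    (φ.imp (φ.subst (cons (.add (.var 0) .one) fun i => .var (i + 1)) id)).allN).imp φ.allN

/-- If `φ` and `ψ` are equivalent then they define a set. -/
def caAx (φ ψ : Fm) : Fm := (φ.iff ψ).allN.imp ((Fm.mem (.var 0) 0).iff φ.upS).allN.exS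

/-- The eight basic axioms, existential induction and recursive comprehension. -/
def RCA0 : Set Fm :=
  {(Fm.eq (.add (.var 0) .one) .zero).neg,
    (Fm.eq (.add (.var 0) .one) (.add (.var 1) .one)).imp (.eq (.var 0) (.var 1)),
    .eq (.add (.var 0) .zero) (.var 0),
    .eq (.add (.var 0) (.add (.var 1) .one)) (.add (.add (.var 0) (.var 1)) .one),
    .eq (.mul (.var 0) .zero) .zero,
    .eq (.mul (.var 0) (.add (.var 1) .one)) (.add (.mul (.var 0) (.var 1)) (.var 0)),
    (Fm.lt (.var 0) .zero).neg,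
    (Fm.lt (.var 0) (.add (.var 1) .one)).iff ((Fm.lt (.var 0) (.var 1)).or (.eq (.var 0) (.var 1)))}
  ∪ {φ | ∃ θ, D0 θ ∧ φ = indAx θ.exN}
  ∪ {φ | ∃ θ η, D0 θ ∧ D0 η ∧ φ = caAx θ.exN η.allN}

/-- Induction for existential-universal formulas. -/
def IS2 : Set Fm := {φ | ∃ θ, D0 θ ∧ φ = indAx θ.allN.exN}

/-! Formulas are written with ordinary binders: a term is given as a function of the number of
enclosing number quantifiers, a set variable as a function of the number of enclosing set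
quantifiers, a formula as a function of both. -/

abbrev TB : Type := ℕ → Tm
abbrev SB : Type := ℕ → ℕ
abbrev FB : Type := ℕ → ℕ → Fm

def T1 : TB := fun _ => .one
def Numeral : ℕ → TB
  | 0 => fun _ => .zero
  | k + 1 => fun d => .add (Numeral k d) .one
def Plus (s t : TB) : TB := fun d => .add (s d) (t d)
def Times (s t : TB) : TB := fun d => .mul (s d) (t d)
def Pair (s t : TB) : TB := Plus (Times (Plus s t) (Plus s t)) s

def Equ (s t : TB) : FB := fun d _ => .eq (s d) (t d)
def Less (s t : TB) : FB := fun d _ => .lt (s d) (t d)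
def Elt (t : TB) (X : SB) : FB := fun d e => .mem (t d) (X e)
def Imp (φ ψ : FB) : FB := fun d e => (φ d e).imp (ψ d e)
def Conj (φ ψ : FB) : FB := fun d e => (φ d e).and (ψ d e)
def Disj (φ ψ : FB) : FB := fun d e => (φ d e).or (ψ d e)
def Eqv (φ ψ : FB) : FB := fun d e => (φ d e).iff (ψ d e)
def All (f : TB → FB) : FB := fun d e => (f (fun d' => .var (d' - (d + 1))) (d + 1) e).allN
def Ex (f : TB → FB) : FB := fun d e => (f (fun d' => .var (d' - (d + 1))) (d + 1) e).exN
def AllS (f : SB → FB) : FB := fun d e => (f (fun e' => e' - (e + 1)) d (e + 1)).allS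
def ExS (f : SB → FB) : FB := fun d e => (f (fun e' => e' - (e + 1)) d (e + 1)).exS
def Leq (s t : TB) : FB := Disj (Less s t) (Equ s t)

/-- `x` belongs to the finite set with code `c = (k, (m, n))`: `x < k` and `m (x + 1) + 1`
divides `n`. -/
def FinElt (x c : TB) : FB :=
  Ex fun k => Ex fun m => Ex fun n => Conj (Equ c (Pair k (Pair m n))) <| Conj (Less x k) <|
    Ex fun q => Equ n (Times (Plus (Times m (Plus x T1)) T1) q)

/-- The finite set with code `X` has exactly `w` elements. -/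
def Card (X w : TB) : FB :=
  Ex fun b =>
    Conj (All fun i => Imp (Less i w) <| Ex fun x => Conj (FinElt x X) (FinElt (Pair i x) b)) <|
    Conj (All fun x => Imp (FinElt x X) <| Ex fun i => Conj (Less i w) (FinElt (Pair i x) b)) <|
    All fun i => All fun i' => All fun x => All fun x' =>
      Imp (FinElt (Pair i x) b) <| Imp (FinElt (Pair i' x') b) <| Eqv (Equ i i') (Equ x x')

/-- The relation `g` assigns to the pair `x < y` exactly one colour, lying in `1, ..., k`. -/
def Col (g : TB → FB) (k x y : TB) : FB :=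
  Ex fun j => Conj (Leq T1 j) <| Conj (Leq j k) <| Conj (g (Pair (Pair x y) j)) <|
    All fun j' => Imp (g (Pair (Pair x y) j')) (Equ j' j)

/-- The arrow relation for pairs and `k` colours. -/
def Arr (w m k : TB) : FB :=
  All fun X => All fun g => Imp (Card X w) <|
    Imp (All fun x => All fun y => Imp (FinElt x X) <| Imp (FinElt y X) <| Imp (Less x y) <|
      Col (fun u => FinElt u g) k x y) <|
    Ex fun H => Conj (All fun x => Imp (FinElt x H) (FinElt x X)) <| Conj (Card H m) <|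
      Ex fun j => All fun x => All fun y => Imp (FinElt x H) <| Imp (FinElt y H) <|
        Imp (Less x y) (FinElt (Pair (Pair x y) j) g)

/-- The packed Ramsey theorem for pairs and `k` colours. -/
def PRT (k : ℕ) : Fm :=
  (AllS fun Φ => AllS fun F =>
    Imp (All fun w => Ex fun m => Conj (Elt (Pair w m) Φ) <|
      All fun m' => Imp (Elt (Pair w m') Φ) (Equ m' m)) <|
    Imp (All fun w => All fun m => Imp (Elt (Pair w m) Φ) (Arr w m (Plus (Numeral k) T1))) <|
    Imp (All fun x => All fun y => Imp (Less x y) <| Col (fun u => Elt u F) (Numeral k) x y) <|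
    ExS fun H =>
      Conj (All fun u => Ex fun w => Conj (Leq u w) <| Ex fun m => Conj (Elt (Pair w m) Φ) <|
        Ex fun E => Conj (All fun x => Imp (FinElt x E) <|
          Conj (Elt x H) <| Conj (Leq T1 x) (Leq x w)) (Card E m)) <|
      Ex fun c => Ex fun d => All fun x => All fun y => Imp (Elt x H) <| Imp (Elt y H) <|
        Imp (Less x y) <| Disj (Elt (Pair (Pair x y) c) F) (Elt (Pair (Pair x y) d) F)) 0 0

/-- Structures for the two-sorted language. -/
structure Str : Type 1 where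
  M : Type
  zero : M
  one : M
  add : M → M → M
  mul : M → M → M
  lt : M → M → Prop
  S : Set (Set M)

/-- Value of a term. -/
def Tm.eval (A : Str) (v : ℕ → A.M) : Tm → A.M
  | .var i => v i
  | .zero => A.zero
  | .one => A.one
  | .add s t => A.add (s.eval A v) (t.eval A v)
  | .mul s t => A.mul (s.eval A v) (t.eval A v)

/-- Satisfaction. -/
def Fm.eval (A : Str) : Fm → (ℕ → A.M) → (ℕ → Set A.M) → Prop
  | .eq s t, v, _ => s.eval A v = t.eval A v
  | .lt s t, v, _ => A.lt (s.eval A v) (t.eval A v)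
  | .mem t j, v, ρ => t.eval A v ∈ ρ j
  | .bot, _, _ => False
  | .imp φ ψ, v, ρ => φ.eval A v ρ → ψ.eval A v ρ
  | .allN φ, v, ρ => ∀ x, φ.eval A (cons x v) ρ
  | .allS φ, v, ρ => ∀ X ∈ A.S, φ.eval A v (cons X ρ)

/-- Truth under all assignments. -/
def Str.Valid (A : Str) (φ : Fm) : Prop :=
  ∀ (v : ℕ → A.M) (ρ : ℕ → Set A.M), (∀ j, ρ j ∈ A.S) → φ.eval A v ρ

end Pool.Agent.Lib.MP_706ff3_lc
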