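import Pool.Agent.Lib.MP_706ff3_lc.Forcing

/-!
The packed Ramsey theorem for pairs holds in a good extension of every countable good family.
-/

set_option autoImplicit false
set_option linter.unusedSectionVars false

namespace Pool.Agent.Lib.MP_706ff3_lc

open Classical

variable {M : Type} [PA M]

def IsFun (Φ : M → Prop) : Prop := ∀ w, ∃ m, Φ (pr w m) ∧ ∀ m', Φ (pr w m') → m' = m

def IsCol (k : M) (F : M → Prop) : Prop :=
  ∀ x y, x < y → ∃ j, 1 ≤ j ∧ j ≤ k ∧ F (pr (pr x y) j) ∧ ∀ j', F (pr (pr x y) j') → j' = j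

def CardW (X w b : M) : Prop :=
  (∀ i, i < w → ∃ x, mem x X ∧ mem (pr i x) b) ∧ (∀ x, mem x X → ∃ i, i < w ∧ mem (pr i x) b) ∧
    ∀ i i' x x', mem (pr i x) b → mem (pr i' x') b → (i = i' ↔ x = x')

def CardEq (X w : M) : Prop := ∃ b, CardW X w b

def Arrow (w m k : M) : Prop :=
  ∀ X g, CardEq X w → (∀ x y, mem x X → mem y X → x < y → ∃ j, 1 ≤ j ∧ j ≤ k ∧
      mem (pr (pr x y) j) g ∧ ∀ j', mem (pr (pr x y) j') g → j' = j) →
    ∃ H, (∀ x, mem x H → mem x X) ∧ CardEq H m ∧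
      ∃ j, ∀ x y, mem x H → mem y H → x < y → mem (pr (pr x y) j) g

def Packed (H Φ : M → Prop) : Prop :=
  ∀ u, ∃ w, u ≤ w ∧ ∃ m, Φ (pr w m) ∧ ∃ E, (∀ x, mem x E → H x ∧ 1 ≤ x ∧ x ≤ w) ∧ CardEq E m

def SemiHom (H F : M → Prop) : Prop :=
  ∃ c d, ∀ x y, H x → H y → x < y → F (pr (pr x y) c) ∨ F (pr (pr x y) d)

theorem le_natCast {k : ℕ} {y : M} (h : y ≤ (k : M)) : ∃ i ≤ k, y = (i : M) := by
  induction k with
  | zero => exact ⟨0, le_rfl, by simpa using h⟩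
  | succ k ih =>
    rcases h.lt_or_eq with h1 | h1
    · rw [Nat.cast_succ, lt_succ_iff'] at h1
      obtain ⟨i, hi, h2⟩ := ih h1
      exact ⟨i, by omega, h2⟩
    · exact ⟨k + 1, le_rfl, h1⟩

theorem exists_common_bound {k : ℕ} {P : ℕ → M → Prop} (hm : ∀ i t t', t ≤ t' → P i t → P i t')
    (h : ∀ i < k, ∃ t, P i t) : ∃ t, ∀ i < k, P i t := by
  induction k with
  | zero => exact ⟨0, by simp⟩
  | succ k ih =>
    obtain ⟨t, ht⟩ := ih fun i hi => h i (by omega)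
    obtain ⟨t', ht'⟩ := h k (by omega)
    refine ⟨max t t', fun i hi => ?_⟩
    rcases Nat.lt_succ_iff_lt_or_eq.1 hi with h1 | rfl
    · exact hm _ _ _ (le_max_left _ _) (ht i h1)
    · exact hm _ _ _ (le_max_right _ _) ht'

/-- Blocks above `n`. -/
def Blk (φ : M → M) (f : M × M → M) (k n E s : M) : Prop :=
  n ≤ p1 s ∧ (∃ x, mem x E ∧ True) ∧ (∀ x, mem x E → n ≤ x ∧ 1 ≤ x ∧ x ≤ p1 s) ∧
    CardW E (φ (p1 s)) (p2 s) ∧ ∃ j ≤ k, ∀ x, mem x E → ∀ y, mem y E → x < y → f (x, y) = j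

theorem Blk.mono {φ : M → M} {f : M × M → M} {k n n' E s : M} (h : Blk φ f k n E s)
    (hn : n' ≤ n) : Blk φ f k n' E s :=
  ⟨hn.trans h.1, h.2.1, fun x hx => ⟨hn.trans (h.2.2.1 x hx).1, (h.2.2.1 x hx).2⟩, h.2.2.2⟩

variable [IM M]

theorem CardEq.sub {X q m : M} (h : CardEq X q) (hm : m ≤ q) :
    ∃ E, (∀ x, mem x E → mem x X) ∧ CardEq E m := by
  obtain ⟨S, hS⟩ := IM.ex (M := M)
  obtain ⟨b, h1, -, h3⟩ := h
  obtain ⟨E, hE⟩ := Rec.coded_of_bdd (S := S) (Y := fun x => mem x X ∧ ∃ i < m, mem (pr i x) b)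
    (by fun_prop) (t := X) fun x hx => mem_lt hx.1
  refine ⟨E, fun x hx => ((hE x).1 hx).1, b, fun i hi => ?_, fun x hx => ((hE x).1 hx).2, h3⟩
  obtain ⟨x, h4, h5⟩ := h1 i (hi.trans_le hm)
  exact ⟨x, (hE x).2 ⟨h4, i, hi, h5⟩, h5⟩

theorem small_lt_blk {φ : M → M} {f : M × M → M} {k : M} (m : M) :
    Small (fun _ => True) (Blk φ f k) (fun x => x < m) := by
  obtain ⟨S, hS⟩ := IM.ex (M := M)
  obtain ⟨L, hL⟩ := exists_single_code (pr m 0)
  obtain ⟨ρ, hρ⟩ := Rec.coded (S := S) (Y := fun v => p2 v < m) (by fun_prop) (pr L m)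
  refine ⟨L, fun _ _ => trivial, fun w => ⟨ρ, fun x _ hx => ⟨_, (hL _).2 rfl, (hρ _).2
    ⟨pr_lt_pr (mem_lt ((hL _).2 rfl)) hx.le, by simpa using hx⟩⟩, ?_⟩⟩
  intro l hl E _ s _ hE hB
  rw [(hL l).1 hl, p1_pr] at hB
  obtain ⟨x, hx, -⟩ := hB.2.1
  have := ((hρ _).1 (hE x hx)).2
  rw [p2_pr] at this
  exact absurd this (not_lt.2 (hB.2.2.1 x hx).1)

variable {S : Set (M → Prop)} [Good S]

@[fun_prop] theorem rec_cardW {α : Type} [Cd M α] {X w b : α → M} (hX : Rec S X) (hw : Rec S w)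
    (hb : Rec S b) : Rec S (fun a => CardW (X a) (w a) (b a)) := by
  have : Rec S (fun a => (∀ i, i < w a → ∃ x, mem x (X a) ∧ mem (pr i x) (b a)) ∧
      (∀ x, mem x (X a) → ∃ i, i < w a ∧ mem (pr i x) (b a)) ∧
      ∀ i < b a, ∀ i' < b a, ∀ x < b a, ∀ x' < b a, mem (pr i x) (b a) → mem (pr i' x') (b a) →
        (i = i' ↔ x = x')) := by fun_prop
  refine this.of_iff fun a => and_congr_right fun _ => and_congr_right fun _ => ⟨?_, ?_⟩
  · intro h i i' x x' h1 h2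
    exact h i ((le_pr_left _ _).trans_lt (mem_lt h1)) i' ((le_pr_left _ _).trans_lt (mem_lt h2))
      x ((le_pr_right _ _).trans_lt (mem_lt h1)) x' ((le_pr_right _ _).trans_lt (mem_lt h2)) h1 h2
  · intro h i _ i' _ x _ x' _ h1 h2
    exact h i i' x x' h1 h2

theorem rec_blk {φ : M → M} {f : M × M → M} (hφ : Rec S φ) (hf : Rec S f) (k : M) :
    Rec S (fun p : M × M × M => Blk φ f k p.1 p.2.1 p.2.2) := by
  unfold Blk; fun_prop

theorem Arrow.apply {w m k : M} (h : Arrow w m k) {g : M × M → M} (hg : Rec S g)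
    (hg' : ∀ x y, x < y → 1 ≤ g (x, y) ∧ g (x, y) ≤ k) :
    ∃ H, (∀ x, mem x H → 1 ≤ x ∧ x ≤ w) ∧ CardEq H m ∧
      ∃ j, ∀ x y, mem x H → mem y H → x < y → g (x, y) = j := by
  obtain ⟨X, hX⟩ := reg_le (1 : M) (w + 1)
  obtain ⟨b, hb⟩ := Rec.coded (S := S) (Y := fun u => p2 u = p1 u + 1) (by fun_prop)
    (pr w (w + 1))
  obtain ⟨c, hc⟩ := Rec.coded (S := S) (Y := fun u => p2 u = g (p1 (p1 u), p2 (p1 u)))
    (by fun_prop) (pr (pr (w + 1) (w + 1)) k)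
  obtain ⟨H, h1, h2, j, h3⟩ := h X c ⟨b, fun i hi => ⟨i + 1, (hX _).2
    ⟨by gcongr, le_add_self⟩, (hb _).2 ⟨pr_lt_pr hi (by gcongr), by simp⟩⟩, fun x hx => by
      obtain ⟨h1, h2⟩ := (hX x).1 hx
      obtain ⟨i, rfl⟩ := exists_add_of_le h2
      have h3 : i < w := by
        rw [add_comm] at h1; exact lt_of_add_lt_add_right h1
      exact ⟨i, h3, (hb _).2 ⟨pr_lt_pr h3 h1.le, by simp [add_comm]⟩⟩, fun i i' x x' h1 h2 => by
      have h3 := ((hb _).1 h1).2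
      have h4 := ((hb _).1 h2).2
      simp only [p1_pr, p2_pr] at h3 h4
      rw [h3, h4]; simp⟩ (fun x y hx hy hxy => ⟨g (x, y), (hg' x y hxy).1, (hg' x y hxy).2,
      (hc _).2 ⟨pr_lt_pr (pr_lt_pr ((hX x).1 hx).1 ((hX y).1 hy).1.le) (hg' x y hxy).2, by simp⟩,
      fun j' hj' => by simpa using ((hc _).1 hj').2⟩)
  refine ⟨H, fun x hx => ?_, h2, j, fun x y hx hy hxy => ?_⟩
  · have := (hX x).1 (h1 x hx)
    exact ⟨this.2, lt_succ_iff'.1 this.1⟩
  · have := ((hc _).1 (h3 x y hx hy hxy)).2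
    simp only [p1_pr, p2_pr] at this
    exact this.symm

theorem large_univ {φ : M → M} {f : M × M → M} (hf : Rec S f) {k : M}
    (hf' : ∀ x y, x < y → 1 ≤ f (x, y) ∧ f (x, y) ≤ k) (harr : ∀ w, Arrow w (φ w) (k + 1))
    (hunb : ∀ t, ∃ w, t < φ w) : ¬ Small (fun _ => True) (Blk φ f k) (fun _ => True) := by
  rintro ⟨L, -, hL⟩
  obtain ⟨w, hw⟩ := hunb (L + L)
  obtain ⟨ρ, h1, h2⟩ := hL (bnd (w + 1) + pr w (bnd (pr (φ w) (w + 1))) + 1)
  obtain ⟨lab, hlab, h3⟩ := Rec.skolem (S := S)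
    (P := fun x l : M => x ≤ w → mem l L ∧ mem (pr l x) ρ) (by fun_prop) (by
      intro x
      by_cases hx : x ≤ w
      · obtain ⟨l, hl⟩ := h1 x (lt_succ_iff'.2 (hx.trans ((le_pr_left _ _).trans le_add_self)))
          trivial
        exact ⟨l, fun _ => hl⟩
      · exact ⟨0, fun h => absurd h hx⟩)
  obtain ⟨H, h4, ⟨b, h5, h6, h7⟩, j, h8⟩ := (harr w).apply (S := S)
    (g := fun p => if L ≤ p.1 ∧ L ≤ p.2 ∧ lab p.1 = lab p.2 then f p else k + 1) (by fun_prop) (by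
      intro x y hxy
      dsimp only
      split_ifs
      · exact ⟨(hf' x y hxy).1, (hf' x y hxy).2.trans le_self_add⟩
      · exact ⟨le_add_self, le_rfl⟩)
  obtain ⟨x, x', hx, hx', hxx, h9⟩ : ∃ x x', mem x H ∧ mem x' H ∧ x < x' ∧
      L ≤ x ∧ L ≤ x' ∧ lab x = lab x' := by
    by_contra hn
    refine absurd (Rec.php (S := S) (q := φ w) (r := L + L) (R := fun i v => ∃ x, mem x H ∧
      mem (pr i x) b ∧ v = if x < L then x else L + lab x) (by fun_prop) ?_ ?_) (not_le.2 hw)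
    · intro i hi
      obtain ⟨x, h9, h10⟩ := h5 i hi
      refine ⟨_, ?_, x, h9, h10, rfl⟩
      split_ifs with h11
      · exact h11.trans_le le_self_add
      · have := mem_lt (h3 x (h4 x h9).2).1
        gcongr
    · rintro i _ i' _ v _ ⟨x, h9, h10, h11⟩ ⟨x', h12, h13, h14⟩
      rw [h7 i i' x x' h10 h13]
      rw [h11] at h14
      by_cases h15 : x < L <;> by_cases h16 : x' < L <;> simp only [h15, h16, if_true, if_false]
        at h14
      · exact h14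
      · exact absurd h15 (not_lt.2 (h14 ▸ le_self_add))
      · exact absurd h16 (not_lt.2 (h14 ▸ le_self_add))
      · have h17 := add_left_cancel h14
        rcases lt_trichotomy x x' with h18 | h18 | h18
        · exact absurd ⟨x, x', h9, h12, h18, not_lt.1 h15, not_lt.1 h16, h17⟩ hn
        · exact h18
        · exact absurd ⟨x', x, h12, h9, h18, not_lt.1 h16, not_lt.1 h15, h17.symm⟩ hn
  have hj : j ≤ k := by
    have := h8 x x' hx hx' hxx
    simp only [h9, and_self, if_true] at this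
    exact this ▸ (hf' x x' hxx).2
  have h10 : ∀ y y', mem y H → mem y' H → y < y' →
      (L ≤ y ∧ L ≤ y' ∧ lab y = lab y') ∧ f (y, y') = j := by
    intro y y' hy hy' hyy
    have := h8 y y' hy hy' hyy
    dsimp only at this
    split_ifs at this with h10
    · exact ⟨h10, this⟩
    · exact absurd (this ▸ hj) (not_le.2 (lt_succ_self' k))
  have h11 : ∀ z, mem z H → L ≤ z ∧ lab z = lab x := by
    intro z hz
    rcases lt_trichotomy z x with h | rfl | h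
    · exact ⟨(h10 z x hz hx h).1.1, (h10 z x hz hx h).1.2.2⟩
    · exact ⟨h9.1, rfl⟩
    · exact ⟨(h10 x z hx hz h).1.2.1, (h10 x z hx hz h).1.2.2.symm⟩
  have hE : ∀ z, mem z (res (fun z => mem z H) (w + 1)) ↔ mem z H := fun z => by
    rw [mem_res_mem]; exact ⟨fun h => h.2, fun h => ⟨lt_succ_iff'.2 (h4 z h).2, h⟩⟩
  have hl := (h3 x (h4 x hx).2).1
  have hl' : p1 (lab x) ≤ L := (p1_le _).trans (mem_lt hl).le
  refine h2 (lab x) hl (res (fun z => mem z H) (w + 1))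
    (lt_succ_iff'.2 (((reg_mem H).res_lt_bnd _).le.trans le_self_add))
    (pr w (res (fun u => mem u b) (pr (φ w) (w + 1))))
    (lt_succ_iff'.2 ((pr_le_pr le_rfl ((reg_mem b).res_lt_bnd _).le).trans le_add_self))
    (fun z hz => ?_) ?_
  · rw [hE] at hz
    rw [← (h11 z hz).2]
    exact (h3 z (h4 z hz).2).2
  · unfold Blk CardW
    simp only [p1_pr, p2_pr, hE, mem_res_mem]
    refine ⟨hl'.trans (h9.1.trans (h4 x hx).2), ⟨x, hx, trivial⟩,
      fun z hz => ⟨hl'.trans (h11 z hz).1, h4 z hz⟩, ⟨fun i hi => ?_, fun z hz => ?_,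
        fun i i' z z' h12 h13 => h7 i i' z z' h12.2 h13.2⟩, j, hj,
      fun y hy y' hy' hyy => (h10 y y' hy hy' hyy).2⟩
    · obtain ⟨z, hz, h12⟩ := h5 i hi
      exact ⟨z, hz, pr_lt_pr hi ((h4 z hz).2.trans le_self_add), h12⟩
    · obtain ⟨i, hi, h12⟩ := h6 z hz
      exact ⟨i, hi, pr_lt_pr hi ((h4 z hz).2.trans le_self_add), h12⟩

theorem thin_out {φ : M → M} {f : M × M → M} (hφ : Rec S φ) (hf : Rec S f) {k c d : M}
    {G : M → Prop} (hG : Rec S G)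
    (hd : ∀ x, G x → ∃ y0, ∀ y, y0 ≤ y → G y → x < y → f (x, y) = d)
    (hc : ∀ m, ∃ E s, (∀ x, mem x E → G x) ∧ Blk φ f k m E s ∧
      ∀ x, mem x E → ∀ y, mem y E → x < y → f (x, y) = c) :
    ∃ H, Rec S H ∧ (∀ u, ∃ E s, (∀ x, mem x E → H x) ∧ Blk φ f k u E s) ∧
      ∀ x y, H x → H y → x < y → f (x, y) = c ∨ f (x, y) = d := by
  have hB := rec_blk hφ hf k
  obtain ⟨sk, hsk, h1⟩ := Rec.skolem (S := S) (P := fun u v : M => (∀ x, mem x u → G x) →
      (∀ x, mem x (p1 v) → G x) ∧ (fun p : M × M × M => Blk φ f k p.1 p.2.1 p.2.2) (u, p1 v, p2 v) ∧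
      (∀ x, mem x (p1 v) → ∀ y, mem y (p1 v) → x < y → f (x, y) = c) ∧
      ∀ x, mem x u → ∀ y, mem y (p1 v) → f (x, y) = d) (by fun_prop) (by
    intro u
    by_cases hu : ∀ x, mem x u → G x
    · obtain ⟨b, hb⟩ := Pi1.coll (S := S) (a := u)
        (R := fun x y0 => ∀ y, mem x u → y0 ≤ y → G y → x < y → f (x, y) = d)
        (Pi1.forall (Rec.pi1 (by fun_prop))) (by
          intro x _
          by_cases hx : mem x u
          · obtain ⟨y0, hy0⟩ := hd x (hu x hx)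
            exact ⟨y0, fun y _ => hy0 y⟩
          · exact ⟨0, fun y h => absurd h hx⟩)
      obtain ⟨E, s, h1, h2, h3⟩ := hc (max u b)
      refine ⟨pr E s, fun _ => ?_⟩
      simp only [p1_pr, p2_pr]
      refine ⟨h1, h2.mono (le_max_left _ _), h3, fun x hx y hy => ?_⟩
      obtain ⟨y0, h4, h5⟩ := hb x (mem_lt hx)
      have h6 := (h2.2.2.1 y hy).1
      exact h5 y hx (h4.le.trans ((le_max_right _ _).trans h6)) (h1 y hy)
        ((mem_lt hx).trans_le ((le_max_left _ _).trans h6))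
    · exact ⟨0, fun h => absurd h hu⟩)
  obtain ⟨e, he⟩ := exists_empty_code (M := M)
  obtain ⟨it, hit, h2, h3⟩ := Rec.iter (S := S)
    (h := fun u => res (fun x => mem x u ∨ mem x (p1 (sk u))) (u + p1 (sk u))) (by fun_prop) e
  have h4 : ∀ n x, mem x (it (n + 1)) ↔ mem x (it n) ∨ mem x (p1 (sk (it n))) := by
    intro n x
    rw [h3, ((reg_mem _).or (reg_mem _)).mem_res]
    refine ⟨fun h => h.2, fun h => ⟨?_, h⟩⟩
    rcases h with h | h
    · exact (mem_lt h).trans_le le_self_add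
    · exact (mem_lt h).trans_le le_add_self
  have hinv : ∀ n, (∀ x, mem x (it n) → G x) ∧
      ∀ x, mem x (it n) → ∀ y, mem y (it n) → x < y → f (x, y) = c ∨ f (x, y) = d := by
    refine Rec.ind (S := S) (by fun_prop) ?_ ?_
    · rw [h2]; exact ⟨fun x hx => absurd hx (he x), fun x hx => absurd hx (he x)⟩
    · rintro n ⟨h5, h6⟩
      obtain ⟨h7, h8, h9, h10⟩ := h1 (it n) h5
      simp only [h4]
      refine ⟨fun x hx => hx.elim (h5 x) (h7 x), ?_⟩
      rintro x (hx | hx) y (hy | hy) hxy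
      · exact h6 x hx y hy hxy
      · exact Or.inr (h10 x hx y hy)
      · exact absurd (hxy.trans (mem_lt hy)) (not_lt.2 (h8.2.2.1 x hx).1)
      · exact Or.inl (h9 x hx y hy hxy)
  have hlt : ∀ n, it n < it (n + 1) := by
    intro n
    obtain ⟨-, h8, -⟩ := h1 (it n) (hinv n).1
    obtain ⟨x, hx, -⟩ := h8.2.1
    exact (h8.2.2.1 x hx).1.trans_lt (mem_lt ((h4 n x).2 (Or.inr hx)))
  have hge : ∀ n, n ≤ it n :=
    Rec.ind (S := S) (by fun_prop) zero_le fun n hn => succ_le_iff'.2 (hn.trans_lt (hlt n))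
  have hK : ∀ n x j, it n ≤ it (n + j) ∧ (mem x (it n) → mem x (it (n + j))) ∧
      (mem x (it (n + j)) → x < it n → mem x (it n)) := by
    intro n x
    refine Rec.ind (S := S) (by fun_prop) (by rw [add_zero]; exact ⟨le_rfl, id, fun h _ => h⟩) ?_
    rintro j ⟨h5, h6, h7⟩
    rw [← add_assoc]
    refine ⟨h5.trans (hlt _).le, fun h => (h4 _ _).2 (Or.inl (h6 h)), fun h8 h9 => ?_⟩
    rcases (h4 _ _).1 h8 with h10 | h10
    · exact h7 h10 h9
    · obtain ⟨-, h11, -⟩ := h1 (it (n + j)) (hinv _).1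
      exact absurd h9 (not_lt.2 (h5.trans (h11.2.2.1 x h10).1))
  have hH : ∀ n x, mem x (it n) → mem x (it (x + 1)) := by
    intro n x hx
    rcases le_total n (x + 1) with h | h
    · obtain ⟨j, hj⟩ := exists_add_of_le h
      rw [hj]; exact (hK n x j).2.1 hx
    · obtain ⟨j, rfl⟩ := exists_add_of_le h
      exact (hK (x + 1) x j).2.2 hx ((lt_succ_self' x).trans_le (hge _))
  refine ⟨fun x => mem x (it (x + 1)), by fun_prop, fun u => ?_, fun x y hx hy hxy => ?_⟩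
  · obtain ⟨-, h8, -⟩ := h1 (it u) (hinv u).1
    exact ⟨_, _, fun x hx => hH (u + 1) x ((h4 u x).2 (Or.inr hx)), h8.mono (hge u)⟩
  · obtain ⟨j, hj⟩ := exists_add_of_le (show x + 1 ≤ y + 1 by gcongr)
    exact (hinv (y + 1)).2 x (by rw [hj]; exact (hK _ x j).2.1 hx) y hy hxy

theorem prt_step [Countable M] (k : ℕ) (T : Set (M → Prop)) (hT : Good T) (hc : T.Countable)
    (Φ : M → Prop) (hΦ : Φ ∈ T) (F : M → Prop) (hF : F ∈ T)
    (h : IsFun Φ ∧ (∀ w m, Φ (pr w m) → Arrow w m ((k : M) + 1)) ∧ IsCol (k : M) F) :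
    ∃ T', Good T' ∧ T'.Countable ∧ T ⊆ T' ∧ ∃ H ∈ T', Packed H Φ ∧ SemiHom H F := by
  obtain ⟨h1, h2, h3⟩ := h
  have hΦ' : Rec T Φ := rec_iff_mem.2 hΦ
  have hF' : Rec T F := rec_iff_mem.2 hF
  obtain ⟨φ, hφ, h4⟩ := Rec.skolem (S := T) (P := fun w m : M => Φ (pr w m)) (by fun_prop)
    fun w => (h1 w).imp fun _ h => h.1
  obtain ⟨f, hf, h5⟩ := Rec.skolem (S := T) (P := fun (p : M × M) (j : M) => p.1 < p.2 →
    1 ≤ j ∧ j ≤ (k : M) ∧ F (pr (pr p.1 p.2) j)) (by fun_prop) (by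
      rintro ⟨x, y⟩
      by_cases hxy : x < y
      · obtain ⟨j, h5, h6, h7, -⟩ := h3 x y hxy
        exact ⟨j, fun _ => ⟨h5, h6, h7⟩⟩
      · exact ⟨0, fun h => absurd h hxy⟩)
  have hf' : ∀ x y, x < y → 1 ≤ f (x, y) ∧ f (x, y) ≤ k :=
    fun x y h => ⟨(h5 (x, y) h).1, (h5 (x, y) h).2.1⟩
  have harr : ∀ w, Arrow w (φ w) ((k : M) + 1) := fun w => h2 w _ (h4 w)
  by_cases hunb : ∀ t, ∃ w, t < φ w
  · obtain ⟨T1, g1, c1, s1, w1⟩ := exists_wkl_ext T hT hc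
    obtain ⟨-, -, C, hC1, -, hC2, hC3⟩ := lemmaG c1 w1 1 (fun _ _ => True)
      (fun _ _ => Sig2.const True) (fun _ => ⟨0, one_pos, trivial⟩)
      ⟨fun _ => True, fun _ => True, Blk φ f k, Rec.const True, Sig2.const True,
        rec_blk (hφ.mono s1) (hf.mono s1) k, large_univ hf hf' harr hunb⟩ small_lt_blk
    obtain ⟨T3, g3, c3, s3, w3⟩ := exists_wkl_ext _ hC1.good (countable_ext c1)
    have s13 : T ⊆ T3 := s1.trans (subset_ext.trans s3)
    have hC : Rec T3 C := rec_iff_mem.2 (s3 (self_mem_ext hC1.reg))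
    have hf3 := hf.mono s13
    obtain ⟨d, -, G, hG1, hG2, hG3, -⟩ := lemmaG c3 w3 (k + 1)
      (fun i x => ∃ y0, ∀ y, y0 ≤ y → C y → x < y → f (x, y) = (i : M))
      (fun i _ => Sig2.exists (Sig2.forall_pi1 (Rec.pi1 (by fun_prop)))) (by
        intro x
        by_contra hn
        have hf1 := hf.mono s1
        obtain ⟨t, ht⟩ := exists_common_bound (k := k + 1)
          (P := fun i t => ∀ y, t ≤ y → C y → x < y → ¬ f (x, y) = (i : M))
          (fun i t t' h6 h7 y hy => h7 y (h6.trans hy)) (by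
            intro i hi
            rcases hC3 (fun y => f (x, y) = (i : M)) (by fun_prop) with ⟨t, ht⟩ | ⟨t, ht⟩
            · exact absurd ⟨i, hi, t, fun y h6 h7 _ => ht y h6 h7⟩ hn
            · exact ⟨t, fun y h6 h7 _ => ht y h6 h7⟩)
        refine hn ⟨0, by omega, t, fun y h6 h7 h8 => ?_⟩
        obtain ⟨i, hi, h9⟩ := le_natCast (hf' x y h8).2
        exact absurd h9 (ht i (by omega) y h6 h7 h8))
      ⟨C, fun _ => True, Blk φ f k, hC, Sig2.const True, rec_blk (hφ.mono s13) hf3 k, hC2⟩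
      small_lt_blk
    have g4 := hG1.good
    have s14 : T ⊆ ext T3 G := s13.trans subset_ext
    obtain ⟨c, hcol⟩ : ∃ c : M, ∀ m, ∃ E s, (∀ x, mem x E → G x) ∧ Blk φ f k m E s ∧
        ∀ x, mem x E → ∀ y, mem y E → x < y → f (x, y) = c := by
      by_contra hn
      obtain ⟨t, ht⟩ := exists_common_bound (k := k + 1)
        (P := fun i m => ¬ ∃ E s, (∀ x, mem x E → G x) ∧ Blk φ f k m E s ∧
          ∀ x, mem x E → ∀ y, mem y E → x < y → f (x, y) = (i : M))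
        (fun i t t' h6 h7 ⟨E, s, h8, h9, h10⟩ => h7 ⟨E, s, h8, h9.mono h6, h10⟩) (by
          intro i _
          by_contra h6
          exact hn ⟨i, fun m => not_not.1 fun h7 => h6 ⟨m, h7⟩⟩)
      obtain ⟨E, s, h6, h7⟩ := good_of_large hG1.reg hG3 (n := t) trivial
      obtain ⟨j, hj, h8⟩ := h7.2.2.2.2
      obtain ⟨i, hi, rfl⟩ := le_natCast hj
      exact ht i (by omega) ⟨E, s, h6, h7, h8⟩
    obtain ⟨H, hH, h6, h7⟩ := thin_out (S := ext T3 G) (hφ.mono s14) (hf.mono s14)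
      (rec_iff_mem.2 (self_mem_ext hG1.reg)) (d := (d : M)) (fun x hx => by
        obtain ⟨y0, hy0⟩ := (hG2 x hx).2
        exact ⟨y0, fun y h6 h7 => hy0 y h6 (hG2 y h7).1⟩) hcol
    refine ⟨_, g4, countable_ext c3, s14, H, rec_iff_mem.1 hH, fun u => ?_,
      c, d, fun x y hx hy hxy => ?_⟩
    · obtain ⟨E, s, h8, h9⟩ := h6 u
      exact ⟨p1 s, h9.1, _, h4 _, E, fun x hx => ⟨h8 x hx, (h9.2.2.1 x hx).2⟩, _, h9.2.2.2.1⟩
    · have := (h5 (x, y) hxy).2.2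
      rcases h7 x y hx hy hxy with h8 | h8
      · exact Or.inl (h8 ▸ this)
      · exact Or.inr (h8 ▸ this)
  · push Not at hunb
    obtain ⟨t, ht⟩ := hunb
    obtain ⟨q, h6, h7⟩ := Sig2.least (S := T) (P := fun t => ∀ w, φ w ≤ t)
      (Sig2.forall_pi1 (Rec.pi1 (by fun_prop))) ht
    obtain ⟨w0, hw0⟩ : ∃ w0, ∀ w, φ w ≤ φ w0 := by
      rcases zero_or_succ q with rfl | ⟨q, rfl⟩
      · exact ⟨0, fun w => (h6 w).trans zero_le⟩
      · have := h7 q (lt_succ_self' q)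
        push Not at this
        obtain ⟨w0, hw0⟩ := this
        exact ⟨w0, fun w => (h6 w).trans (succ_le_iff'.2 hw0)⟩
    obtain ⟨H, h8, h9, j, h10⟩ := (harr w0).apply (S := T)
      (g := f) hf fun x y hxy => ⟨(hf' x y hxy).1, (hf' x y hxy).2.trans le_self_add⟩
    refine ⟨T, hT, hc, le_rfl, fun x => mem x H, rec_iff_mem.1 (by fun_prop), fun u => ?_,
      j, j, fun x y hx hy hxy => Or.inl (h10 x y hx hy hxy ▸ (h5 (x, y) hxy).2.2)⟩
    obtain ⟨E, h11, h12⟩ := h9.sub (hw0 (max u w0))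
    exact ⟨max u w0, le_max_left _ _, _, h4 _, E, fun x hx => ⟨h11 x hx, (h8 x (h11 x hx)).1,
      (h8 x (h11 x hx)).2.trans (le_max_right _ _)⟩, h12⟩

theorem exists_prt_ext [Countable M] (k : ℕ) (T : Set (M → Prop)) (hT : Good T)
    (hc : T.Countable) : ∃ T', Good T' ∧ T ⊆ T' ∧ ∀ Φ ∈ T', ∀ F ∈ T', IsFun Φ →
      (∀ w m, Φ (pr w m) → Arrow w m ((k : M) + 1)) → IsCol (k : M) F →
        ∃ H ∈ T', Packed H Φ ∧ SemiHom H F := by
  obtain ⟨T', h1, -, h2, h3⟩ := exists_closed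
    (fun Φ F => IsFun Φ ∧ (∀ w m, Φ (pr w m) → Arrow w m ((k : M) + 1)) ∧ IsCol (k : M) F)
    (fun Φ F H => Packed H Φ ∧ SemiHom H F) (prt_step k) T hT hc
  exact ⟨T', h1, h2, fun Φ hΦ F hF a b c => h3 Φ hΦ F hF ⟨a, b, c⟩⟩

end Pool.Agent.Lib.MP_706ff3_lc
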