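import Pool.Agent.Lib.MP_706ff3_lc.Bridge
import Pool.Agent.Lib.MP_706ff3_lc.Packed
import Pool.Agent.Lib.MP_706ff3_lc.DefsEq

/-!
The conservation theorem.
-/

set_option autoImplicit false
set_option linter.unusedSectionVars false

namespace Pool.Agent.Lib.MP_706ff3_lc

open Classical

/-- The structure given by a discretely ordered semiring and a family of subsets. -/
@[reducible] def strOf (M : Type) [PA M] (S : Set (M → Prop)) : Str :=
  ⟨M, 0, 1, fun a b => a + b, fun a b => a * b, fun a b => a < b, S⟩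

/-- The pairing term. -/
def prT (s t : Tm) : Tm := .add (.mul (.add s t) (.add s t)) s

variable {M : Type} [PA M] {S : Set (M → Prop)}

theorem mem_of_sd (h : Ax (strOf M S)) {P : (ℕ → M) → Prop} (hP : SD (strOf M S) P) (v : ℕ → M) :
    (fun x => P (cons x v)) ∈ S := by
  obtain ⟨X, hX, e⟩ := h.ca0 hP v
  exact mem_congr hX e

theorem graph_op (h : Ax (strOf M S)) {f g : M → M} {op : M → M → M}
    (hR : SD (strOf M S) fun v => op (v 1) (v 0) = v 2)
    (hf : ∃ Γ ∈ S, ∀ a b, Γ (pr a b) ↔ f a = b) (hg : ∃ Γ ∈ S, ∀ a b, Γ (pr a b) ↔ g a = b) :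
    ∃ Γ ∈ S, ∀ a b, Γ (pr a b) ↔ op (f a) (g a) = b := by
  obtain ⟨Γ, hΓ, e⟩ := hf
  obtain ⟨Γ', hΓ', e'⟩ := hg
  have h1 := SD.mem (A := strOf M S) (prT (.var 3) (.var 1)) hΓ
  have h2 := SD.mem (A := strOf M S) (prT (.var 3) (.var 0)) hΓ'
  have h3 := SD.eq h.ne (.var 3) (prT (.var 1) (.var 0))
  have key : ∀ u : M, (∃ w : M, ∃ x < u + 1, ∃ y < u + 1, u = pr x y ∧ ∃ a < w, ∃ b < w,
      Γ (pr x a) ∧ Γ' (pr x b) ∧ op a b = y) ↔ ∃ x y, u = pr x y ∧ op (f x) (g x) = y := by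
    intro u
    simp only [e, e']
    constructor
    · rintro ⟨w, x, -, y, -, h4, a, -, b, -, rfl, rfl, h5⟩
      exact ⟨x, y, h4, h5⟩
    · rintro ⟨x, y, rfl, h5⟩
      exact ⟨f x + g x + 1, x, lt_succ_iff'.2 (le_pr_left _ _), y, lt_succ_iff'.2 (le_pr_right _ _),
        rfl, f x, lt_succ_iff'.2 le_self_add, g x, lt_succ_iff'.2 le_add_self, rfl, rfl, h5⟩
  obtain ⟨X, hX, e2⟩ := h.ca _ _
    (SD.bex (.add (.var 1) .one) (SD.bex (.add (.var 2) .one) (h3.and
      (SD.bex (.var 2) (SD.bex (.var 3) (h1.and (h2.and hR)))))))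
    (SD.bex (.add (.var 1) .one) (SD.bex (.add (.var 2) .one) (h3.and
      (SD.ball (.var 2) (SD.ball (.var 3) (h1.imp (h2.imp hR))))))) (fun _ => 0) (by
      intro u
      refine (key u).trans ?_
      change _ ↔ ∀ w : M, ∃ x < u + 1, ∃ y < u + 1, u = pr x y ∧ ∀ a < w, ∀ b < w,
        Γ (pr x a) → Γ' (pr x b) → op a b = y
      simp only [e, e']
      constructor
      · rintro ⟨x, y, rfl, h5⟩ w
        exact ⟨x, lt_succ_iff'.2 (le_pr_left _ _), y, lt_succ_iff'.2 (le_pr_right _ _), rfl,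
          by rintro a - b - rfl rfl; exact h5⟩
      · intro h4
        obtain ⟨x, -, y, -, rfl, -⟩ := h4 0
        obtain ⟨x', -, y', -, h5, h6⟩ := h4 (f x + g x + 1)
        obtain ⟨rfl, rfl⟩ := pr_inj h5
        exact ⟨x, y, rfl, h6 _ (lt_succ_iff'.2 le_self_add) _ (lt_succ_iff'.2 le_add_self) rfl rfl⟩)
  refine ⟨X, hX, fun a b => ((e2 (pr a b)).trans (key (pr a b))).trans ?_⟩
  constructor
  · rintro ⟨x, y, h4, h5⟩
    obtain ⟨rfl, rfl⟩ := pr_inj h4
    exact h5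
  · intro h4
    exact ⟨a, b, rfl, h4⟩

theorem sd_nonpair (h : Ax (strOf M S)) :
    SD (strOf M S) fun v => ¬ ∃ a b : M, v 1 = pr a b := by
  refine (SD.bex (.add (.var 1) .one) (SD.bex (.add (.var 2) .one)
    (SD.eq h.ne (.var 3) (prT (.var 1) (.var 0))))).not.of_iff fun v => not_congr ?_
  change (∃ a < v 1 + 1, ∃ b < v 1 + 1, v 1 = pr a b) ↔ _
  constructor
  · rintro ⟨a, -, b, -, h⟩; exact ⟨a, b, h⟩
  · rintro ⟨a, b, h⟩
    exact ⟨a, lt_succ_iff'.2 (h ▸ le_pr_left _ _), b, lt_succ_iff'.2 (h ▸ le_pr_right _ _), h⟩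

theorem graph_basic (h : Ax (strOf M S)) {f : M → M} (hf : Basic f) :
    ∃ Γ ∈ S, ∀ a b, Γ (pr a b) ↔ f a = b := by
  induction hf with
  | id =>
    refine ⟨_, mem_of_sd h (SD.bex (.add (.var 0) .one)
      (SD.eq h.ne (.var 1) (prT (.var 0) (.var 0)))) (fun _ => 0), fun a b => ?_⟩
    change (∃ x < pr a b + 1, pr a b = pr x x) ↔ _
    constructor
    · rintro ⟨x, -, h⟩; obtain ⟨rfl, rfl⟩ := pr_inj h; rfl
    · rintro rfl; exact ⟨a, lt_succ_iff'.2 (le_pr_left _ _), rfl⟩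
  | const c =>
    refine ⟨_, mem_of_sd h (SD.bex (.add (.var 0) .one)
      (SD.eq h.ne (.var 1) (prT (.var 0) (.var 2)))) (fun _ => c), fun a b => ?_⟩
    change (∃ x < pr a b + 1, pr a b = pr x c) ↔ _
    constructor
    · rintro ⟨x, -, h⟩; exact (pr_inj h).2.symm
    · rintro rfl; exact ⟨a, lt_succ_iff'.2 (le_pr_left _ _), rfl⟩
  | p1 _ ih =>
    refine graph_op h (op := fun a _ => p1 a) (((SD.bex (.add (.var 1) .one)
      (SD.eq h.ne (.var 2) (prT (.var 3) (.var 0)))).or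
      ((SD.eq h.ne (.var 2) .zero).and (sd_nonpair h))).of_iff fun v => ?_) ih ih
    rw [p1_eq_iff]
    refine or_congr ?_ Iff.rfl
    change (∃ z < v 1 + 1, v 1 = pr (v 2) z) ↔ _
    exact ⟨fun ⟨z, _, h⟩ => ⟨z, h⟩, fun ⟨z, h⟩ => ⟨z, lt_succ_iff'.2 (h ▸ le_pr_right _ _), h⟩⟩
  | p2 _ ih =>
    refine graph_op h (op := fun a _ => p2 a) (((SD.bex (.add (.var 1) .one)
      (SD.eq h.ne (.var 2) (prT (.var 0) (.var 3)))).or
      ((SD.eq h.ne (.var 2) .zero).and (sd_nonpair h))).of_iff fun v => ?_) ih ih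
    rw [p2_eq_iff]
    refine or_congr ?_ Iff.rfl
    change (∃ z < v 1 + 1, v 1 = pr z (v 2)) ↔ _
    exact ⟨fun ⟨z, _, h⟩ => ⟨z, h⟩, fun ⟨z, h⟩ => ⟨z, lt_succ_iff'.2 (h ▸ le_pr_left _ _), h⟩⟩
  | add _ _ ih1 ih2 =>
    exact graph_op h (op := fun a b => a + b) (SD.eq h.ne (.add (.var 1) (.var 0)) (.var 2)) ih1 ih2
  | mul _ _ ih1 ih2 =>
    exact graph_op h (op := fun a b => a * b) (SD.eq h.ne (.mul (.var 1) (.var 0)) (.var 2)) ih1 ih2

theorem pre_of_ax (h : Ax (strOf M S)) : Pre S where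
  basic := by
    intro f hf Q hQ
    obtain ⟨Γ, hΓ, e⟩ := graph_basic h hf
    have h1 := SD.mem (A := strOf M S) (prT (.var 1) (.var 0)) hΓ
    have h2 := SD.mem (A := strOf M S) (.var 0) hQ
    obtain ⟨X, hX, e2⟩ := h.ca _ _ (h1.and h2) (h1.imp h2) (fun _ => 0) (by
      intro x
      change (∃ y, Γ (pr x y) ∧ Q y) ↔ ∀ y, Γ (pr x y) → Q y
      simp [e])
    refine mem_congr hX fun x => (e2 x).trans ?_
    change (∃ y, Γ (pr x y) ∧ Q y) ↔ _
    simp [e]
  lt := by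
    refine mem_congr (mem_of_sd h (SD.bex (.add (.var 0) .one) (SD.bex (.add (.var 1) .one)
      ((SD.eq h.ne (.var 2) (prT (.var 1) (.var 0))).and (SD.lt h.ne (.var 1) (.var 0)))))
      (fun _ => 0)) fun u => ?_
    change (∃ a < u + 1, ∃ b < u + 1, u = pr a b ∧ a < b) ↔ _
    constructor
    · rintro ⟨a, -, b, -, rfl, h⟩; simpa using h
    · intro h1
      by_cases h2 : ∃ a b, u = pr a b
      · obtain ⟨a, b, rfl⟩ := h2
        exact ⟨a, lt_succ_iff'.2 (le_pr_left _ _), b, lt_succ_iff'.2 (le_pr_right _ _), rfl,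
          by simpa using h1⟩
      · rw [(p2_eq_iff u 0).2 (Or.inr ⟨rfl, h2⟩)] at h1
        simp at h1
  nand := fun hP hQ => mem_of_sd h ((SD.mem (A := strOf M S) (.var 0) hP).and
    (SD.mem (A := strOf M S) (.var 0) hQ)).not (fun _ => 0)
  ball := by
    intro Q hQ
    refine mem_congr (mem_of_sd h (SD.ball (.add (.var 0) .one) (SD.ball (.add (.var 1) .one)
      ((SD.eq h.ne (.var 2) (prT (.var 1) (.var 0))).imp (SD.ball (.var 0)
        (SD.mem (A := strOf M S) (prT (.var 2) (.var 0)) hQ))))) (fun _ => 0)) fun u => ?_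
    change (∀ a < u + 1, ∀ b < u + 1, u = pr a b → ∀ x < b, Q (pr a x)) ↔ _
    by_cases h2 : ∃ a b, u = pr a b
    · obtain ⟨a, b, rfl⟩ := h2
      simp only [p1_pr, p2_pr]
      constructor
      · intro h1
        exact h1 a (lt_succ_iff'.2 (le_pr_left _ _)) b (lt_succ_iff'.2 (le_pr_right _ _)) rfl
      · intro h1 a' _ b' _ h3
        obtain ⟨rfl, rfl⟩ := pr_inj h3
        exact h1
    · rw [(p2_eq_iff u 0).2 (Or.inr ⟨rfl, h2⟩)]
      exact iff_of_true (fun a _ b _ h3 => absurd ⟨a, b, h3⟩ h2) (by simp)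
  delta := by
    intro P Q hP hQ e
    obtain ⟨X, hX, e2⟩ := h.ca _ _ (SD.mem (A := strOf M S) (prT (.var 1) (.var 0)) hP)
      (SD.mem (A := strOf M S) (prT (.var 1) (.var 0)) hQ) (fun _ => 0) e
    exact mem_congr hX e2

theorem good_of_ax (h : Ax (strOf M S)) : Good S := by
  have := pre_of_ax h
  refine good_of_ind ?_
  rintro P ⟨Q, ⟨R, hR, e'⟩, e⟩
  have h1 : Rec S (fun u : M => R ((p1 (p1 u), p2 (p1 u)), p2 u)) := by fun_prop
  have h2 := h.ind2 _ (SD.mem (A := strOf M S) (prT (prT (.var 2) (.var 1)) (.var 0))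
    (rec_iff_mem.1 h1)) (fun _ => 0)
  have h3 : ∀ x, P x ↔ ∃ y, ∀ z, (fun u : M => R ((p1 (p1 u), p2 (p1 u)), p2 u)) (pr (pr x y) z) := by
    intro x; simp [e, e']
  simp only [h3]
  exact h2

theorem rec_tm [Pre S] {α : Type} [Cd M α] {v : ℕ → α → M} (hv : ∀ i, Rec S (v i)) (t : Tm) :
    Rec S (fun a => (t.eval (strOf M S) (fun i => v i a) : M)) := by
  induction t with
  | var i => exact hv i
  | zero => exact Rec.const (0 : M)
  | one => exact Rec.const (1 : M)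
  | add s t ih1 ih2 => exact ih1.add ih2
  | mul s t ih1 ih2 => exact ih1.mul ih2

theorem cons_env {α : Type} (v : ℕ → α → M) (a : α) (x : M) :
    cons x (fun i => v i a) =
      fun i => cons (fun p : α × M => p.2) (fun i (p : α × M) => v i p.1) i (a, x) := by
  funext i; cases i <;> rfl

theorem rec_cons [Pre S] {α : Type} [Cd M α] {v : ℕ → α → M} (hv : ∀ i, Rec S (v i)) :
    ∀ i, Rec S (cons (fun p : α × M => p.2) (fun i (p : α × M) => v i p.1) i) := by
  intro i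
  cases i with
  | zero => exact rec_snd
  | succ i => exact (hv i).comp rec_fst

theorem rec_d0 [Pre S] {φ : Fm} (hφ : D0 φ) {ρ : ℕ → Set M} (hρ : ∀ j, ρ j ∈ S) :
    ∀ {α : Type} [Cd M α] {v : ℕ → α → M}, (∀ i, Rec S (v i)) →
      Rec S (fun a => φ.eval (strOf M S) (fun i => v i a) ρ) := by
  induction hφ with
  | eq s t => intro α _ v hv; exact (rec_tm hv s).eq (rec_tm hv t)
  | lt s t => intro α _ v hv; exact (rec_tm hv s).lt (rec_tm hv t)
  | mem t j => intro α _ v hv; exact (rec_iff_mem.2 (hρ j)).comp (rec_tm hv t)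
  | bot => intro α _ v _; exact Rec.const False
  | imp _ _ ih1 ih2 => intro α _ v hv; exact (ih1 hv).imp (ih2 hv)
  | @ball t φ _ ih =>
    intro α _ v hv
    refine (Rec.ball (Q := fun a x => φ.eval (strOf M S) (cons x fun i => v i a) ρ) (rec_tm hv t)
      ((ih (rec_cons hv)).of_iff fun p => by rw [cons_env])).of_iff fun a => ?_
    have e := fun x => Tm.eval_up (strOf M S) x (fun i => v i a) t
    simp only [Fm.eval, Tm.eval, cons_zero]
    exact forall_congr' fun x => imp_congr_left (by rw [e x])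
  | @bex t φ _ ih =>
    intro α _ v hv
    refine (Rec.bex (Q := fun a x => φ.eval (strOf M S) (cons x fun i => v i a) ρ) (rec_tm hv t)
      ((ih (rec_cons hv)).of_iff fun p => by rw [cons_env])).of_iff fun a => ?_
    have e := fun x => Tm.eval_up (strOf M S) x (fun i => v i a) t
    simp only [Fm.eval_exN, Fm.eval_and, Fm.eval, Tm.eval, cons_zero]
    exact exists_congr fun x => and_congr_left' (by rw [e x])

theorem rec_d0_two [Pre S] {φ : Fm} (hφ : D0 φ) {ρ : ℕ → Set M} (hρ : ∀ j, ρ j ∈ S)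
    (v : ℕ → M) : Rec S (fun p : M × M => φ.eval (strOf M S) (cons p.2 (cons p.1 v)) ρ) := by
  refine (rec_d0 hφ hρ (α := M × M)
    (v := cons (fun p => p.2) (cons (fun p => p.1) fun i _ => v i)) ?_).of_iff fun p => ?_
  · rintro (_ | _ | i)
    · exact rec_snd
    · exact rec_fst
    · exact Rec.const _
  · refine iff_of_eq ?_
    congr 1
    funext i
    rcases i with _ | _ | i <;> rfl

theorem rec_d0_three [Pre S] {φ : Fm} (hφ : D0 φ) {ρ : ℕ → Set M} (hρ : ∀ j, ρ j ∈ S)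
    (v : ℕ → M) : Rec S (fun p : (M × M) × M =>
      φ.eval (strOf M S) (cons p.2 (cons p.1.2 (cons p.1.1 v))) ρ) := by
  refine (rec_d0 hφ hρ (α := (M × M) × M) (v := cons (fun p => p.2) (cons (fun p => p.1.2)
    (cons (fun p => p.1.1) fun i _ => v i))) ?_).of_iff fun p => ?_
  · rintro (_ | _ | _ | i)
    · exact rec_snd
    · exact rec_snd.comp rec_fst
    · exact rec_fst.comp rec_fst
    · exact Rec.const _
  · refine iff_of_eq ?_
    congr 1
    funext i
    rcases i with _ | _ | _ | i <;> rfl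

theorem valid_of_good [Good S] : ∀ ψ ∈ RCA0 ∪ IS2, (strOf M S).Valid ψ := by
  rintro ψ (((h | ⟨θ, h, rfl⟩) | ⟨θ, η, h, h', rfl⟩) | ⟨θ, h, rfl⟩) v ρ hρ
  · simp only [Set.mem_insert_iff, Set.mem_singleton_iff] at h
    rcases h with rfl | rfl | rfl | rfl | rfl | rfl | rfl | rfl
    · exact (lt_of_le_of_lt zero_le (lt_succ_self' (v 0))).ne'
    · exact fun h => add_right_cancel h
    · exact add_zero (v 0)
    · exact (add_assoc (v 0) (v 1) 1).symm
    · exact mul_zero (v 0)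
    · exact mul_add_one (v 0) (v 1)
    · exact not_lt_zero
    · rw [Fm.eval_iff, Fm.eval_or]; exact lt_succ_iff_lt_or_eq
  · rw [eval_indAx]
    simp only [Fm.eval_exN]
    exact Sig1.ind (S := S) (P := fun x => ∃ y, θ.eval (strOf M S) (cons y (cons x v)) ρ)
      (Sig1.exists (rec_d0_two h hρ v).sig1)
  · rw [eval_caAx]
    simp only [Fm.eval_exN, Fm.eval]
    intro e
    have h1 : Rec S (fun x => ∃ y, θ.eval (strOf M S) (cons y (cons x v)) ρ) :=
      Rec.delta (Sig1.exists (rec_d0_two h hρ v).sig1)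
        ((Pi1.forall (Q := fun x y => η.eval (strOf M S) (cons y (cons x v)) ρ)
          (rec_d0_two h' hρ v).pi1).of_iff fun x => (e x).symm)
    exact ⟨_, rec_iff_mem.1 h1, fun _ => Iff.rfl⟩
  · rw [eval_indAx]
    simp only [Fm.eval_exN, Fm.eval]
    exact Sig2.ind (S := S)
      (P := fun x => ∃ y, ∀ z, θ.eval (strOf M S) (cons z (cons y (cons x v))) ρ)
      (Sig2.exists (Sig2.forall_pi1 (rec_d0_three h hρ v).pi1))

theorem eval_numeral (k d : ℕ) (v : ℕ → M) : (Numeral k d).eval (strOf M S) v = (k : M) := by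
  induction k with
  | zero => exact Nat.cast_zero.symm
  | succ k ih => simp only [Numeral, Tm.eval, ih]; exact (Nat.cast_succ k).symm

/-- The meaning of the sentence `PRT k`. -/
theorem eval_PRT (k : ℕ) (v : ℕ → M) (ρ : ℕ → Set M) :
    (PRT k).eval (strOf M S) v ρ ↔ ∀ Φ ∈ S, ∀ F ∈ S, IsFun Φ →
      (∀ w m, Φ (pr w m) → Arrow w m ((k : M) + 1)) → IsCol (k : M) F →
        ∃ H ∈ S, Packed H Φ ∧ SemiHom H F := by
  simp only [PRT, Arr, Col, Card, FinElt, Leq, AllS, ExS, All, Ex, Imp, Conj, Disj, Eqv, Equ, Less,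
    Elt, Pair, Plus, Times, T1, Fm.eval, Fm.eval_exN, Fm.eval_exS, Fm.eval_and, Fm.eval_or,
    Fm.eval_iff, Tm.eval, eval_numeral, Nat.reduceAdd, Nat.reduceSub, cons_zero, cons_succ,
    ← le_iff_lt_or_eq]
  rfl

theorem Arith.eval_iff {φ : Fm} (h : Arith φ) (S S' : Set (M → Prop)) :
    ∀ (v : ℕ → M) (ρ : ℕ → Set M), φ.eval (strOf M S) v ρ ↔ φ.eval (strOf M S') v ρ := by
  have tm : ∀ (t : Tm) (v : ℕ → M), t.eval (strOf M S) v = t.eval (strOf M S') v := by
    intro t v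
    induction t <;> simp [Tm.eval, *]
  induction h with
  | eq s t => intro v ρ; simp only [Fm.eval, tm]
  | lt s t => intro v ρ; simp only [Fm.eval, tm]
  | mem t j => intro v ρ; simp only [Fm.eval, tm]
  | bot => intro v ρ; rfl
  | imp _ _ ih1 ih2 => intro v ρ; simp only [Fm.eval, ih1, ih2]
  | allN _ ih => intro v ρ; simp only [Fm.eval, ih]

theorem Pi11.down {φ : Fm} (h : Pi11 φ) {S S' : Set (M → Prop)} (hS : S ⊆ S') :
    ∀ (v : ℕ → M) (ρ : ℕ → Set M), φ.eval (strOf M S') v ρ → φ.eval (strOf M S) v ρ := by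
  induction h with
  | arith h => intro v ρ; exact (h.eval_iff S S' v ρ).2
  | allS _ ih => intro v ρ h X hX; exact ih v _ (h X (hS hX))

theorem conservation (k : ℕ) (θ : Fm) (hθ : Pi11 θ) (h : Prf (RCA0 ∪ IS2 ∪ {PRT k}) [] θ) :
    Prf (RCA0 ∪ IS2) [] θ := by
  by_contra hn
  obtain ⟨A, hc, hc', hne, hA, hθ'⟩ := exists_countermodel hn
  have hax := ax_of_valid hne hA
  let _ := hax.pa
  have hg : Good (M := A.M) A.S := good_of_ax (M := A.M) (S := A.S) hax
  have := IM.of_good (M := A.M) A.S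
  obtain ⟨T, hT, hsub, hP⟩ := exists_prt_ext (M := A.M) k A.S hg hc'
  have hv := (prf_iff _ _).1 h (strOf A.M T) (by
    rintro ψ (hψ | rfl)
    · exact valid_of_good ψ hψ
    · exact fun v ρ _ => (eval_PRT k v ρ).2 hP)
  exact hθ' fun v ρ hρ => hθ.down hsub v ρ (hv v ρ fun j => hsub (hρ j))

end Pool.Agent.Lib.MP_706ff3_lc
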