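import Pool.Agent.Lib.MP_706ff3_lc.Large

/-!
Mathias forcing with largeness requirements, preserving the least number principle for `Sig2`.
-/

set_option autoImplicit false
set_option linter.unusedSectionVars false

namespace Pool.Agent.Lib.MP_706ff3_lc

open Classical

variable {M : Type} [PA M] [IM M]

/-- Reservoirs: a set that is large for a family of requirements. -/
structure Res (S : Set (M → Prop)) where
  X : M → Prop
  C : M → Prop
  V : M → M → M → Prop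
  hX : Rec S X
  hC : Sig2 S C
  hV : Rec S (fun p : M × M × M => V p.1 p.2.1 p.2.2)
  large : ¬ Small C V X

variable {S : Set (M → Prop)}

/-- Extension of reservoirs. -/
def Res.le (r' r : Res S) : Prop :=
  (∀ x, r'.X x → r.X x) ∧ ∀ Y, Reg Y → Small r.C r.V Y → Small r'.C r'.V Y

theorem Res.le_refl (r : Res S) : r.le r := ⟨fun _ h => h, fun _ _ h => h⟩

theorem Res.le_trans {r r' r'' : Res S} (h : r''.le r') (h' : r'.le r) : r''.le r :=
  ⟨fun x hx => h'.1 x (h.1 x hx), fun Y hY hs => h.2 Y hY (h'.2 Y hY hs)⟩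

/-- Forcing conditions. -/
structure Cond (A : M → Prop) (r1 : Res S) where
  F : M
  m : M
  r : Res S
  hF : ∀ x, mem x F → x < m ∧ A x
  hr : r.le r1

variable {A : M → Prop} {r1 : Res S}

/-- Extension of conditions. -/
def Cond.le (q p : Cond A r1) : Prop :=
  p.m ≤ q.m ∧ (∀ x < p.m, mem x q.F ↔ mem x p.F) ∧ (∀ x, mem x q.F → p.m ≤ x → p.r.X x) ∧
    q.r.le p.r

theorem Cond.le_refl (p : Cond A r1) : p.le p :=
  ⟨le_rfl, fun _ _ => Iff.rfl, fun x hx h => absurd (p.hF x hx).1 (not_lt.2 h), p.r.le_refl⟩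

theorem Cond.le_trans {p q r : Cond A r1} (h : r.le q) (h' : q.le p) : r.le p := by
  refine ⟨h'.1.trans h.1, fun x hx => ?_, fun x hx hm => ?_, Res.le_trans h.2.2.2 h'.2.2.2⟩
  · rw [h.2.1 x (hx.trans_le h'.1), h'.2.1 x hx]
  · by_cases h1 : x < q.m
    · exact h'.2.2.1 x ((h.2.1 x h1).1 hx) hm
    · exact h'.2.2.2.1 x (h.2.2.1 x hx (not_lt.1 h1))

theorem Cond.stem (p : Cond A r1) (E t : M) (hE : ∀ x, mem x E → p.r.X x ∧ A x) :
    ∃ q : Cond A r1, q.le p ∧ t ≤ q.m ∧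
      ∀ x, mem x q.F ↔ mem x p.F ∨ (p.m ≤ x ∧ mem x E) := by
  obtain ⟨c, hc⟩ := ((reg_mem p.F).or ((reg_le p.m).and (reg_mem E))) (p.m + E + t)
  have hc' : ∀ x, mem x c ↔ mem x p.F ∨ (p.m ≤ x ∧ mem x E) := by
    intro x
    rw [hc]
    refine ⟨fun h => h.2, fun h => ⟨?_, h⟩⟩
    rcases h with h | h
    · exact (p.hF x h).1.trans_le (le_self_add.trans le_self_add)
    · exact (mem_lt h.2).trans_le (le_add_self.trans le_self_add)
  refine ⟨⟨c, p.m + E + t, p.r, fun x hx => ⟨((hc x).1 hx).1, ?_⟩, p.hr⟩,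
    ⟨le_self_add.trans le_self_add, fun x hx => ?_, fun x hx hm => ?_, p.r.le_refl⟩,
    le_add_self, hc'⟩
  · rcases (hc' x).1 hx with h | h
    · exact (p.hF x h).2
    · exact (hE x h.2).2
  · rw [hc']; exact ⟨fun h => h.resolve_right fun h' => absurd hx (not_lt.2 h'.1), Or.inl⟩
  · rcases (hc' x).1 hx with h | h
    · exact absurd (p.hF x h).1 (not_lt.2 hm)
    · exact (hE x h.2).1

/-- The stem of the condition already refutes the universal statement. -/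
def Cond.Wit (q : Cond A r1) (Q : M × M × M × M → Prop) (x y : M) : Prop :=
  ∃ z ≤ q.m, ¬ Q (x, y, z, res (fun u => mem u q.F) z)

/-- The condition forces the negation of the existential-universal statement. -/
def Cond.ForceNeg (p : Cond A r1) (Q : M × M × M × M → Prop) (x : M) : Prop :=
  ∀ q : Cond A r1, q.le p → ∀ y, ∃ r : Cond A r1, r.le q ∧ r.Wit Q x y

/-- The condition forces the existential-universal statement. -/
def Cond.ForcePos (p : Cond A r1) (Q : M × M × M × M → Prop) (x : M) : Prop :=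
  ∃ y, ∀ G : M → Prop, Reg G → (∀ u < p.m, G u ↔ mem u p.F) →
    (∀ u, G u → p.m ≤ u → p.r.X u) → ∀ z, Q (x, y, z, res G z)

/-- The new requirements. -/
def Cond.Cb (p : Cond A r1) (b n : M) : Prop :=
  (p1 n = 0 ∧ p.r.C (p2 n)) ∨ (p1 n = 1 ∧ p1 (p2 n) < b ∧ p.m ≤ p2 (p2 (p2 (p2 n))) ∧
    (∀ t, mem t (p1 (p2 (p2 (p2 n)))) → t < p2 (p2 (p2 (p2 n))) ∧ A t) ∧
    (∀ t < p.m, mem t (p1 (p2 (p2 (p2 n)))) ↔ mem t p.F) ∧
    ∀ t, mem t (p1 (p2 (p2 (p2 n)))) → p.m ≤ t → p.r.X t)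

/-- Witnesses for the new requirements. -/
def Cond.Vb (p : Cond A r1) (Q : M × M × M × M → Prop) (n E s : M) : Prop :=
  (p1 n = 0 ∧ p.r.V (p2 n) E s) ∨ (p1 n = 1 ∧ ¬ Q (p1 (p2 n), p1 (p2 (p2 n)), s,
    res (fun t => mem t (p1 (p2 (p2 (p2 n)))) ∨ (p2 (p2 (p2 (p2 n))) ≤ t ∧ mem t E)) s))

variable [Good S]

theorem Cond.sig2_Cb (hA : Sig2 S A) (p : Cond A r1) :
    Sig2 S (fun q : M × M => p.Cb q.1 q.2) := by
  have hX := p.r.hX
  unfold Cond.Cb
  refine Sig2.or (Sig2.and (Rec.sig2 (by fun_prop)) (p.r.hC.comp (by fun_prop)))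
    (Sig2.and (Rec.sig2 (by fun_prop)) (Sig2.and (Rec.sig2 (by fun_prop))
      (Sig2.and (Rec.sig2 (by fun_prop)) (Sig2.and (Sig2.ball_mem (by fun_prop)
        (Sig2.and (Rec.sig2 (by fun_prop)) (hA.comp (by fun_prop)))) (Rec.sig2 (by fun_prop))))))

theorem Cond.rec_Vb (p : Cond A r1) {Q : M × M × M × M → Prop} (hQ : Rec S Q) :
    Rec S (fun q : M × M × M => p.Vb Q q.1 q.2.1 q.2.2) := by
  have hV := p.r.hV
  have h1 : Rec S (fun q : M × M × M => p.r.V (p2 q.1) q.2.1 q.2.2) :=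
    hV.comp (g := fun q : M × M × M => (p2 q.1, q.2.1, q.2.2)) (by fun_prop)
  unfold Cond.Vb
  refine Rec.or (Rec.and (by fun_prop) h1) (by fun_prop)

theorem Cond.small_Cb (p : Cond A r1) (Q : M × M × M × M → Prop) (b : M) {Y : M → Prop}
    (hY : Reg Y) (h : Small p.r.C p.r.V Y) : Small (p.Cb b) (p.Vb Q) Y :=
  Small.relabel p.r.hV (h := fun n => pr 0 n) (by fun_prop)
    (fun n hn => ⟨Or.inl (by simpa using hn), fun E s h => by simpa [Cond.Vb] using h⟩) hY h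

theorem Cond.large_zero (p : Cond A r1) {Q : M × M × M × M → Prop} (hQ : Rec S Q) :
    ¬ Small (p.Cb 0) (p.Vb Q) p.r.X := fun h =>
  p.r.large (Small.relabel (p.rec_Vb hQ) (h := fun n => p2 n) (by fun_prop) (fun n hn => by
    rcases hn with hn | hn
    · exact ⟨hn.2, fun E s h => Or.inl ⟨hn.1, h⟩⟩
    · simpa using hn.2.1) p.r.hX.reg h)

theorem Cond.forceNeg_of (hA : Sig2 S A)
    (hvalid : ∀ r : Res S, r.le r1 → ¬ Small r.C r.V (fun x => r.X x ∧ A x))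
    (p p' : Cond A r1) (Q : M × M × M × M → Prop) (b : M) (hle : p'.le p)
    (hs : ∀ Y, Reg Y → Small (p.Cb b) (p.Vb Q) Y → Small p'.r.C p'.r.V Y) :
    ∀ x < b, p'.ForceNeg Q x := by
  intro x hx q hq y
  have hqp : q.le p := Cond.le_trans hq hle
  have hreg : Reg (fun x => q.r.X x ∧ A x) := q.r.hX.reg.and hA.reg
  have h1 : ¬ Small (p.Cb b) (p.Vb Q) (fun x => q.r.X x ∧ A x) := fun h =>
    hvalid q.r q.hr (hq.2.2.2.2 _ hreg (hs _ hreg h))
  obtain ⟨E, s, hE, h2⟩ := good_of_large hreg h1 (n := pr 1 (pr x (pr y (pr q.F q.m))))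
    (Or.inr (by simpa using ⟨hx, hqp.1, q.hF, hqp.2.1, hqp.2.2.1⟩))
  obtain ⟨r, hr, h3, h4⟩ := q.stem E s hE
  refine ⟨r, hr, s, h3, ?_⟩
  have h5 : res (fun u => mem u r.F) s = res (fun t => mem t q.F ∨ (q.m ≤ t ∧ mem t E)) s :=
    res_congr fun x _ => h4 x
  rw [h5]
  simpa [Cond.Vb] using h2

theorem Cond.decide (hW : WKLc S) (hA : Sig2 S A)
    (hvalid : ∀ r : Res S, r.le r1 → ¬ Small r.C r.V (fun x => r.X x ∧ A x))
    (p : Cond A r1) {Q : M × M × M × M → Prop} (hQ : Rec S Q) (a : M) :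
    ∃ q : Cond A r1, q.le p ∧ ((∀ x < a, q.ForceNeg Q x) ∨
      ∃ b < a, q.ForcePos Q b ∧ ∀ x < b, q.ForceNeg Q x) := by
  have hX := p.r.hX
  have hCb : ∀ b, Sig2 S (p.Cb b) := fun b =>
    (p.sig2_Cb hA).comp (g := fun n : M => (b, n)) (by fun_prop)
  by_cases h : Small (p.Cb a) (p.Vb Q) p.r.X
  · have h2 : Sig2 S (fun b => Small (p.Cb b) (p.Vb Q) p.r.X) :=
      sig2_small (p.rec_Vb hQ) (C := fun b => p.Cb b) (X := fun _ => p.r.X) (p.sig2_Cb hA)
        (by fun_prop)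
    obtain ⟨b', h3, h4⟩ := h2.least h
    rcases zero_or_succ b' with rfl | ⟨b, rfl⟩
    · exact absurd h3 (p.large_zero hQ)
    have hb : b < a := succ_le_iff'.1 (not_lt.1 fun h5 => h4 a h5 h)
    have h5 := h4 b (lt_succ_self' b)
    obtain ⟨L, hL, h6⟩ := h3
    obtain ⟨Z, hZ, h7, h8⟩ := hW.cover (p.rec_Vb hQ) hX h6
    obtain ⟨l, hl, h9⟩ : ∃ l, mem l L ∧ ¬ Small (p.Cb b) (p.Vb Q) (fun x => p.r.X x ∧ Z l x) := by
      by_contra hn
      push Not at hn
      exact h5 (Small.cover (p.rec_Vb hQ) (hCb b) hX hZ h7 hn)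
    have hXZ : Rec S (fun x => p.r.X x ∧ Z l x) := by fun_prop
    have h10 : ¬ p.Cb b (p1 l) := fun h10 => by
      obtain ⟨E, s, hE, h11⟩ := good_of_large hXZ.reg h9 h10
      exact h8 l hl E s (fun x hx => (hE x hx).2) h11
    rcases hL l hl with h11 | ⟨h11, h12, h13, h14, h15, h16⟩
    · exact absurd (Or.inl h11) h10
    have h17 : p1 (p2 (p1 l)) = b := by
      rcases lt_succ_iff_lt_or_eq.1 h12 with h17 | h17
      · exact absurd (Or.inr ⟨h11, h17, h13, h14, h15, h16⟩) h10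
      · exact h17
    let r' : Res S := ⟨fun x => p.r.X x ∧ Z l x, p.Cb b, p.Vb Q, hXZ, hCb b, p.rec_Vb hQ, h9⟩
    have hr' : r'.le p.r := ⟨fun x hx => hx.1, fun Y hY hs => p.small_Cb Q b hY hs⟩
    let q : Cond A r1 := ⟨_, _, r', h14, Res.le_trans hr' p.hr⟩
    have hq : q.le p := ⟨h13, h15, h16, hr'⟩
    refine ⟨q, hq, Or.inr ⟨b, hb, ⟨p1 (p2 (p2 (p1 l))), fun G hG h18 h19 z => ?_⟩,
      Cond.forceNeg_of hA hvalid p q Q b hq fun _ _ h => h⟩⟩
    have hreg : Reg (fun t => q.m ≤ t ∧ G t) := (reg_le q.m).and hG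
    have h20 := h8 l hl (res (fun t => q.m ≤ t ∧ G t) z) z (fun x hx => by
      have := hreg.mem_res.1 hx
      exact (h19 x this.2.2 this.2.1).2)
    by_contra h21
    refine h20 (Or.inr ⟨h11, ?_⟩)
    rw [h17]
    have h22 : res (fun t => mem t q.F ∨ (q.m ≤ t ∧ mem t (res (fun t => q.m ≤ t ∧ G t) z))) z
        = res G z := res_congr fun t ht => by
      rw [hreg.mem_res]
      by_cases h23 : t < q.m
      · rw [h18 t h23]
        exact ⟨fun h => h.resolve_right fun h' => absurd h23 (not_lt.2 h'.1), Or.inl⟩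
      · have h24 : ¬ mem t q.F := fun h => h23 (q.hF t h).1
        have h25 := not_lt.1 h23
        tauto
    exact h22 ▸ h21
  · let r' : Res S := ⟨p.r.X, p.Cb a, p.Vb Q, hX, hCb a, p.rec_Vb hQ, h⟩
    have hr' : r'.le p.r := ⟨fun x hx => hx, fun Y hY hs => p.small_Cb Q a hY hs⟩
    let q : Cond A r1 := ⟨p.F, p.m, r', p.hF, Res.le_trans hr' p.hr⟩
    have hq : q.le p := ⟨le_rfl, fun _ _ => Iff.rfl, p.le_refl.2.2.1, hr'⟩
    exact ⟨q, hq, Or.inl (Cond.forceNeg_of hA hvalid p q Q a hq fun _ _ h => h)⟩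

/-- `G` is cohesive for all sets of `S`. -/
def Coh (S : Set (M → Prop)) (G : M → Prop) : Prop :=
  ∀ R : M → Prop, Rec S R → (∃ t, ∀ x, t ≤ x → G x → R x) ∨ ∃ t, ∀ x, t ≤ x → G x → ¬ R x

theorem exists_generic_large [Countable M] (hS : S.Countable) (hW : WKLc S) (hA : Sig2 S A)
    (hvalid : ∀ r : Res S, r.le r1 → ¬ Small r.C r.V (fun x => r.X x ∧ A x))
    (hfin : ∀ m, Small r1.C r1.V (fun x => x < m)) :
    ∃ G, GoodExt S G ∧ (∀ x, G x → r1.X x ∧ A x) ∧ ¬ Small r1.C r1.V G ∧ Coh S G := by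
  have : Countable {R : M × M × M × M → Prop | Rec S R} := (countable_rec hS).to_subtype
  have : Countable {R : M → Prop | Rec S R} := (countable_rec hS).to_subtype
  obtain ⟨e, he⟩ := exists_empty_code (M := M)
  obtain ⟨s, hs0, hs1, hs2⟩ := exists_generic (P := Cond A r1)
    (ι := M ⊕ M ⊕ {R : M → Prop | Rec S R} ⊕ ({R : M × M × M × M → Prop | Rec S R} × M) ⊕
      ({R : M × M × M × M → Prop | Rec S R} × M × M))
    Cond.le Cond.le_refl (fun _ _ _ h h' => Cond.le_trans h h')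
    (fun i p => match i with
      | Sum.inl z => z ≤ p.m
      | Sum.inr (Sum.inl L) => (∀ l, mem l L → r1.C (p1 l)) →
          ∃ w, ¬ SmallAt r1.V L (fun x => mem x p.F) w
      | Sum.inr (Sum.inr (Sum.inl R)) => (∀ x, p.r.X x → R.1 x) ∨ ∀ x, p.r.X x → ¬ R.1 x
      | Sum.inr (Sum.inr (Sum.inr (Sum.inl i))) => (∀ x < i.2, p.ForceNeg i.1.1 x) ∨
          ∃ b < i.2, p.ForcePos i.1.1 b ∧ ∀ x < b, p.ForceNeg i.1.1 x
      | Sum.inr (Sum.inr (Sum.inr (Sum.inr i))) => p.Wit i.1.1 i.2.1 i.2.2 ∨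
          ∀ q : Cond A r1, q.le p → ¬ q.Wit i.1.1 i.2.1 i.2.2)
    (by
      rintro (z | L | ⟨R, hR⟩ | ⟨⟨Q, hQ⟩, a⟩ | ⟨⟨Q, hQ⟩, x, y⟩) p
      · obtain ⟨q, h1, h2, -⟩ := p.stem e z fun x hx => absurd hx (he x)
        exact ⟨q, h1, h2⟩
      · by_cases hL : ∀ l, mem l L → r1.C (p1 l)
        · have hreg : Reg (fun x => (p.r.X x ∧ A x) ∧ p.m ≤ x) :=
            (p.r.hX.reg.and hA.reg).and (reg_le _)
          have h1 : ¬ Small r1.C r1.V (fun x => (p.r.X x ∧ A x) ∧ p.m ≤ x) := fun h =>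
            hvalid p.r p.hr ((Small.union p.r.hV hreg (reg_lt p.m) (p.hr.2 _ hreg h)
              (p.hr.2 _ (reg_lt p.m) (hfin p.m))).mono fun x hx => by
                by_cases h2 : x < p.m
                · exact Or.inr h2
                · exact Or.inl ⟨hx, not_lt.1 h2⟩)
          obtain ⟨w, hw⟩ : ∃ w, ¬ SmallAt r1.V L (fun x => (p.r.X x ∧ A x) ∧ p.m ≤ x) w := by
            by_contra hn
            push Not at hn
            exact h1 ⟨L, hL, hn⟩
          obtain ⟨q, h2, -, h3⟩ := p.stem (res (fun x => (p.r.X x ∧ A x) ∧ p.m ≤ x) w) 0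
            fun x hx => (hreg.mem_res.1 hx).2.1
          exact ⟨q, h2, fun _ => ⟨w, fun h4 => hw (h4.mono fun x hx h5 =>
            (h3 x).2 (Or.inr ⟨h5.2, hreg.mem_res.2 ⟨hx, h5⟩⟩))⟩⟩
        · exact ⟨p, p.le_refl, fun h => absurd h hL⟩
      · have hR' : Rec S R := hR
        have hX := p.r.hX
        have h1 : Rec S (fun x => p.r.X x ∧ R x) := by fun_prop
        have h2 : Rec S (fun x => p.r.X x ∧ ¬ R x) := by fun_prop
        by_cases h3 : Small p.r.C p.r.V (fun x => p.r.X x ∧ R x)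
        · have h4 : ¬ Small p.r.C p.r.V (fun x => p.r.X x ∧ ¬ R x) := fun h4 =>
            p.r.large ((Small.union p.r.hV h1.reg h2.reg h3 h4).mono fun x hx => by tauto)
          let r' : Res S := ⟨_, p.r.C, p.r.V, h2, p.r.hC, p.r.hV, h4⟩
          have hr' : r'.le p.r := ⟨fun x hx => hx.1, fun Y _ hs => hs⟩
          exact ⟨⟨p.F, p.m, r', p.hF, Res.le_trans hr' p.hr⟩,
            ⟨le_rfl, fun _ _ => Iff.rfl, p.le_refl.2.2.1, hr'⟩, Or.inr fun x hx => hx.2⟩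
        · let r' : Res S := ⟨_, p.r.C, p.r.V, h1, p.r.hC, p.r.hV, h3⟩
          have hr' : r'.le p.r := ⟨fun x hx => hx.1, fun Y _ hs => hs⟩
          exact ⟨⟨p.F, p.m, r', p.hF, Res.le_trans hr' p.hr⟩,
            ⟨le_rfl, fun _ _ => Iff.rfl, p.le_refl.2.2.1, hr'⟩, Or.inl fun x hx => hx.2⟩
      · exact p.decide hW hA hvalid hQ a
      · by_cases h : ∃ q : Cond A r1, q.le p ∧ q.Wit Q x y
        · obtain ⟨q, h1, h2⟩ := h
          exact ⟨q, h1, Or.inl h2⟩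
        · push Not at h
          exact ⟨p, p.le_refl, Or.inr h⟩)
    ⟨e, 0, r1, fun x hx => absurd hx (he x), r1.le_refl⟩
  set G : M → Prop := fun x => ∃ n, mem x (s n).F with hG
  have hup : ∀ n n' x, mem x (s n').F → mem x (s (max n n')).F := fun n n' x hx =>
    ((hs1 _ _ (le_max_right n n')).2.1 x ((s n').hF x hx).1).2 hx
  have hstem : ∀ n, ∀ x < (s n).m, G x ↔ mem x (s n).F := by
    intro n x hx
    refine ⟨?_, fun h => ⟨n, h⟩⟩
    rintro ⟨n', hn'⟩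
    exact ((hs1 _ _ (le_max_left n n')).2.1 x hx).1 (hup n n' x hn')
  have hres : ∀ n x, G x → (s n).m ≤ x → (s n).r.X x := by
    rintro n x ⟨n', hn'⟩ hx
    exact (hs1 _ _ (le_max_left n n')).2.2.1 x (hup n n' x hn') hx
  have hreg : Reg G := by
    intro z
    obtain ⟨n, hn⟩ := hs2 (Sum.inl z)
    exact ⟨res (fun x => mem x (s n).F) z, fun x => by
      rw [mem_res_mem]; exact and_congr_right fun hx => (hstem n x (hx.trans_le hn)).symm⟩
  refine ⟨G, ⟨hreg, ?_⟩, fun x hx => ⟨?_, ?_⟩, ?_, ?_⟩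
  · intro Q hQ x hx
    have hneg : ∀ n x, (s n).ForceNeg Q x → ¬ ∃ y, ∀ z, Q (x, y, z, res G z) := by
      rintro n x h ⟨y, hy⟩
      obtain ⟨n', hn'⟩ := hs2 (Sum.inr (Sum.inr (Sum.inr (Sum.inr (⟨Q, hQ⟩, x, y)))))
      obtain ⟨r, hr, h1⟩ := h (s (max n n')) (hs1 _ _ (le_max_left n n')) y
      rcases hn' with ⟨z, hz, h2⟩ | hn'
      · refine h2 ?_
        have : res (fun u => mem u (s n').F) z = res G z :=
          res_congr fun u hu => (hstem n' u (hu.trans_le hz)).symm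
        rw [this]; exact hy z
      · exact hn' r (Cond.le_trans hr (hs1 _ _ (le_max_right n n'))) h1
    obtain ⟨n, hn⟩ := hs2 (Sum.inr (Sum.inr (Sum.inr (Sum.inl (⟨Q, hQ⟩, x + 1)))))
    rcases hn with hn | ⟨b, -, ⟨y, hy⟩, h2⟩
    · exact absurd hx (hneg n x (hn x (lt_succ_self' x)))
    · exact ⟨b, ⟨y, hy G hreg (hstem n) (hres n)⟩, fun x' hx' => hneg n x' (h2 x' hx')⟩
  · have := hres 0 x hx (by rw [hs0]; exact zero_le)
    rwa [hs0] at this
  · obtain ⟨n, hn⟩ := hx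
    exact ((s n).hF x hn).2
  · rintro ⟨L, hL, h⟩
    obtain ⟨n, hn⟩ := hs2 (Sum.inr (Sum.inl L))
    obtain ⟨w, hw⟩ := hn hL
    exact hw ((h w).mono fun x _ hx => ⟨n, hx⟩)
  · intro R hR
    obtain ⟨n, hn⟩ := hs2 (Sum.inr (Sum.inr (Sum.inl ⟨R, hR⟩)))
    rcases hn with hn | hn
    · exact Or.inl ⟨(s n).m, fun x h1 h2 => hn x (hres n x h2 h1)⟩
    · exact Or.inr ⟨(s n).m, fun x h1 h2 => hn x (hres n x h2 h1)⟩

/-- The main extension lemma. -/
theorem lemmaG [Countable M] (hS : S.Countable) (hW : WKLc S) (k : ℕ) (B : ℕ → M → Prop)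
    (hB : ∀ i < k, Sig2 S (B i)) (cov : ∀ x, ∃ i < k, B i x) (r0 : Res S)
    (hfin : ∀ m, Small r0.C r0.V (fun x => x < m)) :
    ∃ i < k, ∃ G, GoodExt S G ∧ (∀ x, G x → r0.X x ∧ B i x) ∧ ¬ Small r0.C r0.V G ∧ Coh S G := by
  obtain ⟨i, hi, r1, h1, h2⟩ : ∃ i < k, ∃ r1 : Res S, r1.le r0 ∧
      ∀ r : Res S, r.le r1 → ¬ Small r.C r.V (fun x => r.X x ∧ B i x) := by
    by_contra hn
    push Not at hn
    have key : ∀ j ≤ k, ∃ r : Res S, r.le r0 ∧ Reg (fun x => ∃ i < j, B i x) ∧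
        Small r.C r.V (fun x => r.X x ∧ ∃ i < j, B i x) := by
      intro j
      induction j with
      | zero => exact fun _ => ⟨r0, r0.le_refl, (reg_lt 0).congr (by simp), small_empty (by simp)⟩
      | succ j ih =>
        intro hj
        obtain ⟨r, h1, h2, h3⟩ := ih (by omega)
        obtain ⟨r', h4, h5⟩ := hn j (by omega) r h1
        have h6 := (hB j (by omega)).reg
        refine ⟨r', Res.le_trans h4 h1, (h2.or h6).congr fun x => ?_, ?_⟩
        · constructor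
          · rintro (⟨i, hi, h⟩ | h)
            · exact ⟨i, by omega, h⟩
            · exact ⟨j, by omega, h⟩
          · rintro ⟨i, hi, h⟩
            rcases Nat.lt_succ_iff_lt_or_eq.1 hi with h7 | rfl
            · exact Or.inl ⟨i, h7, h⟩
            · exact Or.inr h
        · refine (Small.union r'.hV (r.hX.reg.and h2) (r'.hX.reg.and h6)
            (h4.2 _ (r.hX.reg.and h2) h3) h5).mono ?_
          rintro x ⟨hx, i, hi, h⟩
          rcases Nat.lt_succ_iff_lt_or_eq.1 hi with h7 | rfl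
          · exact Or.inl ⟨h4.1 x hx, i, h7, h⟩
          · exact Or.inr ⟨hx, h⟩
    obtain ⟨r, -, -, h⟩ := key k le_rfl
    exact r.large (h.mono fun x hx => ⟨hx, cov x⟩)
  obtain ⟨G, h3, h4, h5, h6⟩ := exists_generic_large hS hW (hB i hi) h2
    fun m => h1.2 _ (reg_lt m) (hfin m)
  exact ⟨i, hi, G, h3, fun x hx => ⟨h1.1 x (h4 x hx).1, (h4 x hx).2⟩,
    fun h => h5 (h1.2 _ h3.reg h), h6⟩

end Pool.Agent.Lib.MP_706ff3_lc
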