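import Pool.Agent.Lib.MP_706ff3_lc.Rec

/-!
The classes `Sig1`, `Pi1`, `Sig2` relative to a family `S`, induction and collection.
-/

set_option autoImplicit false
set_option linter.unusedSectionVars false

namespace Pool.Agent.Lib.MP_706ff3_lc

open Classical

variable {M : Type} [PA M]

@[fun_prop]
def Sig1 (S : Set (M → Prop)) {α : Type} [Cd M α] (P : α → Prop) : Prop :=
  ∃ Q : α × M → Prop, Rec S Q ∧ ∀ a, P a ↔ ∃ y, Q (a, y)

@[fun_prop]
def Pi1 (S : Set (M → Prop)) {α : Type} [Cd M α] (P : α → Prop) : Prop :=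
  ∃ Q : α × M → Prop, Rec S Q ∧ ∀ a, P a ↔ ∀ y, Q (a, y)

@[fun_prop]
def Sig2 (S : Set (M → Prop)) {α : Type} [Cd M α] (P : α → Prop) : Prop :=
  ∃ Q : α × M → Prop, Pi1 S Q ∧ ∀ a, P a ↔ ∃ y, Q (a, y)

/-- Families closed under recursive comprehension whose `Sig2` sets obey the least number
principle. -/
class Good (S : Set (M → Prop)) : Prop extends Pre S where
  least : ∀ {Q : M → Prop}, Q ∈ S → ∀ x, (∃ y, ∀ z, Q (pr x (pr y z))) →
    ∃ x0, (∃ y, ∀ z, Q (pr x0 (pr y z))) ∧ ∀ x' < x0, ¬ ∃ y, ∀ z, Q (pr x' (pr y z))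

variable {S : Set (M → Prop)} {α β : Type} [Cd M α] [Cd M β]

theorem Sig1.of_iff {P Q : α → Prop} (h : Sig1 S P) (e : ∀ a, P a ↔ Q a) : Sig1 S Q := by
  have : P = Q := funext fun a => propext (e a)
  exact this ▸ h

theorem Pi1.of_iff {P Q : α → Prop} (h : Pi1 S P) (e : ∀ a, P a ↔ Q a) : Pi1 S Q := by
  have : P = Q := funext fun a => propext (e a)
  exact this ▸ h

theorem Sig2.of_iff {P Q : α → Prop} (h : Sig2 S P) (e : ∀ a, P a ↔ Q a) : Sig2 S Q := by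
  have : P = Q := funext fun a => propext (e a)
  exact this ▸ h

theorem Sig1.mono {S' : Set (M → Prop)} (hS : S ⊆ S') {P : α → Prop} (h : Sig1 S P) :
    Sig1 S' P := by
  obtain ⟨Q, hQ, e⟩ := h
  exact ⟨Q, hQ.mono hS, e⟩

theorem Pi1.mono {S' : Set (M → Prop)} (hS : S ⊆ S') {P : α → Prop} (h : Pi1 S P) :
    Pi1 S' P := by
  obtain ⟨Q, hQ, e⟩ := h
  exact ⟨Q, hQ.mono hS, e⟩

theorem Sig2.mono {S' : Set (M → Prop)} (hS : S ⊆ S') {P : α → Prop} (h : Sig2 S P) :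
    Sig2 S' P := by
  obtain ⟨Q, hQ, e⟩ := h
  exact ⟨Q, hQ.mono hS, e⟩

section Pre

variable [Pre S]

@[fun_prop] protected theorem Rec.sig1 {P : α → Prop} (h : Rec S P) : Sig1 S P :=
  ⟨fun p => P p.1, by fun_prop, by simp⟩

@[fun_prop] protected theorem Rec.pi1 {P : α → Prop} (h : Rec S P) : Pi1 S P :=
  ⟨fun p => P p.1, by fun_prop, by simp⟩

@[fun_prop] protected theorem Pi1.comp {P : β → Prop} {g : α → β} (h : Pi1 S P) (hg : Rec S g) :
    Pi1 S (fun a => P (g a)) := by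
  obtain ⟨Q, hQ, e⟩ := h
  exact ⟨fun p => Q (g p.1, p.2), by fun_prop, fun a => e _⟩

@[fun_prop] protected theorem Sig1.comp {P : β → Prop} {g : α → β} (h : Sig1 S P) (hg : Rec S g) :
    Sig1 S (fun a => P (g a)) := by
  obtain ⟨Q, hQ, e⟩ := h
  exact ⟨fun p => Q (g p.1, p.2), by fun_prop, fun a => e _⟩

@[fun_prop] protected theorem Sig2.comp {P : β → Prop} {g : α → β} (h : Sig2 S P) (hg : Rec S g) :
    Sig2 S (fun a => P (g a)) := by
  obtain ⟨Q, hQ, e⟩ := h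
  exact ⟨fun p => Q (g p.1, p.2), hQ.comp (by fun_prop), fun a => e _⟩

@[fun_prop] protected theorem Pi1.sig2 {P : α → Prop} (h : Pi1 S P) : Sig2 S P :=
  ⟨fun p => P p.1, h.comp (by fun_prop), by simp⟩

@[fun_prop] protected theorem Sig1.sig2 {P : α → Prop} (h : Sig1 S P) : Sig2 S P := by
  obtain ⟨Q, hQ, e⟩ := h
  exact ⟨Q, hQ.pi1, e⟩

@[fun_prop] protected theorem Rec.sig2 {P : α → Prop} (h : Rec S P) : Sig2 S P := h.sig1.sig2

@[fun_prop] protected theorem Sig1.const (p : Prop) : Sig1 S (fun _ : α => p) := (Rec.const p).sig1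
@[fun_prop] protected theorem Pi1.const (p : Prop) : Pi1 S (fun _ : α => p) := (Rec.const p).pi1
@[fun_prop] protected theorem Sig2.const (p : Prop) : Sig2 S (fun _ : α => p) := (Rec.const p).sig2

@[fun_prop] protected theorem Sig1.not {P : α → Prop} (h : Pi1 S P) : Sig1 S (fun a => ¬ P a) := by
  obtain ⟨Q, hQ, e⟩ := h
  exact ⟨fun p => ¬ Q p, hQ.not, by simp [e]⟩

@[fun_prop] protected theorem Pi1.not {P : α → Prop} (h : Sig1 S P) : Pi1 S (fun a => ¬ P a) := by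
  obtain ⟨Q, hQ, e⟩ := h
  exact ⟨fun p => ¬ Q p, hQ.not, by simp [e]⟩

@[fun_prop] protected theorem Sig2.not {P : α → Prop} (h : Sig1 S P) : Sig2 S (fun a => ¬ P a) :=
  (Pi1.not h).sig2

theorem Sig2.not' {P : α → Prop} (h : Pi1 S P) : Sig2 S (fun a => ¬ P a) :=
  (Sig1.not h).sig2

theorem Rec.delta {P : α → Prop} (h1 : Sig1 S P) (h2 : Pi1 S P) : Rec S P := by
  obtain ⟨Q, hQ, e⟩ := h1
  obtain ⟨R, hR, e'⟩ := h2
  have := Pre.delta (rec_iff.1 hQ) (rec_iff.1 hR) (by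
    intro x; simp only [Cd.dec, p1_pr, p2_pr]; rw [← e, ← e'])
  refine rec_iff.2 (mem_congr this ?_)
  intro x; simp only [Cd.dec, p1_pr, p2_pr]; rw [← e]

@[fun_prop] protected theorem Sig1.exists {Q : α → M → Prop} (h : Sig1 S (fun p : α × M => Q p.1 p.2)) :
    Sig1 S (fun a => ∃ x, Q a x) := by
  obtain ⟨R, hR, e⟩ := h
  refine ⟨fun p => R ((p.1, p1 p.2), p2 p.2), by fun_prop, fun a => ?_⟩
  constructor
  · rintro ⟨x, hx⟩
    obtain ⟨y, hy⟩ := (e (a, x)).1 hx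
    exact ⟨pr x y, by simpa using hy⟩
  · rintro ⟨y, hy⟩
    exact ⟨_, (e (a, p1 y)).2 ⟨_, hy⟩⟩

@[fun_prop] protected theorem Pi1.forall {Q : α → M → Prop} (h : Pi1 S (fun p : α × M => Q p.1 p.2)) :
    Pi1 S (fun a => ∀ x, Q a x) := by
  obtain ⟨R, hR, e⟩ := h
  refine ⟨fun p => R ((p.1, p1 p.2), p2 p.2), by fun_prop, fun a => ?_⟩
  constructor
  · intro h y
    exact (e (a, p1 y)).1 (h _) _
  · intro h x
    exact (e (a, x)).2 fun y => by simpa using h (pr x y)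

@[fun_prop] protected theorem Sig2.exists {Q : α → M → Prop} (h : Sig2 S (fun p : α × M => Q p.1 p.2)) :
    Sig2 S (fun a => ∃ x, Q a x) := by
  obtain ⟨R, hR, e⟩ := h
  refine ⟨fun p => R ((p.1, p1 p.2), p2 p.2), hR.comp (by fun_prop), fun a => ?_⟩
  constructor
  · rintro ⟨x, hx⟩
    obtain ⟨y, hy⟩ := (e (a, x)).1 hx
    exact ⟨pr x y, by simpa using hy⟩
  · rintro ⟨y, hy⟩
    exact ⟨_, (e (a, p1 y)).2 ⟨_, hy⟩⟩

@[fun_prop] protected theorem Sig1.and {P Q : α → Prop} (h : Sig1 S P) (h' : Sig1 S Q) :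
    Sig1 S (fun a => P a ∧ Q a) := by
  obtain ⟨R, hR, e⟩ := h
  obtain ⟨R', hR', e'⟩ := h'
  have : Sig1 S (fun a => ∃ y z, R (a, y) ∧ R' (a, z)) :=
    Sig1.exists (Sig1.exists (Rec.sig1 (by fun_prop)))
  exact this.of_iff (by simp [e, e'])

@[fun_prop] protected theorem Sig1.or {P Q : α → Prop} (h : Sig1 S P) (h' : Sig1 S Q) :
    Sig1 S (fun a => P a ∨ Q a) := by
  obtain ⟨R, hR, e⟩ := h
  obtain ⟨R', hR', e'⟩ := h'
  exact ⟨fun p => R p ∨ R' p, by fun_prop, by simp [e, e', exists_or]⟩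

@[fun_prop] protected theorem Pi1.and {P Q : α → Prop} (h : Pi1 S P) (h' : Pi1 S Q) :
    Pi1 S (fun a => P a ∧ Q a) := by
  obtain ⟨R, hR, e⟩ := h
  obtain ⟨R', hR', e'⟩ := h'
  exact ⟨fun p => R p ∧ R' p, by fun_prop, by simp [e, e', forall_and]⟩

@[fun_prop] protected theorem Pi1.or {P Q : α → Prop} (h : Pi1 S P) (h' : Pi1 S Q) :
    Pi1 S (fun a => P a ∨ Q a) :=
  (Pi1.not ((Sig1.not h).and (Sig1.not h'))).of_iff (by intro a; tauto)

@[fun_prop] protected theorem Pi1.imp {P Q : α → Prop} (h : Sig1 S P) (h' : Pi1 S Q) :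
    Pi1 S (fun a => P a → Q a) :=
  ((Pi1.not h).or h').of_iff (by intro a; tauto)

@[fun_prop] protected theorem Sig1.imp {P Q : α → Prop} (h : Pi1 S P) (h' : Sig1 S Q) :
    Sig1 S (fun a => P a → Q a) :=
  ((Sig1.not h).or h').of_iff (by intro a; tauto)

@[fun_prop] protected theorem Sig2.and {P Q : α → Prop} (h : Sig2 S P) (h' : Sig2 S Q) :
    Sig2 S (fun a => P a ∧ Q a) := by
  obtain ⟨R, hR, e⟩ := h
  obtain ⟨R', hR', e'⟩ := h'
  have : Sig2 S (fun a => ∃ y z, R (a, y) ∧ R' (a, z)) :=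
    Sig2.exists (Sig2.exists (Pi1.sig2 (Pi1.and (hR.comp (by fun_prop)) (hR'.comp (by fun_prop)))))
  exact this.of_iff (by simp [e, e'])

@[fun_prop] protected theorem Sig2.or {P Q : α → Prop} (h : Sig2 S P) (h' : Sig2 S Q) :
    Sig2 S (fun a => P a ∨ Q a) := by
  obtain ⟨R, hR, e⟩ := h
  obtain ⟨R', hR', e'⟩ := h'
  exact ⟨fun p => R p ∨ R' p, hR.or hR', by simp [e, e', exists_or]⟩

theorem Sig2.imp_pi1 {P Q : α → Prop} (h : Pi1 S P) (h' : Sig2 S Q) :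
    Sig2 S (fun a => P a → Q a) :=
  ((Sig2.not' h).or h').of_iff (by intro a; tauto)

theorem Sig2.imp_sig1 {P Q : α → Prop} (h : Sig1 S P) (h' : Sig2 S Q) :
    Sig2 S (fun a => P a → Q a) :=
  ((Sig2.not h).or h').of_iff (by intro a; tauto)

theorem Sig2.forall_pi1 {Q : α → M → Prop} (h : Pi1 S (fun p : α × M => Q p.1 p.2)) :
    Sig2 S (fun a => ∀ x, Q a x) := (Pi1.forall h).sig2

theorem rec_of_sig1_graph {f : α → M} (h : Sig1 S (fun p : α × M => f p.1 = p.2)) : Rec S f := by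
  refine Rec.of_graph (Rec.delta h ?_)
  have : Pi1 S (fun p : α × M => ∀ y, f p.1 = y → y = p.2) :=
    Pi1.forall (Pi1.imp (h.comp (g := fun q : (α × M) × M => (q.1.1, q.2)) (by fun_prop))
      (Rec.pi1 (by fun_prop)))
  exact this.of_iff (by simp)

/-- Reversal: induction for a class follows from induction for the dual class. -/
theorem ind_of_coind (P : M → Prop)
    (h : ∀ a : M, ((fun x => ∀ y, x + y = a → ¬ P y) 0 →
      (∀ x, (fun x => ∀ y, x + y = a → ¬ P y) x → (fun x => ∀ y, x + y = a → ¬ P y) (x + 1)) →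
        ∀ x, (fun x => ∀ y, x + y = a → ¬ P y) x))
    (h0 : P 0) (hs : ∀ x, P x → P (x + 1)) : ∀ x, P x := by
  intro a
  by_contra ha
  refine h a ?_ ?_ a 0 (by simp) h0
  · intro y hy; rw [zero_add] at hy; exact hy ▸ ha
  · intro x hx y hy hP
    exact hx (y + 1) (by rw [← hy]; ring) (hs y hP)

theorem good_of_ind
    (h : ∀ P : M → Prop, Sig2 S P → P 0 → (∀ x, P x → P (x + 1)) → ∀ x, P x) : Good S := by
  refine { least := ?_ }
  intro Q hQ x hx
  have hQ' : Rec S Q := rec_iff_mem.2 hQ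
  set P : M → Prop := fun x => ∃ y, ∀ z, Q (pr x (pr y z)) with hP
  have hP2 : Sig2 S P := Sig2.exists (Sig2.forall_pi1 (Rec.pi1 (by fun_prop)))
  by_contra hn
  have hn' : ∀ x0, (∀ x' < x0, ¬ P x') → ¬ P x0 := fun x0 h1 h2 => hn ⟨x0, h2, h1⟩
  have key : ∀ a, ∀ x' < a, ¬ P x' := by
    refine ind_of_coind (fun a => ∀ x' < a, ¬ P x') (fun a => ?_) (by simp) ?_
    · have h2 : Sig2 S (fun x => (a < x) ∨ ∃ y, x + y = a ∧ ∃ x', x' < y ∧ P x') := by fun_prop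
      refine h (fun x => ∀ y, x + y = a → ¬ ∀ x' < y, ¬ P x') (h2.of_iff ?_)
      intro x
      constructor
      · rintro (h3 | ⟨y, hy, x', hx', h4⟩) y' hy' h5
        · exact absurd h3 (not_lt.2 (hy' ▸ le_self_add))
        · have : y' = y := add_left_cancel (hy'.trans hy.symm)
          exact h5 x' (this ▸ hx') h4
      · intro h3
        by_cases h4 : a < x
        · exact Or.inl h4
        · obtain ⟨y, hy⟩ := exists_add_of_le (not_lt.1 h4)
          refine Or.inr ⟨y, hy.symm, ?_⟩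
          have := h3 y hy.symm
          push Not at this
          exact this
    · intro a ha x' hx'
      rcases lt_succ_iff_lt_or_eq.1 hx' with h1 | rfl
      · exact ha x' h1
      · exact hn' _ ha
  exact key (x + 1) x (lt_succ_self' x) hx

end Pre

section Good

variable [Good S]

theorem Sig2.least {P : M → Prop} (h : Sig2 S P) {x : M} (hx : P x) :
    ∃ x0, P x0 ∧ ∀ x' < x0, ¬ P x' := by
  obtain ⟨Q, ⟨R, hR, e'⟩, e⟩ := h
  have h1 : Rec S (fun u : M => R ((p1 u, p1 (p2 u)), p2 (p2 u))) := by fun_prop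
  have := Good.least (rec_iff_mem.1 h1) x (by simpa [← e', ← e] using hx)
  simpa only [p1_pr, p2_pr, ← e', ← e] using this

theorem coSig2_ind {P : M → Prop} (h : Sig2 S (fun x => ¬ P x)) (h0 : P 0)
    (hs : ∀ x, P x → P (x + 1)) : ∀ x, P x := by
  intro x
  by_contra hx
  obtain ⟨x0, h1, h2⟩ := h.least hx
  rcases zero_or_succ x0 with rfl | ⟨y, rfl⟩
  · exact h1 h0
  · exact h1 (hs y (not_not.1 (h2 y (lt_succ_self' y))))

theorem Sig2.ind {P : M → Prop} (h : Sig2 S P) (h0 : P 0)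
    (hs : ∀ x, P x → P (x + 1)) : ∀ x, P x := by
  refine ind_of_coind P (fun a => coSig2_ind (S := S) (P := fun x => ∀ y, x + y = a → ¬ P y) ?_) h0 hs
  have : Sig2 S (fun x => ∃ y, x + y = a ∧ P y) := by fun_prop
  exact this.of_iff (by simp)

theorem Sig1.ind {P : M → Prop} (h : Sig1 S P) (h0 : P 0)
    (hs : ∀ x, P x → P (x + 1)) : ∀ x, P x := h.sig2.ind h0 hs

theorem Pi1.ind {P : M → Prop} (h : Pi1 S P) (h0 : P 0)
    (hs : ∀ x, P x → P (x + 1)) : ∀ x, P x := h.sig2.ind h0 hs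

theorem Rec.ind {P : M → Prop} (h : Rec S P) (h0 : P 0)
    (hs : ∀ x, P x → P (x + 1)) : ∀ x, P x := h.sig2.ind h0 hs

theorem coll_aux {R : M → M → Prop} {a : M}
    (h : Sig2 S (fun j : M => j ≤ a → ∃ b, ∀ x < j, ∃ y < b, R x y))
    (tot : ∀ x < a, ∃ y, R x y) : ∃ b, ∀ x < a, ∃ y < b, R x y := by
  refine h.ind (fun _ => ⟨0, by simp⟩) ?_ a le_rfl
  intro j ih hj
  obtain ⟨b, hb⟩ := ih ((lt_succ_self' j).le.trans hj)
  obtain ⟨y, hy⟩ := tot j (succ_le_iff'.1 hj)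
  refine ⟨max b (y + 1), fun x hx => ?_⟩
  rcases lt_succ_iff_lt_or_eq.1 hx with h1 | rfl
  · obtain ⟨z, hz, hz'⟩ := hb x h1
    exact ⟨z, lt_max_of_lt_left hz, hz'⟩
  · exact ⟨y, lt_max_of_lt_right (lt_succ_self' y), hy⟩

theorem Rec.coll {R : M → M → Prop} (h : Rec S (fun p : M × M => R p.1 p.2)) {a : M}
    (tot : ∀ x < a, ∃ y, R x y) : ∃ b, ∀ x < a, ∃ y < b, R x y := by
  refine coll_aux (S := S) ?_ tot
  exact Sig2.imp_pi1 (by fun_prop) (Sig2.exists (Rec.sig2 (by fun_prop)))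

@[fun_prop] protected theorem Sig1.ball {t : α → M} {Q : α → M → Prop} (ht : Rec S t)
    (h : Sig1 S (fun p : α × M => Q p.1 p.2)) : Sig1 S (fun a => ∀ x, x < t a → Q a x) := by
  obtain ⟨R, hR, e⟩ := h
  have : Sig1 S (fun a => ∃ b, ∀ x < t a, ∃ y < b, R ((a, x), y)) :=
    Sig1.exists (Rec.sig1 (by fun_prop))
  refine this.of_iff fun a => ⟨?_, ?_⟩
  · rintro ⟨b, hb⟩ x hx
    obtain ⟨y, -, hy⟩ := hb x hx
    exact (e (a, x)).2 ⟨y, hy⟩
  · intro h
    exact Rec.coll (S := S) (R := fun x y => R ((a, x), y)) (by fun_prop)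
      fun x hx => (e (a, x)).1 (h x hx)

@[fun_prop] protected theorem Pi1.bex {t : α → M} {Q : α → M → Prop} (ht : Rec S t)
    (h : Pi1 S (fun p : α × M => Q p.1 p.2)) : Pi1 S (fun a => ∃ x, x < t a ∧ Q a x) :=
  (Pi1.not (Sig1.ball (Q := fun a x => ¬ Q a x) ht (Sig1.not h))).of_iff (by simp)

theorem Pi1.coll {R : M → M → Prop} (h : Pi1 S (fun p : M × M => R p.1 p.2)) {a : M}
    (tot : ∀ x < a, ∃ y, R x y) : ∃ b, ∀ x < a, ∃ y < b, R x y := by
  refine coll_aux (S := S) ?_ tot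
  refine Sig2.imp_pi1 (by fun_prop) (Sig2.exists (Sig2.forall_pi1 (Pi1.imp (by fun_prop)
    (Pi1.bex (by fun_prop) (h.comp (g := fun q : ((M × M) × M) × M => (q.1.2, q.2))
      (by fun_prop))))))

theorem Sig2.coll {R : M → M → Prop} (h : Sig2 S (fun p : M × M => R p.1 p.2)) {a : M}
    (tot : ∀ x < a, ∃ y, R x y) : ∃ b, ∀ x < a, ∃ y < b, R x y := by
  obtain ⟨Q, hQ, e⟩ := h
  obtain ⟨b, hb⟩ := Pi1.coll (S := S) (R := fun x u => Q ((x, p1 u), p2 u)) (a := a)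
    (hQ.comp (by fun_prop)) (by
      intro x hx
      obtain ⟨y, hy⟩ := tot x hx
      obtain ⟨z, hz⟩ := (e (x, y)).1 hy
      exact ⟨pr y z, by simpa using hz⟩)
  refine ⟨b, fun x hx => ?_⟩
  obtain ⟨u, hu, h⟩ := hb x hx
  exact ⟨p1 u, (p1_le u).trans_lt hu, (e (x, p1 u)).2 ⟨_, h⟩⟩

@[fun_prop] protected theorem Sig2.ball {t : α → M} {Q : α → M → Prop} (ht : Rec S t)
    (h : Sig2 S (fun p : α × M => Q p.1 p.2)) : Sig2 S (fun a => ∀ x, x < t a → Q a x) := by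
  obtain ⟨R, hR, e⟩ := h
  have : Sig2 S (fun a => ∃ b, ∀ x < t a, ∃ y < b, R ((a, x), y)) :=
    Sig2.exists (Sig2.forall_pi1 (Pi1.imp (by fun_prop) (Pi1.bex (by fun_prop)
      (hR.comp (g := fun q : ((α × M) × M) × M => ((q.1.1.1, q.1.2), q.2)) (by fun_prop)))))
  refine this.of_iff fun a => ⟨?_, ?_⟩
  · rintro ⟨b, hb⟩ x hx
    obtain ⟨y, -, hy⟩ := hb x hx
    exact (e (a, x)).2 ⟨y, hy⟩
  · intro h
    exact Pi1.coll (S := S) (R := fun x y => R ((a, x), y)) (hR.comp (by fun_prop))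
      fun x hx => (e (a, x)).1 (h x hx)

theorem Rec.bdd {f : M → M} (hf : Rec S f) (a : M) : ∃ b, ∀ x < a, f x < b := by
  obtain ⟨b, hb⟩ := Rec.coll (S := S) (R := fun x y => f x = y) (a := a) (by fun_prop)
    (fun x _ => ⟨_, rfl⟩)
  exact ⟨b, fun x hx => by obtain ⟨y, hy, e⟩ := hb x hx; exact e ▸ hy⟩

end Good

/-- The least element with a property (zero if there is none). -/
noncomputable def mu (P : M → Prop) : M :=
  if h : ∃ x, P x ∧ ∀ y < x, ¬ P y then h.choose else 0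

theorem mu_spec' {P : M → Prop} (h : ∃ x, P x ∧ ∀ y < x, ¬ P y) :
    P (mu P) ∧ ∀ y < mu P, ¬ P y := by
  unfold mu; rw [dif_pos h]; exact h.choose_spec

theorem mu_eq {P : M → Prop} {x : M} (h1 : P x) (h2 : ∀ y < x, ¬ P y) : mu P = x := by
  obtain ⟨h3, h4⟩ := mu_spec' ⟨x, h1, h2⟩
  rcases lt_trichotomy (mu P) x with h | h | h
  · exact absurd h3 (h2 _ h)
  · exact h
  · exact absurd h1 (h4 _ h)

section Good

variable [Good S]

theorem Sig2.mu_spec {P : M → Prop} (h : Sig2 S P) (ex : ∃ x, P x) :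
    P (mu P) ∧ ∀ y < mu P, ¬ P y := by
  obtain ⟨x, hx⟩ := ex
  exact mu_spec' (h.least hx)

protected theorem Rec.mu {P : α → M → Prop} (h : Rec S (fun p : α × M => P p.1 p.2))
    (tot : ∀ a, ∃ y, P a y) : Rec S (fun a => mu (P a)) := by
  refine Rec.of_graph (Rec.of_iff (P := fun p : α × M => P p.1 p.2 ∧ ∀ y < p.2, ¬ P p.1 y)
    (by fun_prop) ?_)
  rintro ⟨a, x⟩
  constructor
  · rintro ⟨h1, h2⟩; exact mu_eq h1 h2
  · intro hx
    dsimp only at hx ⊢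
    subst hx
    exact Sig2.mu_spec (S := S) (Rec.sig2 (by fun_prop)) (tot a)

/-- Choice of a recursive Skolem function. -/
theorem Rec.skolem {P : α → M → Prop} (h : Rec S (fun p : α × M => P p.1 p.2))
    (tot : ∀ a, ∃ y, P a y) : ∃ f : α → M, Rec S f ∧ ∀ a, P a (f a) :=
  ⟨_, h.mu tot, fun a => (Sig2.mu_spec (S := S) (Rec.sig2 (by fun_prop)) (tot a)).1⟩

theorem Sig1.skolem {P : α → M → Prop} (h : Sig1 S (fun p : α × M => P p.1 p.2))
    (tot : ∀ a, ∃ y, P a y) : ∃ f : α → M, Rec S f ∧ ∀ a, P a (f a) := by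
  obtain ⟨Q, hQ, e⟩ := h
  obtain ⟨f, hf, h⟩ := Rec.skolem (S := S) (P := fun a u => Q ((a, p1 u), p2 u)) (by fun_prop) (by
    intro a
    obtain ⟨y, hy⟩ := tot a
    obtain ⟨z, hz⟩ := (e (a, y)).1 hy
    exact ⟨pr y z, by simpa using hz⟩)
  exact ⟨fun a => p1 (f a), by fun_prop, fun a => (e (a, _)).2 ⟨_, h a⟩⟩

end Good

end Pool.Agent.Lib.MP_706ff3_lc
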