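import Pool.Agent.Lib.MP_706ff3_lc.WKL

/-!
Small and large sets relative to a family of requirements.
-/

set_option autoImplicit false
set_option linter.unusedSectionVars false

namespace Pool.Agent.Lib.MP_706ff3_lc

open Classical

variable {M : Type} [PA M] [IM M]

/-- Below `w`, the set `X` is covered by pieces indexed by the labels in `L`, the piece with label
`l` containing no witness for the requirement `p1 l`. -/
def SmallAt (V : M → M → M → Prop) (L : M) (X : M → Prop) (w : M) : Prop :=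
  ∃ ρ, (∀ x < w, X x → ∃ l, mem l L ∧ mem (pr l x) ρ) ∧
    ∀ l, mem l L → ∀ E < w, ∀ s < w, (∀ x, mem x E → mem (pr l x) ρ) → ¬ V (p1 l) E s

/-- `X` is small for the requirements in `C`. -/
def Small (C : M → Prop) (V : M → M → M → Prop) (X : M → Prop) : Prop :=
  ∃ L, (∀ l, mem l L → C (p1 l)) ∧ ∀ w, SmallAt V L X w

variable {C C' : M → Prop} {V V' : M → M → M → Prop}

theorem SmallAt.mono {L w : M} {X X' : M → Prop} (h : SmallAt V L X w)
    (e : ∀ x < w, X' x → X x) : SmallAt V L X' w := by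
  obtain ⟨ρ, h1, h2⟩ := h
  exact ⟨ρ, fun x hx hX => h1 x hx (e x hx hX), h2⟩

theorem Small.mono {X X' : M → Prop} (h : Small C V X) (e : ∀ x, X' x → X x) : Small C V X' := by
  obtain ⟨L, h1, h2⟩ := h
  exact ⟨L, h1, fun w => (h2 w).mono fun x _ => e x⟩

theorem Small.mono_req {X : M → Prop} (h : Small C V X) (e : ∀ n, C n → C' n) : Small C' V X := by
  obtain ⟨L, h1, h2⟩ := h
  exact ⟨L, fun l hl => e _ (h1 l hl), h2⟩

theorem smallAt_iff {L w : M} {X : M → Prop} : SmallAt V L X w ↔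
    ∃ ρ < bnd (pr L w), (∀ x < w, X x → ∃ l, mem l L ∧ mem (pr l x) ρ) ∧
    ∀ l, mem l L → ∀ E < w, ∀ s < w, (∀ x, mem x E → mem (pr l x) ρ) → ¬ V (p1 l) E s := by
  constructor
  · rintro ⟨ρ, h1, h2⟩
    obtain ⟨ρ', h3, h4⟩ := bnd_spec (pr L w) ρ
    refine ⟨ρ', h3, fun x hx hX => ?_, fun l hl E hE s hs h5 => ?_⟩
    · obtain ⟨l, hl, h5⟩ := h1 x hx hX
      exact ⟨l, hl, (h4 _).2 ⟨pr_lt_pr (mem_lt hl) hx.le, h5⟩⟩
    · exact h2 l hl E hE s hs fun x hx => ((h4 _).1 (h5 x hx)).2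
  · rintro ⟨ρ, -, h⟩; exact ⟨ρ, h⟩

theorem exists_empty_code : ∃ c : M, ∀ x, ¬ mem x c := by
  obtain ⟨c, hc⟩ := reg_lt (0 : M) 0
  exact ⟨c, fun x hx => by simpa using ((hc x).1 hx).1⟩

theorem exists_single_code (a : M) : ∃ c : M, ∀ x, mem x c ↔ x = a := by
  obtain ⟨S, hS⟩ := IM.ex (M := M)
  exact Rec.coded_of_bdd (S := S) (Y := fun u => u = a) (by fun_prop) (t := a + 1)
    (by rintro u rfl; exact lt_succ_self' _)

theorem small_empty {X : M → Prop} (h : ∀ x, ¬ X x) : Small C V X := by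
  obtain ⟨c, hc⟩ := exists_empty_code (M := M)
  exact ⟨c, fun l hl => absurd hl (hc l), fun w =>
    ⟨c, fun x _ hx => absurd hx (h x), fun l hl => absurd hl (hc l)⟩⟩

theorem good_of_large {Y : M → Prop} (hY : Reg Y) (h : ¬ Small C V Y) {n : M} (hn : C n) :
    ∃ E s, (∀ x, mem x E → Y x) ∧ V n E s := by
  obtain ⟨S, hS⟩ := IM.ex (M := M)
  by_contra hc
  push Not at hc
  obtain ⟨L, hL⟩ := exists_single_code (pr n 0)
  refine h ⟨L, fun l hl => by rw [(hL l).1 hl]; simpa using hn, fun w => ?_⟩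
  obtain ⟨ρ, hρ⟩ := Rec.coded (S := S) (Y := fun v => mem (p2 v) (res Y w)) (by fun_prop) (pr L w)
  refine ⟨ρ, fun x hx hX => ⟨_, (hL _).2 rfl, (hρ _).2
    ⟨pr_lt_pr (mem_lt ((hL _).2 rfl)) hx.le, by simpa [hY.mem_res] using ⟨hx, hX⟩⟩⟩, ?_⟩
  intro l hl E _ s _ hE
  rw [(hL l).1 hl, p1_pr]
  refine hc E s fun x hx => ?_
  have := ((hρ _).1 (hE x hx)).2
  rw [p2_pr, hY.mem_res] at this
  exact this.2

variable {S : Set (M → Prop)} [Good S]

theorem rec_smallAt {α : Type} [Cd M α] (hV : Rec S (fun p : M × M × M => V p.1 p.2.1 p.2.2))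
    {L w : α → M} {X : α → M → Prop} (hL : Rec S L) (hw : Rec S w)
    (hX : Rec S (fun p : α × M => X p.1 p.2)) :
    Rec S (fun a => SmallAt V (L a) (X a) (w a)) := by
  have : Rec S (fun a => ∃ ρ < bnd (pr (L a) (w a)),
      (∀ x < w a, X a x → ∃ l, mem l (L a) ∧ mem (pr l x) ρ) ∧
      ∀ l, mem l (L a) → ∀ E < w a, ∀ s < w a, (∀ x, mem x E → mem (pr l x) ρ) →
        ¬ (fun p : M × M × M => V p.1 p.2.1 p.2.2) (p1 l, E, s)) := by fun_prop
  exact this.of_iff fun a => smallAt_iff.symm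

theorem sig2_small_aux {α : Type} [Cd M α] (hV : Rec S (fun p : M × M × M => V p.1 p.2.1 p.2.2))
    {C X : α → M → Prop} (hC : Sig2 S (fun p : α × M => C p.1 p.2))
    (hX : Rec S (fun p : α × M => X p.1 p.2)) :
    Sig2 S (fun p : α × M => (∀ l, mem l p.2 → C p.1 (p1 l)) ∧ ∀ w, SmallAt V p.2 (X p.1) w) := by
  refine Sig2.and (Sig2.ball_mem (by fun_prop)
    (hC.comp (g := fun q : (α × M) × M => (q.1.1, p1 q.2)) (by fun_prop)))
    (Sig2.forall_pi1 (Rec.pi1 (rec_smallAt hV (by fun_prop) (by fun_prop)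
      (X := fun q : (α × M) × M => X q.1.1) (by fun_prop))))

theorem sig2_small {α : Type} [Cd M α] (hV : Rec S (fun p : M × M × M => V p.1 p.2.1 p.2.2))
    {C X : α → M → Prop} (hC : Sig2 S (fun p : α × M => C p.1 p.2))
    (hX : Rec S (fun p : α × M => X p.1 p.2)) : Sig2 S (fun a => Small (C a) V (X a)) :=
  Sig2.exists (sig2_small_aux hV hC hX)

theorem Small.glue (hV : Rec S (fun p : M × M × M => V p.1 p.2.1 p.2.2)) {h : M → M}
    (hh : Rec S h) (hC : ∀ n, C n → C' (h n) ∧ ∀ E s, V' (h n) E s → V n E s)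
    {I : M} {ℓ : M → M} (hℓ : Rec S ℓ) (hℓC : ∀ i, mem i I → ∀ l, mem l (ℓ i) → C (p1 l))
    {X : M → Prop} (cov : ∀ w, ∃ Y : M → M → Prop, Rec S (fun p : M × M => Y p.1 p.2) ∧
      (∀ x < w, X x → ∃ i, mem i I ∧ Y i x) ∧ ∀ i, mem i I → SmallAt V (ℓ i) (Y i) w) :
    Small C' V' X := by
  obtain ⟨b1, hb1⟩ := hℓ.bdd I
  obtain ⟨b2, hb2⟩ := Rec.bdd (S := S) (f := fun l => h (p1 l)) (by fun_prop) b1
  obtain ⟨L, hL⟩ := Rec.coded_of_bdd (S := S)
    (Y := fun u => ∃ i, mem i I ∧ ∃ l, mem l (ℓ i) ∧ u = pr (h (p1 l)) (pr i l)) (by fun_prop)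
    (t := pr b2 (pr I b1)) (by
      rintro u ⟨i, hi, l, hl, rfl⟩
      have h1 : l < b1 := (mem_lt hl).trans (hb1 i (mem_lt hi))
      exact pr_lt_pr (hb2 l h1) (pr_le_pr (mem_lt hi).le h1.le))
  refine ⟨L, fun u hu => ?_, fun w => ?_⟩
  · obtain ⟨i, hi, l, hl, rfl⟩ := (hL u).1 hu
    rw [p1_pr]; exact (hC _ (hℓC i hi l hl)).1
  · obtain ⟨Y, hY, h1, h2⟩ := cov w
    obtain ⟨ρ, hρ, h3⟩ := Rec.skolem (S := S) (P := fun i ρ : M => mem i I →
      (∀ x < w, Y i x → ∃ l, mem l (ℓ i) ∧ mem (pr l x) ρ) ∧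
      ∀ l, mem l (ℓ i) → ∀ E < w, ∀ s < w, (∀ x, mem x E → mem (pr l x) ρ) →
        ¬ (fun p : M × M × M => V p.1 p.2.1 p.2.2) (p1 l, E, s)) (by fun_prop) (by
      intro i
      by_cases hi : mem i I
      · obtain ⟨ρ, hρ⟩ := h2 i hi; exact ⟨ρ, fun _ => hρ⟩
      · exact ⟨0, fun h => absurd h hi⟩)
    obtain ⟨ρ', hρ'⟩ := Rec.coded (S := S)
      (Y := fun v => mem (pr (p2 (p2 (p1 v))) (p2 v)) (ρ (p1 (p2 (p1 v))))) (by fun_prop) (pr L w)
    refine ⟨ρ', fun x hx hX => ?_, fun u hu E hE s hs h4 => ?_⟩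
    · obtain ⟨i, hi, h4⟩ := h1 x hx hX
      obtain ⟨l, hl, h5⟩ := (h3 i hi).1 x hx h4
      have h6 := (hL _).2 ⟨i, hi, l, hl, rfl⟩
      exact ⟨_, h6, (hρ' _).2 ⟨pr_lt_pr (mem_lt h6) hx.le, by simpa using h5⟩⟩
    · obtain ⟨i, hi, l, hl, rfl⟩ := (hL u).1 hu
      rw [p1_pr]
      intro h5
      refine (h3 i hi).2 l hl E hE s hs (fun x hx => ?_) ((hC _ (hℓC i hi l hl)).2 E s h5)
      simpa using ((hρ' _).1 (h4 x hx)).2

theorem Small.relabel (hV : Rec S (fun p : M × M × M => V p.1 p.2.1 p.2.2)) {h : M → M}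
    (hh : Rec S h) (hC : ∀ n, C n → C' (h n) ∧ ∀ E s, V' (h n) E s → V n E s)
    {X : M → Prop} (hX : Reg X) (hs : Small C V X) : Small C' V' X := by
  obtain ⟨L, h1, h2⟩ := hs
  obtain ⟨I, hI⟩ := exists_single_code (0 : M)
  refine Small.glue hV hh hC (I := I) (ℓ := fun _ => L) (by fun_prop) (fun _ _ => h1) fun w => ?_
  refine ⟨fun _ x => mem x (res X w), by fun_prop, fun x hx hX' => ⟨0, (hI _).2 rfl, ?_⟩,
    fun i _ => (h2 w).mono fun x _ hx => (hX.mem_res.1 hx).2⟩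
  exact hX.mem_res.2 ⟨hx, hX'⟩

theorem Small.union (hV : Rec S (fun p : M × M × M => V p.1 p.2.1 p.2.2))
    {X Y : M → Prop} (hX : Reg X) (hY : Reg Y) (h1 : Small C V X) (h2 : Small C V Y) :
    Small C V (fun x => X x ∨ Y x) := by
  obtain ⟨L, h3, h4⟩ := h1
  obtain ⟨L', h5, h6⟩ := h2
  obtain ⟨I, hI⟩ := reg_lt (2 : M) 2
  refine Small.glue hV (h := fun n => n) (by fun_prop) (fun n hn => ⟨hn, fun _ _ h => h⟩)
    (I := I) (ℓ := fun i => if i = 0 then L else L') (by fun_prop) (fun i _ l hl => ?_) fun w => ?_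
  · by_cases hi : i = 0
    · exact h3 l (by simpa [hi] using hl)
    · exact h5 l (by simpa [hi] using hl)
  · refine ⟨fun i x => (i = 0 ∧ mem x (res X w)) ∨ (i ≠ 0 ∧ mem x (res Y w)), by fun_prop,
      fun x hx hX' => ?_, fun i _ => ?_⟩
    · rcases hX' with h | h
      · exact ⟨0, (hI _).2 (by simp), Or.inl ⟨rfl, hX.mem_res.2 ⟨hx, h⟩⟩⟩
      · exact ⟨1, (hI _).2 (by simp), Or.inr ⟨one_ne_zero, hY.mem_res.2 ⟨hx, h⟩⟩⟩
    · by_cases hi : i = 0
      · simp only [hi, if_true]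
        exact (h4 w).mono fun x _ hx => (hX.mem_res.1 (by simpa using hx)).2
      · simp only [hi, if_false]
        exact (h6 w).mono fun x _ hx => (hY.mem_res.1 (by simpa [hi] using hx)).2

theorem Small.cover (hV : Rec S (fun p : M × M × M => V p.1 p.2.1 p.2.2)) (hC : Sig2 S C)
    {X : M → Prop} {Z : M → M → Prop} (hX : Rec S X) (hZ : Rec S (fun p : M × M => Z p.1 p.2))
    {I : M} (cov : ∀ x, X x → ∃ i, mem i I ∧ Z i x)
    (hs : ∀ i, mem i I → Small C V (fun x => X x ∧ Z i x)) : Small C V X := by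
  obtain ⟨ℓ, hℓ, h⟩ := Sig2.bchoice (S := S) (R := fun i L => (∀ l, mem l L → C (p1 l)) ∧
    ∀ w, SmallAt V L (fun x => X x ∧ Z i x) w)
    (sig2_small_aux hV (C := fun _ : M => C) (X := fun i x => X x ∧ Z i x)
      (hC.comp (by fun_prop)) (by fun_prop)) hs
  refine Small.glue hV (h := fun n => n) (by fun_prop) (fun n hn => ⟨hn, fun _ _ h => h⟩)
    hℓ (fun i hi => (h i hi).1) fun w => ?_
  refine ⟨fun i x => X x ∧ Z i x, by fun_prop, fun x _ hx => ?_, fun i hi => (h i hi).2 w⟩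
  obtain ⟨i, hi, h1⟩ := cov x hx
  exact ⟨i, hi, hx, h1⟩

theorem WKLc.cover (hW : WKLc S) (hV : Rec S (fun p : M × M × M => V p.1 p.2.1 p.2.2))
    {X : M → Prop} (hX : Rec S X) {L : M} (h : ∀ w, SmallAt V L X w) :
    ∃ Z : M → M → Prop, Rec S (fun p : M × M => Z p.1 p.2) ∧
      (∀ x, X x → ∃ l, mem l L ∧ Z l x) ∧
      ∀ l, mem l L → ∀ E s, (∀ x, mem x E → Z l x) → ¬ V (p1 l) E s := by
  obtain ⟨Z, hZ, h1⟩ := hW.path (Q := fun z σ =>
      (∀ x < z, pr L x < z → X x → ∃ l, mem l L ∧ mem (pr l x) σ) ∧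
      ∀ l, mem l L → ∀ E < z, ∀ s < z, (∀ x, mem x E → mem (pr l x) σ) →
        ¬ (fun p : M × M × M => V p.1 p.2.1 p.2.2) (p1 l, E, s)) (by fun_prop) (by
    intro w
    obtain ⟨ρ, h1, h2⟩ := h w
    refine ⟨ρ, fun z hz => ⟨fun x hx h3 h4 => ?_, fun l hl E hE s hs h3 => ?_⟩⟩
    · obtain ⟨l, hl, h5⟩ := h1 x (hx.trans_le hz) h4
      exact ⟨l, hl, mem_res_mem.2 ⟨(pr_lt_pr (mem_lt hl) le_rfl).trans h3, h5⟩⟩
    · exact h2 l hl E (hE.trans_le hz) s (hs.trans_le hz) fun x hx => (mem_res_mem.1 (h3 x hx)).2)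
  refine ⟨fun l x => Z (pr l x), by fun_prop, fun x hx => ?_, fun l hl E s hE => ?_⟩
  · obtain ⟨l, hl, h2⟩ := (h1 (pr L x + 1)).1 x (lt_succ_iff'.2 (le_pr_right _ _))
      (lt_succ_self' _) hx
    exact ⟨l, hl, (hZ.reg.mem_res.1 h2).2⟩
  · refine (h1 (pr l E + s + 1)).2 l hl E
      (lt_succ_iff'.2 ((le_pr_right _ _).trans le_self_add)) s (lt_succ_iff'.2 le_add_self)
      fun x hx => hZ.reg.mem_res.2 ⟨?_, hE x hx⟩
    exact lt_succ_iff'.2 ((pr_le_pr le_rfl (mem_lt hx).le).trans le_self_add)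

end Pool.Agent.Lib.MP_706ff3_lc
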