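import Pool.Agent.Lib.MP_706ff3_lc.Ext

/-!
Tree forcing: every countable good family extends to one closed under weak Koenig's lemma.
-/

set_option autoImplicit false
set_option linter.unusedSectionVars false

namespace Pool.Agent.Lib.MP_706ff3_lc

open Classical

variable {M : Type} [PA M] [IM M]

/-- The tree described by `Q` has nodes at all levels. -/
def InfT (Q : M → M → Prop) : Prop :=
  ∀ w, ∃ c, ∀ z ≤ w, Q z (res (fun x => mem x c) z)

/-- Weak Koenig's lemma holds in `S`. -/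
def WKLc (S : Set (M → Prop)) : Prop :=
  ∀ X ∈ S, InfT (fun z c => X (pr z c)) → ∃ Z ∈ S, ∀ z, X (pr z (res Z z))

theorem upto_iff {Q : M → M → Prop} {w : M} :
    (∃ c, ∀ z ≤ w, Q z (res (fun x => mem x c) z)) ↔
      ∃ c < bnd w, ∀ z ≤ w, Q z (res (fun x => mem x c) z) := by
  constructor
  · rintro ⟨c, hc⟩
    obtain ⟨c', h1, h2⟩ := bnd_spec w c
    refine ⟨c', h1, fun z hz => ?_⟩
    have : res (fun x => mem x c') z = res (fun x => mem x c) z :=
      res_congr fun x hx => by rw [h2]; exact ⟨fun h => h.2, fun h => ⟨hx.trans_le hz, h⟩⟩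
    rw [this]; exact hc z hz
  · rintro ⟨c, -, hc⟩; exact ⟨c, hc⟩

theorem InfT.mono {Q Q' : M → M → Prop} (h : InfT Q) (e : ∀ z c, Q z c → Q' z c) : InfT Q' :=
  fun w => (h w).imp fun _ hc z hz => e _ _ (hc z hz)

theorem infT_of_path {Q : M → M → Prop} {G : M → Prop} (hG : Reg G) (h : ∀ z, Q z (res G z)) :
    InfT Q := fun w => ⟨res G w, fun z hz => by rw [hG.res_res hz]; exact h z⟩

variable {S : Set (M → Prop)} [Good S]

theorem pi1_infT {α : Type} [Cd M α] {Q : α → M → M → Prop}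
    (hQ : Rec S (fun p : α × M × M => Q p.1 p.2.1 p.2.2)) : Pi1 S (fun a => InfT (Q a)) := by
  have h1 : Rec S (fun p : α × M => ∃ c < bnd p.2, ∀ z ≤ p.2,
      (fun q : α × M × M => Q q.1 q.2.1 q.2.2) (p.1, z, res (fun x => mem x c) z)) := by
    fun_prop
  exact (Pi1.forall h1.pi1).of_iff fun a => forall_congr' fun w => upto_iff.symm

theorem infT_node {Q : M → M → Prop} (hQ : Rec S (fun p : M × M => Q p.1 p.2)) (h : InfT Q)
    (l : M) : ∃ σ, InfT (fun z c => Q z c ∧ ∀ x < l, x < z → (mem x c ↔ mem x σ)) := by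
  by_contra hn
  push Not at hn
  obtain ⟨b, hb⟩ := Rec.coll (S := S) (a := bnd l) (R := fun σ w => ¬ ∃ c < bnd w, ∀ z ≤ w,
      (fun p : M × M => Q p.1 p.2) (z, res (fun x => mem x c) z) ∧
        ∀ x < l, x < z → (mem x (res (fun x => mem x c) z) ↔ mem x σ)) (by fun_prop) (by
    intro σ _
    have := hn σ
    unfold InfT at this
    obtain ⟨w, hw⟩ := not_forall.1 this
    exact ⟨w, fun h1 => hw ((upto_iff
      (Q := fun z c => Q z c ∧ ∀ x < l, x < z → (mem x c ↔ mem x σ))).2 h1)⟩)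
  obtain ⟨c, hc⟩ := h b
  obtain ⟨σ, h1, h2⟩ := bnd_spec l c
  obtain ⟨w, hw, h3⟩ := hb σ h1
  refine h3 ((upto_iff (Q := fun z c => Q z c ∧ ∀ x < l, x < z → (mem x c ↔ mem x σ))).1
    ⟨c, fun z hz => ⟨hc z (hz.trans hw.le), fun x hx hx' => ?_⟩⟩)
  rw [mem_res_mem, h2]; tauto

theorem exists_path_ext [Countable M] (hS : S.Countable) {Q0 : M → M → Prop}
    (hQ0 : Rec S (fun p : M × M => Q0 p.1 p.2)) (h0 : InfT Q0) :
    ∃ G, GoodExt S G ∧ ∀ z, Q0 z (res G z) := by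
  have : Countable {R : M × M × M × M → Prop | Rec S R} := (countable_rec hS).to_subtype
  obtain ⟨s, hs0, hs1, hs2⟩ := exists_generic
    (P := {Q : M → M → Prop // Rec S (fun p : M × M => Q p.1 p.2) ∧ InfT Q})
    (ι := M ⊕ {R : M × M × M × M → Prop | Rec S R})
    (fun Q' Q => ∀ z c, Q'.1 z c → Q.1 z c) (fun _ _ _ h => h)
    (fun _ _ _ h h' z c h1 => h' z c (h z c h1))
    (fun i Q => match i with
      | Sum.inl l => ∃ σ, ∀ z c, Q.1 z c → ∀ x < l, x < z → (mem x c ↔ mem x σ)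
      | Sum.inr R => (∀ x y, ¬ InfT (fun z c => Q.1 z c ∧ R.1 (x, y, z, c))) ∨
          ∃ b y, (∀ z c, Q.1 z c → R.1 (b, y, z, c)) ∧
            ∀ x < b, ∀ y', ¬ InfT (fun z c => Q.1 z c ∧ R.1 (x, y', z, c)))
    (by
      rintro (l | ⟨R, hR⟩) ⟨Q, hQ, hI⟩
      · obtain ⟨σ, hσ⟩ := infT_node hQ hI l
        exact ⟨⟨_, by fun_prop, hσ⟩, fun z c h => h.1, σ, fun z c h => h.2⟩
      · have hR' : Rec S R := hR
        by_cases h1 : ∃ x y, InfT (fun z c => Q z c ∧ R (x, y, z, c))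
        · obtain ⟨x, hx⟩ := h1
          have h2 : Sig2 S (fun x => ∃ y, InfT (fun z c => Q z c ∧ R (x, y, z, c))) :=
            Sig2.exists (Pi1.sig2 (pi1_infT
              (Q := fun (p : M × M) z c => Q z c ∧ R (p.1, p.2, z, c)) (by fun_prop)))
          obtain ⟨b, ⟨y, hy⟩, h3⟩ := h2.least hx
          refine ⟨⟨_, by fun_prop, hy⟩, fun z c h => h.1, Or.inr ⟨b, y, fun z c h => h.2, ?_⟩⟩
          intro x hx y' h4
          exact h3 x hx ⟨y', h4.mono fun z c h => ⟨h.1.1, h.2⟩⟩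
        · push Not at h1
          exact ⟨⟨Q, hQ, hI⟩, fun _ _ h => h, Or.inl h1⟩) ⟨Q0, hQ0, h0⟩
  set G : M → Prop := fun x => ∃ n, ∀ z c, (s n).1 z c → x < z → mem x c with hG
  have hnode : ∀ l, ∃ n σ, (∀ z c, (s n).1 z c → ∀ x < l, x < z → (mem x c ↔ mem x σ)) ∧
      ∀ x < l, G x ↔ mem x σ := by
    intro l
    obtain ⟨n, σ, hσ⟩ := hs2 (Sum.inl l)
    refine ⟨n, σ, hσ, fun x hx => ⟨?_, fun h => ⟨n, fun z c h1 h2 => (hσ z c h1 x hx h2).2 h⟩⟩⟩
    rintro ⟨n', hn'⟩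
    obtain ⟨c, hc⟩ := (s (max n n')).2.2 (x + 1)
    have h1 := hc (x + 1) le_rfl
    exact (hσ _ _ (hs1 _ _ (le_max_left _ _) _ _ h1) x hx (lt_succ_self' x)).1
      (hn' _ _ (hs1 _ _ (le_max_right _ _) _ _ h1) (lt_succ_self' x))
  have hreg : Reg G := by
    intro l
    obtain ⟨n, σ, -, h⟩ := hnode l
    exact ⟨res (fun x => mem x σ) l, fun x => by
      rw [mem_res_mem]; exact and_congr_right fun hx => (h x hx).symm⟩
  have hpath : ∀ n z, (s n).1 z (res G z) := by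
    intro n z
    obtain ⟨n', σ, h1, h2⟩ := hnode z
    obtain ⟨c, hc⟩ := (s (max n n')).2.2 z
    have h3 := hc z le_rfl
    have h4 : res (fun x => mem x c) z = res G z := res_congr fun x hx => by
      rw [h2 x hx, ← h1 _ _ (hs1 _ _ (le_max_right _ _) _ _ h3) x hx hx, mem_res_mem]
      tauto
    rw [← h4]
    exact hs1 _ _ (le_max_left _ _) _ _ h3
  refine ⟨G, ⟨hreg, ?_⟩, fun z => by have := hpath 0 z; rwa [hs0] at this⟩
  intro R hR x hx
  obtain ⟨n, hn⟩ := hs2 (Sum.inr ⟨R, hR⟩)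
  have key : ∀ x, (∃ y, ∀ z, R (x, y, z, res G z)) →
      ∃ y, InfT (fun z c => (s n).1 z c ∧ R (x, y, z, c)) := by
    rintro x ⟨y, hy⟩
    exact ⟨y, infT_of_path hreg fun z => ⟨hpath n z, hy z⟩⟩
  rcases hn with hn | ⟨b, y, h1, h2⟩
  · obtain ⟨y, hy⟩ := key x hx
    exact absurd hy (hn x y)
  · refine ⟨b, ⟨y, fun z => h1 _ _ (hpath n z)⟩, fun x' hx' h3 => ?_⟩
    obtain ⟨y', hy'⟩ := key x' h3
    exact h2 x' hx' y' hy'

theorem exists_wkl_ext [Countable M] (T : Set (M → Prop)) (hT : Good T) (hc : T.Countable) :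
    ∃ T', Good T' ∧ T'.Countable ∧ T ⊆ T' ∧ WKLc T' := by
  obtain ⟨T', h1, h2, h3, h4⟩ := exists_closed (fun X _ => InfT (fun z c => X (pr z c)))
    (fun X _ Z => ∀ z, X (pr z (res Z z))) (by
      intro U hU hc X hX _ _ hI
      have hX' : Rec U X := rec_iff_mem.2 hX
      obtain ⟨G, hG, h⟩ := exists_path_ext (S := U) hc (Q0 := fun z c => X (pr z c))
        (by fun_prop) hI
      exact ⟨ext U G, hG.good, countable_ext hc, subset_ext, G, self_mem_ext hG.reg, h⟩) T hT hc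
  exact ⟨T', h1, h2, h3, fun X hX hI => h4 X hX X hX hI⟩

theorem WKLc.path (h : WKLc S) {Q : M → M → Prop} (hQ : Rec S (fun p : M × M => Q p.1 p.2))
    (hI : InfT Q) : ∃ Z, Rec S Z ∧ ∀ z, Q z (res Z z) := by
  have h1 : Rec S (fun u : M => Q (p1 u) (p2 u)) :=
    hQ.comp (g := fun u : M => (p1 u, p2 u)) (by fun_prop)
  obtain ⟨Z, hZ, h2⟩ := h _ (rec_iff_mem.1 h1) (by simpa using hI)
  exact ⟨Z, rec_iff_mem.2 hZ, by simpa using h2⟩

end Pool.Agent.Lib.MP_706ff3_lc
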